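import Pool.Agent.H12.San.Leap

/-! The Langevin chain and the Santalo inequality for its stationary law. -/

open MeasureTheory Set
open scoped ENNReal RealInnerProductSpace

namespace Pool.Agent.H12.San

universe u

section basic

variable {E : Type u} [NormedAddCommGroup E]

/-- bounded Lipschitz functions -/
structure LB (φ : E → ℝ) (K B : ℝ) : Prop where
  lip : ∀ x y, |φ x - φ y| ≤ K * ‖x - y‖
  bd : ∀ x, |φ x| ≤ B
  K0 : 0 ≤ K

lemma LB.cont {φ : E → ℝ} {K B : ℝ} (h : LB φ K B) : Continuous φ := by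
  have : LipschitzWith ⟨K, h.K0⟩ φ := LipschitzWith.of_dist_le_mul (fun x y => by
    rw [dist_eq_norm, dist_eq_norm]
    exact h.lip x y)
  exact this.continuous

lemma LB.B0 {φ : E → ℝ} {K B : ℝ} (h : LB φ K B) : 0 ≤ B := (abs_nonneg _).trans (h.bd 0)

end basic

variable {E : Type u} [NormedAddCommGroup E] [InnerProductSpace ℝ E] [FiniteDimensional ℝ E]
  [MeasurableSpace E] [BorelSpace E]

/-- Markov operator of the chain -/
noncomputable def Pk (D : E → E) (h : ℝ) (φ : E → ℝ) (x : E) : ℝ :=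
  (∫ g, φ (nx D h (x, g)) * gs g) / ∫ g : E, gs g

variable (E) in
lemma G_pos : 0 < ∫ g : E, gs g := by
  rw [gs_integral]; positivity

variable {W : E → ℝ} {D : E → E} {a L : ℝ}

omit [FiniteDimensional ℝ E] [MeasurableSpace E] [BorelSpace E] in
lemma nx_cont (hD : Continuous D) (h : ℝ) : Continuous (fun p : E × E => nx D h p) := by
  unfold nx; fun_prop

lemma slice_int {φ : E → ℝ} {K B : ℝ} (hφ : LB φ K B) (hD : Continuous D) (h : ℝ) (x : E) :
    Integrable (fun g : E => φ (nx D h (x, g)) * gs g) := by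
  refine (gs_int.const_mul B).mono' ?_ (Filter.Eventually.of_forall (fun g => ?_))
  · have h1 : Continuous (fun g : E => nx D h (x, g)) := (nx_cont hD h).comp (by fun_prop)
    have h2 := hφ.cont
    apply Continuous.aestronglyMeasurable
    unfold gs
    fun_prop
  · rw [norm_mul, Real.norm_eq_abs, Real.norm_eq_abs, abs_of_pos (gs_pos g)]
    exact mul_le_mul_of_nonneg_right (hφ.bd _) (gs_pos g).le

omit [FiniteDimensional ℝ E] [MeasurableSpace E] [BorelSpace E] in
lemma Drift.nx_con (hd : Drift W D a L) {h : ℝ} (hL : h ^ 2 / 2 * L ≤ 1) (x y g : E) :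
    ‖nx D h (x, g) - nx D h (y, g)‖ ≤ (1 - h ^ 2 / 2 * a) * ‖x - y‖ := by
  have e : nx D h (x, g) - nx D h (y, g) =
      (x - (h ^ 2 / 2) • D x) - (y - (h ^ 2 / 2) • D y) := by
    simp only [nx]; abel
  rw [e]
  exact hd.con _ (by positivity) hL x y

lemma Pk_LB (hd : Drift W D a L) {h : ℝ} (hL : h ^ 2 / 2 * L ≤ 1) (hr : h ^ 2 / 2 * a ≤ 1)
    {φ : E → ℝ} {K B : ℝ} (hφ : LB φ K B) :
    LB (Pk D h φ) (K * (1 - h ^ 2 / 2 * a)) B := by
  have G := G_pos E
  have hD := hd.contD
  refine ⟨?_, ?_, mul_nonneg hφ.K0 (by linarith)⟩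
  · intro x y
    rw [Pk, Pk, ← sub_div, abs_div, abs_of_pos G, div_le_iff₀ G,
      ← integral_sub (slice_int hφ hD h x) (slice_int hφ hD h y), ← Real.norm_eq_abs]
    have h1 : ‖∫ g, (φ (nx D h (x, g)) * gs g - φ (nx D h (y, g)) * gs g)‖ ≤
        ∫ g : E, (K * ((1 - h ^ 2 / 2 * a) * ‖x - y‖)) * gs g := by
      apply norm_integral_le_of_norm_le (gs_int.const_mul _)
      refine Filter.Eventually.of_forall (fun g => ?_)
      rw [← sub_mul, norm_mul, Real.norm_eq_abs, Real.norm_eq_abs, abs_of_pos (gs_pos g)]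
      apply mul_le_mul_of_nonneg_right _ (gs_pos g).le
      refine (hφ.lip _ _).trans ?_
      exact mul_le_mul_of_nonneg_left (hd.nx_con hL x y g) hφ.K0
    rw [integral_const_mul] at h1
    refine h1.trans (le_of_eq ?_)
    ring
  · intro x
    rw [Pk, abs_div, abs_of_pos G, div_le_iff₀ G, ← Real.norm_eq_abs]
    have h1 : ‖∫ g, φ (nx D h (x, g)) * gs g‖ ≤ ∫ g : E, B * gs g := by
      apply norm_integral_le_of_norm_le (gs_int.const_mul _)
      refine Filter.Eventually.of_forall (fun g => ?_)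
      rw [norm_mul, Real.norm_eq_abs, Real.norm_eq_abs, abs_of_pos (gs_pos g)]
      exact mul_le_mul_of_nonneg_right (hφ.bd _) (gs_pos g).le
    rwa [integral_const_mul] at h1

lemma iter_LB (hd : Drift W D a L) {h : ℝ} (hL : h ^ 2 / 2 * L ≤ 1) (hr : h ^ 2 / 2 * a ≤ 1)
    (N : ℕ) : ∀ {φ : E → ℝ} {K B : ℝ}, LB φ K B →
    LB ((Pk D h)^[N] φ) (K * (1 - h ^ 2 / 2 * a) ^ N) B := by
  induction N with
  | zero => intro φ K B hφ; simpa using hφ
  | succ N ih =>
    intro φ K B hφ
    have := ih (Pk_LB hd hL hr hφ)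
    rw [Function.iterate_succ, Function.comp]
    have e : K * (1 - h ^ 2 / 2 * a) ^ (N + 1) =
        K * (1 - h ^ 2 / 2 * a) * (1 - h ^ 2 / 2 * a) ^ N := by ring
    rw [e]
    exact this

lemma expW_int (hd : Drift W D a L) : Integrable (fun x => Real.exp (-W x)) := by
  refine (gs_int (F := E)).mono' ?_ (Filter.Eventually.of_forall (fun x => ?_))
  · have := hd.cont
    exact Continuous.aestronglyMeasurable (by fun_prop)
  · rw [Real.norm_eq_abs, Real.abs_exp, gs]
    apply Real.exp_le_exp.mpr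
    have := hd.big x
    linarith

lemma LB_int (hd : Drift W D a L) {φ : E → ℝ} {K B : ℝ} (hφ : LB φ K B) :
    Integrable (fun x => φ x * Real.exp (-W x)) := by
  refine ((expW_int hd).const_mul B).mono' ?_ (Filter.Eventually.of_forall (fun x => ?_))
  · have := hd.cont
    have := hφ.cont
    exact Continuous.aestronglyMeasurable (by fun_prop)
  · rw [norm_mul, Real.norm_eq_abs, Real.norm_eq_abs, Real.abs_exp]
    exact mul_le_mul_of_nonneg_right (hφ.bd x) (Real.exp_pos _).le

/-- one step of the chain changes the integral only by `O(h^3)` -/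
lemma step_int (hd : Drift W D a L) {h : ℝ} (h0 : 0 ≤ h) (h1 : h ≤ 1) {φ : E → ℝ} {K B : ℝ} (hφ : LB φ K B) :
    |(∫ x, Pk D h φ x * Real.exp (-W x)) - ∫ x, φ x * Real.exp (-W x)| ≤
      K * (CK L * h ^ 3 * BQ E / ∫ g : E, gs g) := by
  have G := G_pos E
  have hD := hd.contD
  have Wc := hd.cont
  have φc := hφ.cont
  have key := hd.onestep h0 h1 hφ.K0 φc hφ.lip hφ.bd
  have ig : Integrable (fun p : E × E => gs p.1 * gs p.2) := gs_int.mul_prod gs_int
  have nc := nx_cont hD h
  have j1 : Integrable (fun p : E × E => φ (nx D h p) * (Real.exp (-W p.1) * gs p.2)) := by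
    refine (ig.const_mul B).mono' ?_ (Filter.Eventually.of_forall (fun p => ?_))
    · apply Continuous.aestronglyMeasurable
      unfold gs
      fun_prop
    · rw [norm_mul, Real.norm_eq_abs, Real.norm_eq_abs, abs_of_nonneg
        (mul_nonneg (Real.exp_pos _).le (gs_pos _).le)]
      have e1 : Real.exp (-W p.1) ≤ gs p.1 := by
        rw [gs]; apply Real.exp_le_exp.mpr
        have := hd.big p.1
        linarith
      have e2 := gs_pos p.2
      have e3 := gs_pos p.1
      have e4 := hφ.B0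
      exact mul_le_mul (hφ.bd _) (mul_le_mul_of_nonneg_right e1 e2.le)
        (mul_nonneg (Real.exp_pos _).le e2.le) e4
  have j2 : Integrable (fun p : E × E => φ p.1 * (Real.exp (-W p.1) * gs p.2)) := by
    have := (LB_int hd hφ).mul_prod (gs_int (F := E))
    refine this.congr (Filter.Eventually.of_forall (fun p => ?_))
    simp only; ring
  have e0 : ∀ p : E × E, (φ (nx D h p) - φ p.1) * Real.exp (-En W p) =
      φ (nx D h p) * (Real.exp (-W p.1) * gs p.2) - φ p.1 * (Real.exp (-W p.1) * gs p.2) := by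
    intro p
    have : Real.exp (-En W p) = Real.exp (-W p.1) * gs p.2 := by
      rw [gs, ← Real.exp_add, En]; congr 1; ring
    rw [this]; ring
  simp only [e0] at key
  rw [integral_sub j1 j2] at key
  have e1 : ∫ p : E × E, φ (nx D h p) * (Real.exp (-W p.1) * gs p.2) =
      (∫ x, Pk D h φ x * Real.exp (-W x)) * ∫ g : E, gs g := by
    rw [Measure.volume_eq_prod, integral_prod _ (by rw [← Measure.volume_eq_prod]; exact j1),
      ← integral_mul_const]
    congr 1
    ext x
    rw [Pk]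
    have : ∀ g : E, φ (nx D h (x, g)) * (Real.exp (-W x) * gs g) =
        Real.exp (-W x) * (φ (nx D h (x, g)) * gs g) := fun g => by ring
    simp only [this]
    rw [integral_const_mul]
    field_simp
  have e2 : ∫ p : E × E, φ p.1 * (Real.exp (-W p.1) * gs p.2) =
      (∫ x, φ x * Real.exp (-W x)) * ∫ g : E, gs g := by
    rw [Measure.volume_eq_prod, ← integral_prod_mul]
    congr 1
    ext p
    ring
  rw [e1, e2, ← sub_mul, abs_mul, abs_of_pos G, ← le_div_iff₀ G] at key
  refine key.trans (le_of_eq ?_)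
  ring

/-- iterated estimate -/
lemma iter_int (hd : Drift W D a L) {h : ℝ} (h0 : 0 < h) (h1 : h ≤ 1) (hL : h ^ 2 / 2 * L ≤ 1)
    (hr : h ^ 2 / 2 * a ≤ 1) (N : ℕ) : ∀ {φ : E → ℝ} {K B : ℝ}, LB φ K B →
    |(∫ x, (Pk D h)^[N] φ x * Real.exp (-W x)) - ∫ x, φ x * Real.exp (-W x)| ≤
      K * ((CK L * h ^ 3 * BQ E / ∫ g : E, gs g) / (h ^ 2 / 2 * a)) := by
  have ha := hd.ha
  have hδ : 0 < h ^ 2 / 2 * a := by positivity
  have c0 : 0 ≤ CK L * h ^ 3 * BQ E / ∫ g : E, gs g := by
    have hL0 := hd.hL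
    have : 0 ≤ CK L := by unfold CK; positivity
    have : 0 ≤ BQ E := integral_nonneg (fun p => by
      have := gs_pos p.1; have := gs_pos p.2; positivity)
    have := (G_pos E).le
    positivity
  set c := CK L * h ^ 3 * BQ E / ∫ g : E, gs g with hc
  induction N with
  | zero =>
    intro φ K B hφ
    simp only [Function.iterate_zero, id, sub_self, abs_zero]
    have := hφ.K0
    positivity
  | succ N ih =>
    intro φ K B hφ
    have i1 := ih (Pk_LB hd hL hr hφ)
    have i2 := step_int hd h0.le h1 hφ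
    rw [Function.iterate_succ, Function.comp]
    calc |(∫ x, (Pk D h)^[N] (Pk D h φ) x * Real.exp (-W x)) - ∫ x, φ x * Real.exp (-W x)|
        ≤ |(∫ x, (Pk D h)^[N] (Pk D h φ) x * Real.exp (-W x)) -
            ∫ x, Pk D h φ x * Real.exp (-W x)| +
          |(∫ x, Pk D h φ x * Real.exp (-W x)) - ∫ x, φ x * Real.exp (-W x)| :=
          abs_sub_le _ _ _
      _ ≤ K * (1 - h ^ 2 / 2 * a) * (c / (h ^ 2 / 2 * a)) + K * c := add_le_add i1 i2
      _ = K * (c / (h ^ 2 / 2 * a)) := by
          field_simp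
          ring

lemma norm_int : Integrable (fun x : E => ‖x‖ * gs x) := by
  refine (gauss_int (F := E) (b := 1 / 4) (by norm_num)).mono' ?_
    (Filter.Eventually.of_forall (fun x => ?_))
  · apply Continuous.aestronglyMeasurable
    unfold gs
    fun_prop
  · rw [Real.norm_eq_abs, abs_of_nonneg (mul_nonneg (norm_nonneg _) (gs_pos _).le)]
    have h2 : ‖x‖ ^ 2 / 4 + 1 ≤ Real.exp (‖x‖ ^ 2 / 4) := Real.add_one_le_exp _
    have h3 : ‖x‖ ≤ ‖x‖ ^ 2 / 4 + 1 := by
      have := sq_nonneg (‖x‖ / 2 - 1)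
      nlinarith
    calc ‖x‖ * gs x ≤ Real.exp (‖x‖ ^ 2 / 4) * gs x := by
          have := gs_pos x
          gcongr
          linarith
      _ = Real.exp (-(1 / 4) * ‖x‖ ^ 2) := by
          rw [gs, ← Real.exp_add]; congr 1; ring

/-- the chain started at `0` -/
lemma chain_lim (hd : Drift W D a L) {h : ℝ} (h0 : 0 < h) (h1 : h ≤ 1) (hL : h ^ 2 / 2 * L ≤ 1)
    (hr : h ^ 2 / 2 * a ≤ 1) (N : ℕ) {φ : E → ℝ} {K B : ℝ} (hφ : LB φ K B) :
    |(Pk D h)^[N] φ 0 * (∫ x, Real.exp (-W x)) - ∫ x, φ x * Real.exp (-W x)| ≤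
      K * (1 - h ^ 2 / 2 * a) ^ N * (∫ x : E, ‖x‖ * gs x) +
      K * ((CK L * h ^ 3 * BQ E / ∫ g : E, gs g) / (h ^ 2 / 2 * a)) := by
  have i1 := iter_int hd h0 h1 hL hr N hφ
  have hN := iter_LB hd hL hr N hφ
  set ψ := (Pk D h)^[N] φ with hψ
  have i2 : |ψ 0 * (∫ x, Real.exp (-W x)) - ∫ x, ψ x * Real.exp (-W x)| ≤
      K * (1 - h ^ 2 / 2 * a) ^ N * (∫ x : E, ‖x‖ * gs x) := by
    rw [← integral_const_mul, ← integral_sub ((expW_int hd).const_mul _) (LB_int hd hN),
      ← integral_const_mul, ← Real.norm_eq_abs]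
    apply norm_integral_le_of_norm_le (norm_int.const_mul _)
    refine Filter.Eventually.of_forall (fun x => ?_)
    rw [← sub_mul, norm_mul, Real.norm_eq_abs, Real.norm_eq_abs, Real.abs_exp]
    have e1 := hN.lip 0 x
    rw [zero_sub, norm_neg] at e1
    have e2 : Real.exp (-W x) ≤ gs x := by
      rw [gs]; apply Real.exp_le_exp.mpr
      have := hd.big x
      linarith
    calc |ψ 0 - ψ x| * Real.exp (-W x) ≤ (K * (1 - h ^ 2 / 2 * a) ^ N * ‖x‖) * gs x := by
          apply mul_le_mul e1 e2 (Real.exp_pos _).le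
          exact (abs_nonneg _).trans e1
      _ = _ := by ring
  calc _ ≤ |ψ 0 * (∫ x, Real.exp (-W x)) - ∫ x, ψ x * Real.exp (-W x)| +
        |(∫ x, ψ x * Real.exp (-W x)) - ∫ x, φ x * Real.exp (-W x)| := abs_sub_le _ _ _
    _ ≤ _ := add_le_add i2 i1

end Pool.Agent.H12.San
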