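import Pool.Agent.H12.San.Half

/-! Functional Santalo inequality, core of the induction. -/

open MeasureTheory Set
open scoped ENNReal

namespace Pool.Agent.H12.San

variable {m : ℕ}

lemma restrict_pos : ((volume : Measure ℝ).restrict (Ioi 0)).prod (volume : Measure (V m)) =
    (volume : Measure (ℝ × V m)).restrict {p | 0 < p.1} := by
  have e : {p : ℝ × V m | 0 < p.1} = Ioi 0 ×ˢ univ := by ext p; simp
  have h := Measure.prod_restrict (μ := (volume : Measure ℝ)) (ν := (volume : Measure (V m)))
    (Ioi 0) univ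
  rw [Measure.restrict_univ] at h
  rw [h, e]
  rfl

/-- reflection in the first coordinate -/
def Rfl (m : ℕ) : (ℝ × V m) ≃ᵐ (ℝ × V m) := (MeasurableEquiv.neg ℝ).prodCongr
  (MeasurableEquiv.refl _)

lemma Rfl_apply (p : ℝ × V m) : Rfl m p = (-p.1, p.2) := rfl

lemma Rfl_mp : MeasurePreserving (Rfl m) volume volume :=
  (Measure.measurePreserving_neg (volume : Measure ℝ)).prod
    (MeasurePreserving.id (volume : Measure (V m)))

lemma setInt_neg (u : ℝ × V m → ℝ) :
    ∫ p in {p : ℝ × V m | 0 < p.1}, u (-p.1, p.2) = ∫ p in {p : ℝ × V m | p.1 < 0}, u p := by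
  have h := (Rfl_mp (m := m)).setIntegral_preimage_emb (Rfl m).measurableEmbedding u
    {p : ℝ × V m | p.1 < 0}
  have e : (Rfl m) ⁻¹' {p : ℝ × V m | p.1 < 0} = {p | 0 < p.1} := by
    ext p; simp [Rfl_apply]
  rw [e] at h
  exact h

lemma split_int {g : ℝ × V m → ℝ} (gi : Integrable g) :
    ∫ p, g p = (∫ p in {p : ℝ × V m | 0 < p.1}, g p) + ∫ p in {p : ℝ × V m | p.1 < 0}, g p := by
  have hs : MeasurableSet {p : ℝ × V m | 0 < p.1} := measurableSet_lt measurable_const measurable_fst
  rw [← integral_add_compl hs gi]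
  congr 1
  apply setIntegral_congr_set
  have h0 : (volume : Measure (ℝ × V m)) {p | p.1 = 0} = 0 := by
    have e : {p : ℝ × V m | p.1 = 0} = {0} ×ˢ univ := by ext p; simp
    rw [e, Measure.volume_eq_prod, Measure.prod_prod]
    simp
  have h1 : ∀ᵐ p : ℝ × V m, p.1 ≠ 0 := by
    rw [ae_iff]; simpa using h0
  filter_upwards [h1] with p hp
  apply propext
  change ¬ (0 < p.1) ↔ p.1 < 0
  constructor
  · intro h; exact lt_of_le_of_ne (not_lt.mp h) hp
  · intro h; exact not_lt.mpr h.le

lemma core (hC : Cst m) {f g : ℝ × V m → ℝ} {M : ℝ} (hf : Measurable f) (hg : Measurable g)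
    (hf0 : ∀ p, 0 ≤ f p) (hg0 : ∀ p, 0 ≤ g p) (fi : Integrable f) (gi : Integrable g)
    (fm : ∀ i, Integrable (fun p : ℝ × V m => p.2 i * f p))
    (gm : ∀ i, Integrable (fun p : ℝ × V m => p.2 i * g p))
    (fp : ∀ i, ∫ p in {p : ℝ × V m | 0 < p.1}, p.2 i * f p = 0)
    (fn : ∀ i, ∫ p in {p : ℝ × V m | p.1 < 0}, p.2 i * f p = 0)
    (Mp : ∫ p in {p : ℝ × V m | 0 < p.1}, f p = M / 2)
    (Mn : ∫ p in {p : ℝ × V m | p.1 < 0}, f p = M / 2)
    (H : ∀ p q : ℝ × V m, f p * g q ≤ Real.exp (-(p.1 * q.1 + p.2 ⬝ᵥ q.2))) :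
    M * ∫ q, g q ≤ (2 * Real.pi) ^ (m + 1) := by
  have h1 := half hC hf hg hf0 hg0 (by rw [restrict_pos]; exact fi.restrict)
    (by rw [restrict_pos]; exact gi.restrict) (fun i => by rw [restrict_pos]; exact (fm i).restrict)
    (fun i => by rw [restrict_pos]; exact (gm i).restrict)
    (fun i => by rw [restrict_pos]; exact fp i) (fun s _ t _ x y => H (s, x) (t, y))
  have aux : ∀ u : ℝ × V m → ℝ, Integrable u → Integrable (fun p : ℝ × V m => u (-p.1, p.2)) :=
    fun u hu => (Rfl_mp (m := m)).integrable_comp_of_integrable hu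
  have h2 := half hC (f := fun p => f (-p.1, p.2)) (g := fun p => g (-p.1, p.2))
    (by fun_prop) (by fun_prop) (fun p => hf0 _) (fun p => hg0 _)
    (by rw [restrict_pos]; exact (aux f fi).restrict)
    (by rw [restrict_pos]; exact (aux g gi).restrict)
    (fun i => by rw [restrict_pos]; exact (aux _ (fm i)).restrict)
    (fun i => by rw [restrict_pos]; exact (aux _ (gm i)).restrict)
    (fun i => by
      rw [restrict_pos]
      exact (setInt_neg (fun p => p.2 i * f p)).trans (fn i))
    (fun s _ t _ x y => (H (-s, x) (-t, y)).trans (le_of_eq (by congr 2; ring)))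
  rw [restrict_pos] at h1 h2
  rw [setInt_neg f, setInt_neg g, Mn] at h2
  rw [Mp] at h1
  rw [split_int gi, mul_add, pow_succ]
  nlinarith [h1, h2]

/-- the affine map `(s, x) -> (c + s, z + x + s v)` -/
def Phi (c : ℝ) (z v : V m) : (ℝ × V m) ≃ᵐ (ℝ × V m) where
  toFun p := (c + p.1, z + (p.2 + p.1 • v))
  invFun q := (q.1 - c, q.2 - z - (q.1 - c) • v)
  left_inv p := by ext <;> simp
  right_inv q := by ext <;> simp
  measurable_toFun := by
    change Measurable (fun p : ℝ × V m => (c + p.1, z + (p.2 + p.1 • v)))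
    fun_prop
  measurable_invFun := by
    change Measurable (fun q : ℝ × V m => (q.1 - c, q.2 - z - (q.1 - c) • v))
    fun_prop

lemma Phi_apply (c : ℝ) (z v : V m) (p : ℝ × V m) :
    Phi c z v p = (c + p.1, z + (p.2 + p.1 • v)) := rfl

lemma Phi_mp (c : ℝ) (z v : V m) : MeasurePreserving (Phi c z v) volume volume := by
  have h1 : MeasurePreserving (fun p : ℝ × V m => (p.1, p.2 + p.1 • v))
      ((volume : Measure ℝ).prod (volume : Measure (V m)))
      ((volume : Measure ℝ).prod (volume : Measure (V m))) := by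
    apply MeasurePreserving.skew_product (g := fun (s : ℝ) (x : V m) => x + s • v)
      (MeasurePreserving.id _)
    · change Measurable (fun p : ℝ × V m => p.2 + p.1 • v)
      fun_prop
    · exact Filter.Eventually.of_forall (fun s =>
        (measurePreserving_add_right (volume : Measure (V m)) (s • v)).map_eq)
  have h2 : MeasurePreserving (fun p : ℝ × V m => (c, z) + p)
      ((volume : Measure ℝ).prod (volume : Measure (V m)))
      ((volume : Measure ℝ).prod (volume : Measure (V m))) :=
    measurePreserving_add_left _ (c, z)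
  exact h2.comp h1

/-- the dual shear -/
def Psi (v : V m) : (ℝ × V m) ≃ᵐ (ℝ × V m) where
  toFun p := (p.1 - v ⬝ᵥ p.2, p.2)
  invFun p := (p.1 + v ⬝ᵥ p.2, p.2)
  left_inv p := by ext <;> simp
  right_inv q := by ext <;> simp
  measurable_toFun := by
    change Measurable (fun p : ℝ × V m => (p.1 - ∑ i, v i * p.2 i, p.2))
    fun_prop
  measurable_invFun := by
    change Measurable (fun p : ℝ × V m => (p.1 + ∑ i, v i * p.2 i, p.2))
    fun_prop

lemma Psi_apply (v : V m) (p : ℝ × V m) : Psi v p = (p.1 - v ⬝ᵥ p.2, p.2) := rfl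

lemma Psi_mp (v : V m) : MeasurePreserving (Psi v) volume volume := by
  have h1 : MeasurePreserving (fun p : V m × ℝ => (p.1, p.2 + (-(v ⬝ᵥ p.1))))
      ((volume : Measure (V m)).prod (volume : Measure ℝ))
      ((volume : Measure (V m)).prod (volume : Measure ℝ)) := by
    apply MeasurePreserving.skew_product (g := fun (x : V m) (s : ℝ) => s + (-(v ⬝ᵥ x)))
      (MeasurePreserving.id _)
    · change Measurable (fun p : V m × ℝ => p.2 + (-(∑ i, v i * p.1 i)))
      fun_prop
    · exact Filter.Eventually.of_forall (fun s =>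
        (measurePreserving_add_right (volume : Measure ℝ) (-(v ⬝ᵥ s))).map_eq)
  have h2 := (Measure.measurePreserving_swap (μ := (volume : Measure (V m)))
    (ν := (volume : Measure ℝ))).comp (h1.comp (Measure.measurePreserving_swap
    (μ := (volume : Measure ℝ)) (ν := (volume : Measure (V m)))))
  exact h2

end Pool.Agent.H12.San
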