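import Pool.Agent.H12.San.Slope

/-! `|K ∩ T| |K° ∩ T| ≤ (1 + √(2πn))² |B ∩ T|²`. -/

open MeasureTheory Set
open scoped ENNReal RealInnerProductSpace Pointwise

namespace Pool.Agent.H12.San

variable {n : ℕ}


lemma zero_mem_interior {T : Set (EuclideanSpace ℝ (Fin n))} (hc : Convex ℝ T) (hi : (interior T).Nonempty)
    (hs : ∀ x ∈ T, -x ∈ T) : (0 : EuclideanSpace ℝ (Fin n)) ∈ interior T := by
  obtain ⟨z, hz⟩ := hi
  have hz' : -z ∈ interior T := by
    rw [mem_interior_iff_mem_nhds] at hz ⊢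
    have h2 : Filter.Tendsto (fun x : EuclideanSpace ℝ (Fin n) => -x) (nhds (-z)) (nhds (-(-z))) :=
      (continuous_neg.tendsto (-z))
    rw [neg_neg] at h2
    refine Filter.mem_of_superset (h2 hz) ?_
    intro x hx
    have h3 : -x ∈ T := hx
    simpa using hs _ h3
  have := hc.interior hz hz' (show (0:ℝ) ≤ 1 / 2 by norm_num) (show (0:ℝ) ≤ 1 / 2 by norm_num)
    (by norm_num)
  have e : (1 / 2 : ℝ) • z + (1 / 2 : ℝ) • -z = 0 := by module
  rwa [e] at this

/-- scaled version of `set_ineq` -/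
lemma scaled [Nontrivial (EuclideanSpace ℝ (Fin n))] {T A B : Set (EuclideanSpace ℝ (Fin n))} (hT : IsClosed T)
    (hc : Convex ℝ T)
    (hne : T.Nonempty) (hs : ∀ x ∈ T, -x ∈ T) (hA : IsCompact A) (hAc : Convex ℝ A)
    (hAs : ∀ x ∈ A, -x ∈ A) (hB : IsCompact B) (hBc : Convex ℝ B)
    (hAB : ∀ x ∈ A, ∀ y ∈ B, ⟪x, y⟫ ≤ 1) {p : ℝ} (hp : 0 < p) :
    volume.real (A ∩ T) * volume.real (B ∩ T) ≤
      Real.exp p * (∫ x in T, Real.exp (-(p * ‖x‖ ^ 2 / 2))) ^ 2 := by
  set c := Real.sqrt p with hcd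
  have c0 : 0 < c := Real.sqrt_pos.mpr hp
  have c2 : c * c = p := Real.mul_self_sqrt hp.le
  have c2' : c ^ 2 = p := by rw [sq]; exact c2
  have neg_smul' : ∀ S : Set (EuclideanSpace ℝ (Fin n)), (∀ x ∈ S, -x ∈ S) → ∀ x ∈ c • S, -x ∈ c • S := by
    rintro S hS _ ⟨x, hx, rfl⟩
    exact ⟨-x, hS x hx, by simp⟩
  have key := set_ineq (T := c • T) (A := c • A) (B := c • B) (hT.smul₀ c) (hc.smul c)
    hne.smul_set (neg_smul' T hs) (hA.smul c) (hAc.smul c) (neg_smul' A hAs) (hB.smul c)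
    (hBc.smul c) (τ := p) (by
      rintro _ ⟨x, hx, rfl⟩ _ ⟨y, hy, rfl⟩
      simp only [real_inner_smul_left, real_inner_smul_right]
      have := hAB x hx y hy
      calc c * (c * ⟪x, y⟫) = p * ⟪x, y⟫ := by rw [← mul_assoc, c2]
        _ ≤ p * 1 := by gcongr
        _ = p := mul_one p)
  have v : ∀ S : Set (EuclideanSpace ℝ (Fin n)), volume.real (c • S) = c ^ n * volume.real S := by
    intro S
    rw [measureReal_def, Measure.addHaar_smul, finrank_euclideanSpace_fin, ENNReal.toReal_mul,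
      ENNReal.toReal_ofReal (abs_nonneg _), abs_of_pos (by positivity)]
    rfl
  have g : ∫ x in c • T, gs x = c ^ n * ∫ x in T, Real.exp (-(p * ‖x‖ ^ 2 / 2)) := by
    have h := Measure.setIntegral_comp_smul_of_pos (volume : Measure (EuclideanSpace ℝ (Fin n))) (gs : EuclideanSpace ℝ (Fin n) → ℝ) T c0
    rw [finrank_euclideanSpace_fin, smul_eq_mul] at h
    have e : ∀ x : EuclideanSpace ℝ (Fin n), gs (c • x) = Real.exp (-(p * ‖x‖ ^ 2 / 2)) := by
      intro x
      rw [gs, norm_smul, Real.norm_of_nonneg c0.le, mul_pow, c2']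
      congr 1; ring
    simp only [e] at h
    rw [h]
    field_simp
  rw [← smul_set_inter₀ c0.ne', ← smul_set_inter₀ c0.ne', v, v, g] at key
  have cn : 0 < (c ^ n) ^ 2 := by positivity
  have e1 : c ^ n * volume.real (A ∩ T) * (c ^ n * volume.real (B ∩ T)) =
      (volume.real (A ∩ T) * volume.real (B ∩ T)) * (c ^ n) ^ 2 := by ring
  have e2 : Real.exp p * (c ^ n * ∫ x in T, Real.exp (-(p * ‖x‖ ^ 2 / 2))) ^ 2 =
      (Real.exp p * (∫ x in T, Real.exp (-(p * ‖x‖ ^ 2 / 2))) ^ 2) * (c ^ n) ^ 2 := by ring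
  rw [e1, e2] at key
  exact le_of_mul_le_mul_right key cn

/-- real form of the main theorem -/
theorem main_real {K T : Set (EuclideanSpace ℝ (Fin n))} (hK : Convex ℝ K) (hKc : IsCompact K)
    (hKs : ∀ x ∈ K, -x ∈ K) (hT : Convex ℝ T) (hTc : IsCompact T)
    (hTi : (interior T).Nonempty) (hTs : ∀ x ∈ T, -x ∈ T) :
    volume.real (K ∩ T) * volume.real ({y : EuclideanSpace ℝ (Fin n) | ∀ x ∈ K, ⟪x, y⟫ ≤ 1} ∩ T) ≤
      (1 + Real.sqrt (2 * Real.pi * n)) ^ 2 * HH T 1 ^ 2 := by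
  have h0 := zero_mem_interior hT hTi hTs
  have fT : volume T ≠ ∞ := hTc.measure_lt_top.ne
  have c1 : (1:ℝ) ≤ (1 + Real.sqrt (2 * Real.pi * n)) ^ 2 := by
    have := Real.sqrt_nonneg (2 * Real.pi * n)
    nlinarith
  have H0 := HH_nn T 1
  have small : volume.real T ≤ HH T 1 →
      volume.real (K ∩ T) * volume.real ({y : EuclideanSpace ℝ (Fin n) | ∀ x ∈ K, ⟪x, y⟫ ≤ 1} ∩ T) ≤
      (1 + Real.sqrt (2 * Real.pi * n)) ^ 2 * HH T 1 ^ 2 := by
    intro h
    have a1 : volume.real (K ∩ T) ≤ volume.real T := measureReal_mono inter_subset_right fT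
    have a2 : volume.real ({y : EuclideanSpace ℝ (Fin n) | ∀ x ∈ K, ⟪x, y⟫ ≤ 1} ∩ T) ≤ volume.real T :=
      measureReal_mono inter_subset_right fT
    calc volume.real (K ∩ T) * volume.real ({y : EuclideanSpace ℝ (Fin n) | ∀ x ∈ K, ⟪x, y⟫ ≤ 1} ∩ T)
        ≤ HH T 1 * HH T 1 := mul_le_mul (a1.trans h) (a2.trans h) measureReal_nonneg H0
      _ = 1 * HH T 1 ^ 2 := by ring
      _ ≤ _ := by gcongr
  rcases Nat.eq_zero_or_pos n with hn | hn
  · subst hn
    apply small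
    apply measureReal_mono _ (fin_vol T 1)
    intro x hx
    refine ⟨?_, hx⟩
    rw [Subsingleton.elim x 0]
    simp
  have : Nontrivial (EuclideanSpace ℝ (Fin n)) := by
    have : Nonempty (Fin n) := ⟨⟨0, hn⟩⟩
    infer_instance
  obtain ⟨p, p0, pn, hp⟩ := exists_slope hTc.isClosed hT h0
  rcases p0.eq_or_lt with hp0 | hp0
  · apply small
    obtain ⟨R, hR⟩ := hTc.isBounded.exists_norm_le
    have e : volume.real T ≤ HH T (max R 1) := by
      apply measureReal_mono _ (fin_vol T _)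
      intro x hx
      exact ⟨by rw [mem_closedBall_zero_iff]; exact (hR x hx).trans (le_max_left _ _), hx⟩
    have := hp (max R 1) (lt_of_lt_of_le one_pos (le_max_right _ _))
    rw [← hp0, zero_mul, Real.exp_zero, mul_one] at this
    exact e.trans this
  · set B : Set (EuclideanSpace ℝ (Fin n)) := {y : EuclideanSpace ℝ (Fin n) | ∀ x ∈ K, ⟪x, y⟫ ≤ 1} ∩ T with hB
    have pc : IsClosed {y : EuclideanSpace ℝ (Fin n) | ∀ x ∈ K, ⟪x, y⟫ ≤ 1} := by
      have : {y : EuclideanSpace ℝ (Fin n) | ∀ x ∈ K, ⟪x, y⟫ ≤ 1} = ⋂ x ∈ K, {y : EuclideanSpace ℝ (Fin n) | ⟪x, y⟫ ≤ 1} := by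
        ext y; simp
      rw [this]
      apply isClosed_biInter
      intro x _
      exact isClosed_le (by fun_prop) continuous_const
    have pcv : Convex ℝ {y : EuclideanSpace ℝ (Fin n) | ∀ x ∈ K, ⟪x, y⟫ ≤ 1} := by
      intro y hy z hz s t hs ht hst x hx
      rw [inner_add_right, real_inner_smul_right, real_inner_smul_right]
      have h1 := hy x hx
      have h2 := hz x hx
      calc s * ⟪x, y⟫ + t * ⟪x, z⟫ ≤ s * 1 + t * 1 := by gcongr
        _ = 1 := by linarith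
    have hBT : B ∩ T = B := by rw [hB, inter_assoc, inter_self]
    have key := scaled (T := T) (A := K) (B := B) hTc.isClosed hT ⟨0, interior_subset h0⟩ hTs hKc
      hK hKs (hTc.inter_left pc) (pcv.inter hT) (fun x hx y hy => hy.1 x hx) hp0
    rw [hBT] at key
    have gb := gauss_bound hp0 hp
    have g0 : 0 ≤ ∫ x in T, Real.exp (-(p * ‖x‖ ^ 2 / 2)) :=
      integral_nonneg (fun x => (Real.exp_pos _).le)
    have sq : Real.sqrt (2 * Real.pi * p) ≤ Real.sqrt (2 * Real.pi * n) := by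
      apply Real.sqrt_le_sqrt
      have := Real.pi_pos
      gcongr
    have ee : Real.exp p * (Real.exp (-(p / 2)) * Real.exp (-(p / 2))) = 1 := by
      rw [← Real.exp_add, ← Real.exp_add]
      have : p + (-(p / 2) + -(p / 2)) = 0 := by ring
      rw [this, Real.exp_zero]
    calc volume.real (K ∩ T) * volume.real B
        ≤ Real.exp p * (∫ x in T, Real.exp (-(p * ‖x‖ ^ 2 / 2))) ^ 2 := key
      _ ≤ Real.exp p * (HH T 1 * Real.exp (-(p / 2)) *
          (Real.sqrt (2 * Real.pi * p) + 1)) ^ 2 := by gcongr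
      _ = (Real.exp p * (Real.exp (-(p / 2)) * Real.exp (-(p / 2)))) *
          ((1 + Real.sqrt (2 * Real.pi * p)) ^ 2 * HH T 1 ^ 2) := by ring
      _ = (1 + Real.sqrt (2 * Real.pi * p)) ^ 2 * HH T 1 ^ 2 := by rw [ee, one_mul]
      _ ≤ _ := by gcongr

end Pool.Agent.H12.San
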