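import Pool.Agent.H12.San.San

/-! Functional Santalo inequality for the Gaussian measure of a finite-dimensional
inner product space. -/

open MeasureTheory Set
open scoped ENNReal

namespace Pool.Agent.H12.San

variable {F : Type*} [NormedAddCommGroup F] [InnerProductSpace ℝ F] [FiniteDimensional ℝ F]
  [MeasurableSpace F] [BorelSpace F]

/-- the (unnormalised) Gaussian density -/
noncomputable def gs (v : F) : ℝ := Real.exp (-(‖v‖ ^ 2) / 2)

omit [InnerProductSpace ℝ F] [FiniteDimensional ℝ F] [MeasurableSpace F] [BorelSpace F] in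
lemma gs_pos (v : F) : 0 < gs v := Real.exp_pos _

omit [InnerProductSpace ℝ F] [FiniteDimensional ℝ F] [MeasurableSpace F] [BorelSpace F] in
lemma gs_neg (v : F) : gs (-v) = gs v := by simp [gs]

lemma gauss_int {b : ℝ} (hb : 0 < b) : Integrable (fun v : F => Real.exp (-b * ‖v‖ ^ 2)) := by
  by_contra h
  have h1 := integral_undef h
  rw [GaussianFourier.integral_rexp_neg_mul_sq_norm hb] at h1
  have : 0 < (Real.pi / b) ^ (Module.finrank ℝ F / 2 : ℝ) := by positivity
  linarith

lemma gs_int : Integrable (gs : F → ℝ) := by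
  refine (gauss_int (F := F) (b := 1 / 2) (by norm_num)).congr
    (Filter.Eventually.of_forall (fun v => ?_))
  simp only [gs]
  congr 1; ring

lemma gs_integral : ∫ v : F, gs v = (2 * Real.pi) ^ (Module.finrank ℝ F / 2 : ℝ) := by
  have h := GaussianFourier.integral_rexp_neg_mul_sq_norm (V := F) (b := 1 / 2) (by norm_num)
  have e : ∀ v : F, gs v = Real.exp (-(1 / 2) * ‖v‖ ^ 2) := by
    intro v; simp only [gs]; congr 1; ring
  simp only [e]
  rw [h]
  congr 1; ring

lemma gs_integral_sq : (∫ v : F, gs v) ^ 2 = (2 * Real.pi) ^ (Module.finrank ℝ F) := by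
  rw [gs_integral, ← Real.rpow_natCast, ← Real.rpow_mul (by positivity)]
  rw [← Real.rpow_natCast]
  congr 1
  push_cast
  ring

/-- functional Santalo inequality for the Gaussian measure -/
theorem sanF {f g : F → ℝ} {C : ℝ} (hf : Measurable f) (hg : Measurable g)
    (f0 : ∀ x, 0 ≤ f x) (g0 : ∀ x, 0 ≤ g x) (fC : ∀ x, f x ≤ C) (gC : ∀ x, g x ≤ C)
    (ev : ∀ x, f (-x) = f x)
    (H : ∀ x y, f x * g y ≤ Real.exp (‖x - y‖ ^ 2 / 2)) :
    (∫ x, f x * gs x) * (∫ x, g x * gs x) ≤ (∫ x : F, gs x) ^ 2 := by
  set d := Module.finrank ℝ F with hd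
  have hC : 0 ≤ C := (f0 0).trans (fC 0)
  -- the isometry
  set b := (stdOrthonormalBasis ℝ F).repr.symm with hb
  set e : V d → F := fun u => b (WithLp.toLp 2 u) with he
  have mp : MeasurePreserving e volume volume :=
    (stdOrthonormalBasis ℝ F).measurePreserving_repr_symm.comp (PiLp.volume_preserving_toLp (Fin d))
  have emb : MeasurableEmbedding e :=
    (b.toHomeomorph.measurableEmbedding).comp
      (MeasurableEquiv.toLp 2 (Fin d → ℝ)).measurableEmbedding
  have einner : ∀ u w : V d, inner ℝ (e u) (e w) = u ⬝ᵥ w := by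
    intro u w
    simp only [he, LinearIsometryEquiv.inner_map_map]
    simp [PiLp.inner_apply, dotProduct, mul_comm]
    rfl
  have enorm : ∀ u : V d, ‖e u‖ ^ 2 = u ⬝ᵥ u := by
    intro u
    rw [← einner, real_inner_self_eq_norm_sq]
  have eneg : ∀ u : V d, e (-u) = -e u := by
    intro u
    simp only [he, WithLp.toLp_neg, map_neg]
  have emeas : Measurable e := mp.measurable
  have gsm : Measurable (gs : F → ℝ) := by
    unfold gs; fun_prop
  have main : ∀ u : F → ℝ, Measurable u → (∀ x, 0 ≤ u x) → (∀ x, u x ≤ C) →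
      Good (fun x => u (e x) * gs (e x)) := by
    intro u hu u0 uC
    have im : Integrable (fun x : V d => Real.exp (-(1 / 4) * ‖e x‖ ^ 2)) :=
      mp.integrable_comp_of_integrable (gauss_int (F := F) (b := 1 / 4) (by norm_num))
    refine ⟨(hu.comp emeas).mul (gsm.comp emeas), fun x => mul_nonneg (u0 _) (gs_pos _).le, ?_, ?_⟩
    · have h1 := (mp.integrable_comp_of_integrable (gs_int (F := F))).const_mul C
      refine h1.mono' ((hu.comp emeas).mul (gsm.comp emeas)).aestronglyMeasurable
        (Filter.Eventually.of_forall (fun x => ?_))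
      rw [Real.norm_eq_abs, abs_of_nonneg (mul_nonneg (u0 _) (gs_pos _).le)]
      exact mul_le_mul_of_nonneg_right (uC _) (gs_pos _).le
    · intro i
      refine (im.const_mul C).mono' ((measurable_pi_apply i).mul ((hu.comp emeas).mul
        (gsm.comp emeas))).aestronglyMeasurable (Filter.Eventually.of_forall (fun x => ?_))
      rw [Real.norm_eq_abs, abs_mul, abs_of_nonneg (mul_nonneg (u0 _) (gs_pos _).le)]
      have h1 : |x i| ≤ Real.exp (x i ^ 2 / 4) := by
        have h2 : x i ^ 2 / 4 + 1 ≤ Real.exp (x i ^ 2 / 4) := Real.add_one_le_exp _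
        have h3 : |x i| ≤ x i ^ 2 / 4 + 1 := by
          have := sq_nonneg (|x i| / 2 - 1)
          have h4 := sq_abs (x i)
          nlinarith
        linarith
      have h2 : x i ^ 2 ≤ ‖e x‖ ^ 2 := by
        rw [enorm]
        simp only [dotProduct]
        have := Finset.single_le_sum (f := fun j => x j * x j) (fun j _ => mul_self_nonneg _)
          (Finset.mem_univ i)
        nlinarith
      have h3 : |x i| * gs (e x) ≤ Real.exp (-(1 / 4) * ‖e x‖ ^ 2) := by
        calc |x i| * gs (e x) ≤ Real.exp (x i ^ 2 / 4) * gs (e x) :=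
              mul_le_mul_of_nonneg_right h1 (gs_pos _).le
          _ = Real.exp (x i ^ 2 / 4 + -(‖e x‖ ^ 2) / 2) := by rw [gs, ← Real.exp_add]
          _ ≤ _ := by
            apply Real.exp_le_exp.mpr
            nlinarith
      calc |x i| * (u (e x) * gs (e x)) = u (e x) * (|x i| * gs (e x)) := by ring
        _ ≤ C * Real.exp (-(1 / 4) * ‖e x‖ ^ 2) := by
          apply mul_le_mul (uC _) h3 (mul_nonneg (abs_nonneg _) (gs_pos _).le) hC
  have key := santalo d _ _ (main f hf f0 fC) (main g hg g0 gC) ?_ ?_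
  · have i1 : ∀ u : F → ℝ, ∫ x, u (e x) * gs (e x) = ∫ y, u y * gs y := fun u =>
      mp.integral_comp emb (fun y => u y * gs y)
    rw [i1 f, i1 g] at key
    rw [gs_integral_sq]
    exact key
  · intro i
    have h1 : ∫ x : V d, x i * (f (e x) * gs (e x)) =
        ∫ x : V d, (-x) i * (f (e (-x)) * gs (e (-x))) :=
      (integral_neg_eq_self (fun x : V d => x i * (f (e x) * gs (e x))) volume).symm
    have h2 : ∀ x : V d, (-x) i * (f (e (-x)) * gs (e (-x))) =
        -(x i * (f (e x) * gs (e x))) := by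
      intro x
      rw [eneg, ev, gs_neg]
      simp
    simp only [h2, integral_neg] at h1
    linarith
  · intro x y
    have h1 := H (e x) (e y)
    calc f (e x) * gs (e x) * (g (e y) * gs (e y))
        = f (e x) * g (e y) * (gs (e x) * gs (e y)) := by ring
      _ ≤ Real.exp (‖e x - e y‖ ^ 2 / 2) * (gs (e x) * gs (e y)) :=
        mul_le_mul_of_nonneg_right h1 (mul_nonneg (gs_pos _).le (gs_pos _).le)
      _ = _ := by
        rw [gs, gs, ← Real.exp_add, ← Real.exp_add, norm_sub_sq_real, einner]
        congr 1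
        ring

end Pool.Agent.H12.San
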