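import Pool.Agent.H12.San.PL1

/-! Functional Santalo inequality, the induction step (halving hyperplane). -/

open MeasureTheory Set
open scoped ENNReal

namespace Pool.Agent.H12.San

/-- `V m = R^m` -/
abbrev V (m : ℕ) := Fin m → ℝ

/-- nonnegative functions on `R^m` with finite integral and first moments -/
structure Good {m : ℕ} (f : V m → ℝ) : Prop where
  meas : Measurable f
  nn : ∀ x, 0 ≤ f x
  int : Integrable f
  mom : ∀ i, Integrable (fun x => x i * f x)

/-- functional Santalo inequality, barycentre zero -/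
def Cst (m : ℕ) : Prop := ∀ f g : V m → ℝ, Good f → Good g → (∀ i, ∫ x, x i * f x = 0) →
  (∀ x y, f x * g y ≤ Real.exp (-(x ⬝ᵥ y))) → (∫ x, f x) * (∫ y, g y) ≤ (2 * Real.pi) ^ m

/-- the Gaussian integral on the half line -/
lemma gauss_half : ∫⁻ r in Ioi (0:ℝ), ENNReal.ofReal (Real.exp (-(r ^ 2) / 2)) =
    ENNReal.ofReal (Real.sqrt (Real.pi / 2)) := by
  rw [← ofReal_integral_eq_lintegral_ofReal]
  · have := integral_gaussian_Ioi (1 / 2)
    have e : ∀ r : ℝ, Real.exp (-(1 / 2) * r ^ 2) = Real.exp (-(r ^ 2) / 2) := by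
      intro r; congr 1; ring
    simp only [e] at this
    rw [this]
    congr 1
    rw [show Real.pi / (1 / 2) = (Real.pi / 2) * 2 ^ 2 by ring, Real.sqrt_mul (by positivity),
      Real.sqrt_sq (by norm_num)]
    ring
  · have := (integrable_exp_neg_mul_sq (b := 1 / 2) (by norm_num)).integrableOn (s := Ioi (0:ℝ))
    refine this.congr_fun ?_ measurableSet_Ioi
    intro r _
    simp only
    congr 1; ring
  · exact Filter.Eventually.of_forall (fun r => (Real.exp_pos _).le)

/-- one dimensional Santalo inequality on the half line -/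
lemma half_line {φ ψ : ℝ → ℝ} (hφ : Measurable φ) (hψ : Measurable ψ) (hφ0 : ∀ s, 0 ≤ φ s)
    (hψ0 : ∀ s, 0 ≤ ψ s) {K : ℝ} (hK : 0 ≤ K)
    (H : ∀ s > 0, ∀ t > 0, φ s * ψ t ≤ K * Real.exp (-(s * t))) :
    (∫ s in Ioi 0, φ s) * (∫ t in Ioi 0, ψ t) ≤ Real.pi / 2 * K := by
  have key := mulPL (φ := fun s => ENNReal.ofReal (φ s)) (ψ := fun s => ENNReal.ofReal (ψ s))
    (h := fun r => ENNReal.ofReal (Real.sqrt K) * ENNReal.ofReal (Real.exp (-(r ^ 2) / 2)))
    (by fun_prop) (by fun_prop) (by fun_prop) ?_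
  · rw [lintegral_const_mul _ (by fun_prop), gauss_half] at key
    have h1 : (∫ s in Ioi 0, φ s) = (∫⁻ s in Ioi 0, ENNReal.ofReal (φ s)).toReal :=
      integral_eq_lintegral_of_nonneg_ae (Filter.Eventually.of_forall hφ0)
        hφ.aestronglyMeasurable
    have h2 : (∫ s in Ioi 0, ψ s) = (∫⁻ s in Ioi 0, ENNReal.ofReal (ψ s)).toReal :=
      integral_eq_lintegral_of_nonneg_ae (Filter.Eventually.of_forall hψ0)
        hψ.aestronglyMeasurable
    rw [h1, h2, ← ENNReal.toReal_mul]
    apply ENNReal.toReal_le_of_le_ofReal (by positivity)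
    refine key.trans (le_of_eq ?_)
    rw [← ENNReal.ofReal_mul (Real.sqrt_nonneg _), ← ENNReal.ofReal_pow (by positivity), mul_pow,
      Real.sq_sqrt hK, Real.sq_sqrt (by positivity)]
    congr 1
    ring
  · intro s hs t ht
    rw [← ENNReal.ofReal_mul (hφ0 s), ← ENNReal.ofReal_mul (Real.sqrt_nonneg _),
      ← ENNReal.ofReal_pow (by positivity)]
    apply ENNReal.ofReal_le_ofReal
    refine (H s hs t ht).trans (le_of_eq ?_)
    rw [mul_pow, Real.sq_sqrt hK, Real.sq_sqrt (by positivity), ← Real.exp_nat_mul]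
    congr 2
    push_cast
    ring

/-- the half space inequality -/
lemma half {m : ℕ} (hC : Cst m) {f g : ℝ × V m → ℝ} (hf : Measurable f) (hg : Measurable g)
    (hf0 : ∀ p, 0 ≤ f p) (hg0 : ∀ p, 0 ≤ g p)
    (fi : Integrable f ((volume.restrict (Ioi 0)).prod volume))
    (gi : Integrable g ((volume.restrict (Ioi 0)).prod volume))
    (fm : ∀ i, Integrable (fun p : ℝ × V m => p.2 i * f p) ((volume.restrict (Ioi 0)).prod volume))
    (gm : ∀ i, Integrable (fun p : ℝ × V m => p.2 i * g p) ((volume.restrict (Ioi 0)).prod volume))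
    (f0 : ∀ i, ∫ p : ℝ × V m, p.2 i * f p ∂((volume.restrict (Ioi 0)).prod volume) = 0)
    (H : ∀ s > 0, ∀ t > 0, ∀ x y, f (s, x) * g (t, y) ≤ Real.exp (-(s * t + x ⬝ᵥ y))) :
    (∫ p, f p ∂((volume.restrict (Ioi 0)).prod volume)) *
      (∫ p, g p ∂((volume.restrict (Ioi 0)).prod volume)) ≤ Real.pi / 2 * (2 * Real.pi) ^ m := by
  have aux : ∀ u : ℝ × V m → ℝ, Measurable u → (∀ p, 0 ≤ u p) →
      Integrable u ((volume.restrict (Ioi 0)).prod volume) →
      (∀ i, Integrable (fun p : ℝ × V m => p.2 i * u p) ((volume.restrict (Ioi 0)).prod volume)) →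
      Good (fun x => ∫ s in Ioi 0, u (s, x)) ∧
      (∫ x, ∫ s in Ioi 0, u (s, x)) = ∫ p, u p ∂((volume.restrict (Ioi 0)).prod volume) ∧
      ∀ i, (∫ x : V m, x i * ∫ s in Ioi 0, u (s, x)) =
        ∫ p : ℝ × V m, p.2 i * u p ∂((volume.restrict (Ioi 0)).prod volume) := by
    intro u hu hu0 ui um
    refine ⟨⟨?_, ?_, ?_, ?_⟩, ?_, ?_⟩
    · have : StronglyMeasurable (fun p : V m × ℝ => u (p.2, p.1)) :=
        (hu.comp measurable_swap).stronglyMeasurable
      exact this.integral_prod_right'.measurable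
    · intro x
      exact integral_nonneg (fun s => hu0 _)
    · exact ui.integral_prod_right
    · intro i
      have := (um i).integral_prod_right
      refine this.congr (Filter.Eventually.of_forall ?_)
      intro x
      simp only
      rw [integral_const_mul]
    · rw [integral_prod_symm _ ui]
    · intro i
      rw [integral_prod_symm _ (um i)]
      congr 1
      ext x
      simp only
      rw [integral_const_mul]
  obtain ⟨F1, F2, F3⟩ := aux f hf hf0 fi fm
  obtain ⟨G1, G2, G3⟩ := aux g hg hg0 gi gm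
  have G1' : Good (fun x => (2 / Real.pi) * ∫ s in Ioi 0, g (s, x)) := by
    refine ⟨G1.meas.const_mul _, fun x => mul_nonneg (by positivity) (G1.nn x),
      G1.int.const_mul _, fun i => ?_⟩
    have := (G1.mom i).const_mul (2 / Real.pi)
    refine this.congr (Filter.Eventually.of_forall ?_)
    intro x
    simp only
    ring
  have key := hC _ _ F1 G1' (fun i => by rw [F3 i, f0 i]) ?_
  · rw [integral_const_mul, F2, G2] at key
    have hpi := Real.pi_pos
    calc (∫ p, f p ∂((volume.restrict (Ioi 0)).prod volume)) *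
          (∫ p, g p ∂((volume.restrict (Ioi 0)).prod volume))
        = Real.pi / 2 * ((∫ p, f p ∂((volume.restrict (Ioi 0)).prod volume)) *
          (2 / Real.pi * ∫ p, g p ∂((volume.restrict (Ioi 0)).prod volume))) := by
          field_simp
      _ ≤ _ := by gcongr
  · intro x y
    have h1 := half_line (φ := fun s => f (s, x)) (ψ := fun t => g (t, y)) (by fun_prop)
      (by fun_prop) (fun s => hf0 _) (fun s => hg0 _) (K := Real.exp (-(x ⬝ᵥ y)))
      (Real.exp_pos _).le ?_
    · have hpi := Real.pi_pos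
      calc (∫ s in Ioi 0, f (s, x)) * (2 / Real.pi * ∫ s in Ioi 0, g (s, y))
          = 2 / Real.pi * ((∫ s in Ioi 0, f (s, x)) * ∫ s in Ioi 0, g (s, y)) := by ring
        _ ≤ 2 / Real.pi * (Real.pi / 2 * Real.exp (-(x ⬝ᵥ y))) := by gcongr
        _ = _ := by field_simp
    · intro s hs t ht
      refine (H s hs t ht x y).trans (le_of_eq ?_)
      rw [← Real.exp_add]
      congr 1; ring

end Pool.Agent.H12.San
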