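import Mathlib

/-! Projection onto a symmetric closed convex set and the penalised drift. -/

open MeasureTheory Set
open scoped ENNReal RealInnerProductSpace

namespace Pool.Agent.H12.San

variable {E : Type*} [NormedAddCommGroup E] [InnerProductSpace ℝ E]

/-- `P` is the metric projection onto `T` -/
structure IsProj (T : Set E) (P : E → E) : Prop where
  mem : ∀ x, P x ∈ T
  var : ∀ x, ∀ y ∈ T, ⟪x - P x, y - P x⟫ ≤ 0

lemma exists_proj [FiniteDimensional ℝ E] {T : Set E} (hT : IsClosed T) (hc : Convex ℝ T)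
    (hne : T.Nonempty) : ∃ P : E → E, IsProj T P := by
  have h := exists_norm_eq_iInf_of_complete_convex hne hT.isComplete hc
  choose P hP using h
  refine ⟨P, fun x => (hP x).1, fun x y hy => ?_⟩
  exact (norm_eq_iInf_iff_real_inner_le_zero hc (hP x).1).mp (hP x).2 y hy

namespace IsProj

variable {T : Set E} {P : E → E} (h : IsProj T P)
include h

lemma lip (x y : E) : ‖P x - P y‖ ≤ ‖x - y‖ := by
  have h1 := h.var x (P y) (h.mem y)
  have h2 := h.var y (P x) (h.mem x)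
  have h3 : ‖P x - P y‖ ^ 2 ≤ ⟪x - y, P x - P y⟫ := by
    rw [← real_inner_self_eq_norm_sq]
    have e1 : x - y = (x - P x) + (P x - P y) - (y - P y) := by abel
    have e2 : ⟪x - y, P x - P y⟫ = ⟪x - P x, P x - P y⟫ + ⟪P x - P y, P x - P y⟫ -
        ⟪y - P y, P x - P y⟫ := by
      conv_lhs => rw [e1]
      rw [inner_sub_left, inner_add_left]
    have e3 : ⟪x - P x, P x - P y⟫ = -⟪x - P x, P y - P x⟫ := by
      rw [← inner_neg_right]; congr 1; abel
    rw [e2, e3]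
    linarith
  have h4 : ⟪x - y, P x - P y⟫ ≤ ‖x - y‖ * ‖P x - P y‖ := real_inner_le_norm _ _
  by_contra hc
  push Not at hc
  have h5 : 0 < ‖P x - P y‖ := lt_of_le_of_lt (norm_nonneg _) hc
  nlinarith

lemma unique {x q : E} (hq : q ∈ T) (hv : ∀ y ∈ T, ⟪x - q, y - q⟫ ≤ 0) : q = P x := by
  have h1 := h.var x q hq
  have h2 := hv (P x) (h.mem x)
  have h3 : ‖P x - q‖ ^ 2 ≤ 0 := by
    rw [← real_inner_self_eq_norm_sq]
    have e1 : P x - q = (x - q) - (x - P x) := by abel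
    have e2 : ⟪P x - q, P x - q⟫ = ⟪x - q, P x - q⟫ - ⟪x - P x, P x - q⟫ := by
      conv_lhs => rw [e1, inner_sub_left]
      congr 2
      · abel
      · abel
    have e3 : ⟪x - P x, P x - q⟫ = -⟪x - P x, q - P x⟫ := by
      rw [← inner_neg_right]; congr 1; abel
    rw [e2, e3]
    linarith
  have h4 : ‖P x - q‖ = 0 := by
    have := norm_nonneg (P x - q)
    nlinarith
  exact (sub_eq_zero.mp (norm_eq_zero.mp h4)).symm

lemma odd (hs : ∀ x ∈ T, -x ∈ T) (x : E) : P (-x) = -P x := by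
  symm
  apply h.unique (hs _ (h.mem x))
  intro y hy
  have h1 := h.var x (-y) (hs y hy)
  have e1 : -x - -P x = -(x - P x) := by abel
  have e2 : y - -P x = -(-y - P x) := by abel
  rw [e1, e2, inner_neg_neg]
  exact h1

lemma eq_self {x : E} (hx : x ∈ T) : P x = x := by
  symm
  apply h.unique hx
  intro y _
  simp

/-- subgradient inequality for half the squared distance -/
lemma sub (x y : E) : ‖x - P x‖ ^ 2 / 2 + ⟪x - P x, y - x⟫ ≤ ‖y - P y‖ ^ 2 / 2 := by
  have h1 := h.var x (P y) (h.mem y)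
  set q := x - P x with hq
  have e1 : y - x = (y - P y) + (P y - P x) - q := by rw [hq]; abel
  have e2 : ⟪q, y - x⟫ = ⟪q, y - P y⟫ + ⟪q, P y - P x⟫ - ‖q‖ ^ 2 := by
    rw [e1, inner_sub_right, inner_add_right, real_inner_self_eq_norm_sq]
  have h2 : ⟪q, y - P y⟫ ≤ ‖q‖ * ‖y - P y‖ := real_inner_le_norm _ _
  have h3 := sq_nonneg (‖q‖ - ‖y - P y‖)
  rw [e2]
  nlinarith

end IsProj

/-- potential `W` with subgradient field `D` -/
structure Drift (W : E → ℝ) (D : E → E) (a L : ℝ) : Prop where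
  sub : ∀ x y, W x + ⟪D x, y - x⟫ ≤ W y
  lip : ∀ x y, ‖D x - D y‖ ≤ L * ‖x - y‖
  odd : ∀ x, D (-x) = -D x
  con : ∀ δ, 0 ≤ δ → δ * L ≤ 1 → ∀ x y,
    ‖(x - δ • D x) - (y - δ • D y)‖ ≤ (1 - δ * a) * ‖x - y‖
  big : ∀ x, ‖x‖ ^ 2 / 2 ≤ W x
  cont : Continuous W
  hL : 0 < L
  ha : 1 < a

/-- the penalised drift -/
theorem drift_proj {T : Set E} {P : E → E} (h : IsProj T P) (hs : ∀ x ∈ T, -x ∈ T) {a κ : ℝ}
    (ha : 1 < a) (hκ : 0 ≤ κ) :
    Drift (fun x => a / 2 * ‖x‖ ^ 2 + κ * (‖x - P x‖ ^ 2 / 2))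
      (fun x => a • x + κ • (x - P x)) a (a + 2 * κ) := by
  have Pc : Continuous P := by
    have : LipschitzWith 1 P := LipschitzWith.of_dist_le_mul (fun x y => by
      rw [dist_eq_norm, dist_eq_norm]
      simpa using h.lip x y)
    exact this.continuous
  refine ⟨?_, ?_, ?_, ?_, ?_, ?_, by linarith, ha⟩
  · intro x y
    have h1 := h.sub x y
    have h2 : a / 2 * ‖x‖ ^ 2 + a * ⟪x, y - x⟫ ≤ a / 2 * ‖y‖ ^ 2 := by
      have h3 : ‖y‖ ^ 2 = ‖x‖ ^ 2 + 2 * ⟪x, y - x⟫ + ‖y - x‖ ^ 2 := by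
        rw [← norm_add_sq_real]; congr 2; abel
      have := sq_nonneg ‖y - x‖
      rw [h3]
      nlinarith
    have e : ⟪a • x + κ • (x - P x), y - x⟫ = a * ⟪x, y - x⟫ + κ * ⟪x - P x, y - x⟫ := by
      rw [inner_add_left, real_inner_smul_left, real_inner_smul_left]
    rw [e]
    nlinarith
  · intro x y
    have e : (a • x + κ • (x - P x)) - (a • y + κ • (y - P y)) =
        (a + κ) • (x - y) - κ • (P x - P y) := by module
    rw [e]
    calc ‖(a + κ) • (x - y) - κ • (P x - P y)‖ ≤ ‖(a + κ) • (x - y)‖ + ‖κ • (P x - P y)‖ :=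
          norm_sub_le _ _
      _ = (a + κ) * ‖x - y‖ + κ * ‖P x - P y‖ := by
          rw [norm_smul, norm_smul, Real.norm_of_nonneg (by linarith), Real.norm_of_nonneg hκ]
      _ ≤ (a + κ) * ‖x - y‖ + κ * ‖x - y‖ := by
          have := h.lip x y
          gcongr
      _ = _ := by ring
  · intro x
    rw [h.odd hs]
    module
  · intro δ hδ hδL x y
    have e : (x - δ • (a • x + κ • (x - P x))) - (y - δ • (a • y + κ • (y - P y))) =
        (1 - δ * (a + κ)) • (x - y) + (δ * κ) • (P x - P y) := by module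
    have h1 : 0 ≤ 1 - δ * (a + κ) := by nlinarith
    have h2 : 0 ≤ δ * κ := mul_nonneg hδ hκ
    rw [e]
    calc ‖(1 - δ * (a + κ)) • (x - y) + (δ * κ) • (P x - P y)‖
        ≤ ‖(1 - δ * (a + κ)) • (x - y)‖ + ‖(δ * κ) • (P x - P y)‖ := norm_add_le _ _
      _ = (1 - δ * (a + κ)) * ‖x - y‖ + δ * κ * ‖P x - P y‖ := by
          rw [norm_smul, norm_smul, Real.norm_of_nonneg h1, Real.norm_of_nonneg h2]
      _ ≤ (1 - δ * (a + κ)) * ‖x - y‖ + δ * κ * ‖x - y‖ := by
          have := h.lip x y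
          gcongr
      _ = _ := by ring
  · intro x
    have h1 : 0 ≤ κ * (‖x - P x‖ ^ 2 / 2) := by positivity
    have h2 : 0 ≤ ‖x‖ ^ 2 := by positivity
    nlinarith
  · fun_prop

end Pool.Agent.H12.San
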