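import Pool.Agent.H12.San.Gen
import Pool.Agent.H12.San.Proj

/-! One step of the Langevin chain: the leapfrog involution. -/

open MeasureTheory Set
open scoped ENNReal RealInnerProductSpace

namespace Pool.Agent.H12.San

variable {E : Type*} [NormedAddCommGroup E] [InnerProductSpace ℝ E]

/-- next position -/
noncomputable def nx (D : E → E) (h : ℝ) (p : E × E) : E := p.1 - (h ^ 2 / 2) • D p.1 + h • p.2

/-- next momentum -/
noncomputable def mo (D : E → E) (h : ℝ) (p : E × E) : E :=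
  p.2 - (h / 2) • (D p.1 + D (nx D h p))

/-- leapfrog with momentum flip -/
noncomputable def Lf (D : E → E) (h : ℝ) (p : E × E) : E × E := (nx D h p, -mo D h p)

lemma nx_Lf (D : E → E) (h : ℝ) (p : E × E) : nx D h (Lf D h p) = p.1 := by
  have e : nx D h (Lf D h p) = nx D h p - (h ^ 2 / 2) • D (nx D h p) + h • (-mo D h p) := rfl
  rw [e, mo]
  have e2 : nx D h p = p.1 - (h ^ 2 / 2) • D p.1 + h • p.2 := rfl
  generalize D (nx D h p) = y
  rw [e2]
  module

lemma mo_Lf (D : E → E) (h : ℝ) (p : E × E) : mo D h (Lf D h p) = -p.2 := by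
  have e : mo D h (Lf D h p) = -mo D h p - (h / 2) • (D (nx D h p) + D (nx D h (Lf D h p))) := rfl
  rw [e, nx_Lf, mo]
  module

lemma Lf_Lf (D : E → E) (h : ℝ) (p : E × E) : Lf D h (Lf D h p) = p := by
  have e : Lf D h (Lf D h p) = (nx D h (Lf D h p), -mo D h (Lf D h p)) := rfl
  rw [e, nx_Lf, mo_Lf, neg_neg]

/-- the energy -/
noncomputable def En (W : E → ℝ) (p : E × E) : ℝ := W p.1 + ‖p.2‖ ^ 2 / 2

namespace Drift

variable {W : E → ℝ} {D : E → E} {a L : ℝ} (hd : Drift W D a L)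
include hd

lemma D0 : D 0 = 0 := by
  have h := hd.odd 0
  rw [neg_zero] at h
  have h2 : (2 : ℝ) • D 0 = 0 := by
    rw [two_smul]
    nth_rewrite 1 [h]
    abel
  exact (smul_eq_zero.mp h2).resolve_left (by norm_num)

lemma Dle (x : E) : ‖D x‖ ≤ L * ‖x‖ := by
  have := hd.lip x 0
  rw [hd.D0] at this
  simpa using this

lemma contD : Continuous D := by
  have : LipschitzWith ⟨L, hd.hL.le⟩ D := LipschitzWith.of_dist_le_mul (fun x y => by
    rw [dist_eq_norm, dist_eq_norm]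
    exact hd.lip x y)
  exact this.continuous

lemma nx_le {h : ℝ} (h0 : 0 ≤ h) (h1 : h ≤ 1) (p : E × E) :
    ‖nx D h p - p.1‖ ≤ (1 + L) * h * (‖p.1‖ + ‖p.2‖) := by
  have e : nx D h p - p.1 = h • p.2 - (h ^ 2 / 2) • D p.1 := by
    simp only [nx]; abel
  rw [e]
  have hL := hd.hL
  have hD := hd.Dle p.1
  have n1 := norm_nonneg p.1
  have n2 := norm_nonneg p.2
  calc ‖h • p.2 - (h ^ 2 / 2) • D p.1‖ ≤ ‖h • p.2‖ + ‖(h ^ 2 / 2) • D p.1‖ := norm_sub_le _ _
    _ = h * ‖p.2‖ + (h ^ 2 / 2) * ‖D p.1‖ := by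
        rw [norm_smul, norm_smul, Real.norm_of_nonneg h0, Real.norm_of_nonneg (by positivity)]
    _ ≤ h * ‖p.2‖ + (h ^ 2 / 2) * (L * ‖p.1‖) := by gcongr
    _ ≤ h * ‖p.2‖ + h * (L * ‖p.1‖) := by
        have : h ^ 2 / 2 ≤ h := by nlinarith
        have h3 : 0 ≤ L * ‖p.1‖ := by positivity
        nlinarith
    _ ≤ _ := by
        have h3 : 0 ≤ h * ‖p.1‖ := by positivity
        have h4 : 0 ≤ h * (L * ‖p.2‖) := by positivity
        nlinarith

lemma dEn {h : ℝ} (h0 : 0 ≤ h) (h1 : h ≤ 1) (p : E × E) :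
    |En W (Lf D h p) - En W p| ≤
      ((L / 2) * (1 + L) ^ 2 + (1 / 8) * (L ^ 2 * (3 + L) * (1 + L))) * h ^ 2 *
        (‖p.1‖ + ‖p.2‖) ^ 2 := by
  have hL := hd.hL
  set x := p.1 with hx
  set y := nx D h p with hy
  set g := p.2 with hg
  set S := ‖x‖ + ‖g‖ with hS
  have hS0 : 0 ≤ S := by positivity
  have hyx : ‖y - x‖ ≤ (1 + L) * h * S := hd.nx_le h0 h1 p
  have e1 : En W (Lf D h p) - En W p = (W y - W x) + (‖mo D h p‖ ^ 2 - ‖g‖ ^ 2) / 2 := by
    simp only [En, Lf, norm_neg]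
    ring
  have e2 : ‖mo D h p‖ ^ 2 - ‖g‖ ^ 2 = -⟪D x + D y, y - x⟫ -
      (h ^ 2 / 4) * (‖D x‖ ^ 2 - ‖D y‖ ^ 2) := by
    have m1 : mo D h p = g - (h / 2) • (D x + D y) := rfl
    have m2 : y = x - (h ^ 2 / 2) • D x + h • g := rfl
    have m3 : ‖mo D h p‖ ^ 2 = ‖g‖ ^ 2 - h * ⟪D x + D y, g⟫ + (h ^ 2 / 4) * ‖D x + D y‖ ^ 2 := by
      rw [m1, norm_sub_sq_real, inner_smul_right, norm_smul, mul_pow, Real.norm_eq_abs, sq_abs,
        real_inner_comm]
      ring
    have m4 : ⟪D x + D y, y - x⟫ = h * ⟪D x + D y, g⟫ - (h ^ 2 / 2) * ⟪D x + D y, D x⟫ := by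
      have : y - x = h • g - (h ^ 2 / 2) • D x := by rw [m2]; abel
      rw [this, inner_sub_right, inner_smul_right, inner_smul_right]
    have m5 : ‖D x + D y‖ ^ 2 = ‖D x‖ ^ 2 + 2 * ⟪D x, D y⟫ + ‖D y‖ ^ 2 := norm_add_sq_real _ _
    have m6 : ⟪D x + D y, D x⟫ = ‖D x‖ ^ 2 + ⟪D x, D y⟫ := by
      rw [inner_add_left, real_inner_self_eq_norm_sq, real_inner_comm]
    rw [m3, m4, m5, m6]
    ring
  have s1 := hd.sub x y
  have s2 := hd.sub y x
  have s3 : ⟪D y, x - y⟫ = -⟪D y, y - x⟫ := by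
    rw [← inner_neg_right]; congr 1; abel
  have s4 : ⟪D x + D y, y - x⟫ = ⟪D x, y - x⟫ + ⟪D y, y - x⟫ := inner_add_left _ _ _
  have s5 : ⟪D y, y - x⟫ - ⟪D x, y - x⟫ ≤ L * ‖y - x‖ ^ 2 := by
    rw [← inner_sub_left]
    calc ⟪D y - D x, y - x⟫ ≤ ‖D y - D x‖ * ‖y - x‖ := real_inner_le_norm _ _
      _ ≤ (L * ‖y - x‖) * ‖y - x‖ := by
        have := hd.lip y x
        gcongr
      _ = _ := by ring
  rw [s3] at s2
  have nd : |‖D x‖ ^ 2 - ‖D y‖ ^ 2| ≤ L ^ 2 * (2 * ‖x‖ + ‖y - x‖) * ‖y - x‖ := by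
    have f1 : ‖D x‖ ^ 2 - ‖D y‖ ^ 2 = (‖D x‖ - ‖D y‖) * (‖D x‖ + ‖D y‖) := by ring
    have f2 : |‖D x‖ - ‖D y‖| ≤ L * ‖y - x‖ := by
      refine (abs_norm_sub_norm_le _ _).trans ?_
      rw [norm_sub_rev y x]
      exact hd.lip x y
    have f3 : ‖D x‖ + ‖D y‖ ≤ L * (2 * ‖x‖ + ‖y - x‖) := by
      have g1 := hd.Dle x
      have g2 := hd.Dle y
      have g3 : ‖y‖ ≤ ‖x‖ + ‖y - x‖ := by
        have : y = x + (y - x) := by abel
        calc ‖y‖ = ‖x + (y - x)‖ := by rw [← this]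
          _ ≤ _ := norm_add_le _ _
      nlinarith
    rw [f1, abs_mul, abs_of_nonneg (by positivity : 0 ≤ ‖D x‖ + ‖D y‖)]
    calc |‖D x‖ - ‖D y‖| * (‖D x‖ + ‖D y‖) ≤ (L * ‖y - x‖) * (L * (2 * ‖x‖ + ‖y - x‖)) := by
          gcongr
      _ = _ := by ring
  have b1 : ‖y - x‖ ^ 2 ≤ (1 + L) ^ 2 * h ^ 2 * S ^ 2 := by
    calc ‖y - x‖ ^ 2 ≤ ((1 + L) * h * S) ^ 2 := by gcongr
      _ = _ := by ring
  have b2 : |‖D x‖ ^ 2 - ‖D y‖ ^ 2| ≤ L ^ 2 * (3 + L) * (1 + L) * S ^ 2 := by
    refine nd.trans ?_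
    have c1 : ‖x‖ ≤ S := by simp [hS]
    have c2 : ‖y - x‖ ≤ (1 + L) * S := by
      refine hyx.trans ?_
      have : (1 + L) * h ≤ (1 + L) * 1 := by gcongr
      nlinarith
    calc L ^ 2 * (2 * ‖x‖ + ‖y - x‖) * ‖y - x‖
        ≤ L ^ 2 * (2 * S + (1 + L) * S) * ((1 + L) * S) := by gcongr
      _ = _ := by ring
  rw [e1, e2]
  have t1 : |(W y - W x) - ⟪D x + D y, y - x⟫ / 2| ≤ (L / 2) * ‖y - x‖ ^ 2 := by
    rw [abs_le, s4]
    constructor <;> linarith
  calc |(W y - W x) + (-⟪D x + D y, y - x⟫ - (h ^ 2 / 4) * (‖D x‖ ^ 2 - ‖D y‖ ^ 2)) / 2|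
      = |((W y - W x) - ⟪D x + D y, y - x⟫ / 2) +
          (-(h ^ 2 / 8)) * (‖D x‖ ^ 2 - ‖D y‖ ^ 2)| := by congr 1; ring
    _ ≤ |(W y - W x) - ⟪D x + D y, y - x⟫ / 2| +
          |(-(h ^ 2 / 8)) * (‖D x‖ ^ 2 - ‖D y‖ ^ 2)| := abs_add_le _ _
    _ = |(W y - W x) - ⟪D x + D y, y - x⟫ / 2| +
          (h ^ 2 / 8) * |‖D x‖ ^ 2 - ‖D y‖ ^ 2| := by
        rw [abs_mul, abs_neg, abs_of_nonneg (by positivity : 0 ≤ h ^ 2 / 8)]
    _ ≤ (L / 2) * ((1 + L) ^ 2 * h ^ 2 * S ^ 2) +
          (h ^ 2 / 8) * (L ^ 2 * (3 + L) * (1 + L) * S ^ 2) := by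
        have t2 : (L / 2) * ‖y - x‖ ^ 2 ≤ (L / 2) * ((1 + L) ^ 2 * h ^ 2 * S ^ 2) := by gcongr
        have t3 : (h ^ 2 / 8) * |‖D x‖ ^ 2 - ‖D y‖ ^ 2| ≤
          (h ^ 2 / 8) * (L ^ 2 * (3 + L) * (1 + L) * S ^ 2) := by gcongr
        linarith
    _ = _ := by ring

end Drift

section Measure

variable [FiniteDimensional ℝ E] [MeasurableSpace E] [BorelSpace E]

lemma shearA_mp {D : E → E} (hD : Continuous D) (c : ℝ) :
    MeasurePreserving (fun p : E × E => (p.1, p.2 + c • D p.1)) volume volume := by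
  apply MeasurePreserving.skew_product (g := fun (x : E) (y : E) => y + c • D x)
    (MeasurePreserving.id _)
  · change Measurable (fun p : E × E => p.2 + c • D p.1)
    exact (continuous_snd.add ((hD.comp continuous_fst).const_smul c)).measurable
  · exact Filter.Eventually.of_forall (fun s =>
      (measurePreserving_add_right (volume : Measure E) (c • D s)).map_eq)

lemma shearB_mp (c : ℝ) :
    MeasurePreserving (fun p : E × E => (p.1 + c • p.2, p.2)) volume volume := by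
  have h1 := shearA_mp (D := fun x : E => x) continuous_id c
  have h2 := (Measure.measurePreserving_swap (μ := (volume : Measure E))
    (ν := (volume : Measure E))).comp (h1.comp (Measure.measurePreserving_swap
    (μ := (volume : Measure E)) (ν := (volume : Measure E))))
  exact h2

lemma negB_mp :
    MeasurePreserving (fun p : E × E => (p.1, -p.2)) volume volume :=
  (MeasurePreserving.id (volume : Measure E)).prod
    (Measure.measurePreserving_neg (volume : Measure E))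

lemma Lf_mp {D : E → E} (hD : Continuous D) (h : ℝ) :
    MeasurePreserving (Lf D h) volume volume := by
  have h1 := (negB_mp (E := E)).comp ((shearA_mp hD (-(h / 2))).comp ((shearB_mp h).comp
    (shearA_mp hD (-(h / 2)))))
  have e : Lf D h = (fun p : E × E => (p.1, -p.2)) ∘ (fun p : E × E => (p.1, p.2 + (-(h / 2)) • D p.1))
      ∘ (fun p : E × E => (p.1 + h • p.2, p.2)) ∘
      (fun p : E × E => (p.1, p.2 + (-(h / 2)) • D p.1)) := by
    funext p
    have e1 : nx D h p = p.1 + h • (p.2 + (-(h / 2)) • D p.1) := by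
      simp only [nx]; module
    simp only [Function.comp, Lf, mo, ← e1]
    congr 1
    module
  rw [e]
  exact h1

/-- the leapfrog step as a measurable equivalence -/
noncomputable def LfE {D : E → E} (hD : Continuous D) (h : ℝ) : (E × E) ≃ᵐ (E × E) where
  toFun := Lf D h
  invFun := Lf D h
  left_inv := Lf_Lf D h
  right_inv := Lf_Lf D h
  measurable_toFun := (Lf_mp hD h).measurable
  measurable_invFun := (Lf_mp hD h).measurable

lemma Lf_int {D : E → E} (hD : Continuous D) (h : ℝ) (F : E × E → ℝ) :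
    ∫ p, F (Lf D h p) = ∫ p, F p :=
  (Lf_mp hD h).integral_comp (LfE hD h).measurableEmbedding F

/-- cubic moment bound -/
lemma cub_int : Integrable (fun p : E × E => (‖p.1‖ + ‖p.2‖) ^ 3 * (gs p.1 * gs p.2)) := by
  have h1 : Integrable (fun p : E × E => Real.exp (-(1 / 4) * ‖p.1‖ ^ 2) *
      Real.exp (-(1 / 4) * ‖p.2‖ ^ 2)) :=
    (gauss_int (F := E) (b := 1 / 4) (by norm_num)).mul_prod
      (gauss_int (F := E) (b := 1 / 4) (by norm_num))
  refine (h1.const_mul 129).mono' ?_ (Filter.Eventually.of_forall (fun p => ?_))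
  · apply Continuous.aestronglyMeasurable
    unfold gs
    fun_prop
  · set s := ‖p.1‖ + ‖p.2‖ with hs
    have hs0 : 0 ≤ s := by positivity
    have h2 : s ^ 2 ≤ 2 * (‖p.1‖ ^ 2 + ‖p.2‖ ^ 2) := by
      have := sq_nonneg (‖p.1‖ - ‖p.2‖)
      simp only [hs]; nlinarith
    have h3 : s ^ 3 ≤ 129 * Real.exp (s ^ 2 / 8) := by
      have e1 : (s ^ 2 / 8) ^ 2 / 2 ≤ Real.exp (s ^ 2 / 8) := by
        have := Real.quadratic_le_exp_of_nonneg (x := s ^ 2 / 8) (by positivity)
        have h5 : 0 ≤ s ^ 2 / 8 := by positivity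
        linarith
      have e2 : (1:ℝ) ≤ Real.exp (s ^ 2 / 8) := Real.one_le_exp (by positivity)
      have e3 : s ^ 3 ≤ s ^ 4 + 1 := by
        by_cases h : s ≤ 1
        · have : s ^ 3 ≤ 1 := pow_le_one₀ hs0 h
          have : 0 ≤ s ^ 4 := by positivity
          linarith
        · have h' : 1 ≤ s := (not_le.mp h).le
          have : s ^ 3 ≤ s ^ 4 := pow_le_pow_right₀ h' (by norm_num)
          linarith
      nlinarith
    rw [Real.norm_eq_abs, abs_of_nonneg (by
      have := gs_pos p.1; have := gs_pos p.2; positivity)]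
    calc s ^ 3 * (gs p.1 * gs p.2) ≤ (129 * Real.exp (s ^ 2 / 8)) * (gs p.1 * gs p.2) := by
          have := gs_pos p.1; have := gs_pos p.2
          gcongr
      _ = 129 * Real.exp (s ^ 2 / 8 + -(‖p.1‖ ^ 2) / 2 + -(‖p.2‖ ^ 2) / 2) := by
          simp only [gs, Real.exp_add]; ring
      _ ≤ 129 * Real.exp (-(1 / 4) * ‖p.1‖ ^ 2 + -(1 / 4) * ‖p.2‖ ^ 2) := by
          apply mul_le_mul_of_nonneg_left _ (by norm_num)
          apply Real.exp_le_exp.mpr
          linarith
      _ = _ := by rw [Real.exp_add]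

/-- the cubic moment -/
noncomputable def BQ (E : Type*) [NormedAddCommGroup E] [InnerProductSpace ℝ E]
    [FiniteDimensional ℝ E] [MeasurableSpace E] [BorelSpace E] : ℝ :=
  ∫ p : E × E, (‖p.1‖ + ‖p.2‖) ^ 3 * (gs p.1 * gs p.2)

variable {W : E → ℝ} {D : E → E} {a L : ℝ}

omit [FiniteDimensional ℝ E] [MeasurableSpace E] [BorelSpace E] in
lemma Drift.En_le (hd : Drift W D a L) (p : E × E) :
    Real.exp (-En W p) ≤ gs p.1 * gs p.2 := by
  rw [gs, gs, ← Real.exp_add]
  apply Real.exp_le_exp.mpr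
  have := hd.big p.1
  simp only [En]
  linarith

/-- constant of the one step estimate -/
noncomputable def CK (L : ℝ) : ℝ :=
  (1 + L) * ((L / 2) * (1 + L) ^ 2 + (1 / 8) * (L ^ 2 * (3 + L) * (1 + L)))

/-- **one step estimate** -/
theorem Drift.onestep (hd : Drift W D a L) {h : ℝ} (h0 : 0 ≤ h) (h1 : h ≤ 1) {φ : E → ℝ}
    {K B : ℝ} (hK : 0 ≤ K) (hφc : Continuous φ) (hφ : ∀ x y, |φ x - φ y| ≤ K * ‖x - y‖)
    (hB : ∀ x, |φ x| ≤ B) :
    |∫ p : E × E, (φ (nx D h p) - φ p.1) * Real.exp (-En W p)| ≤ K * CK L * h ^ 3 * BQ E := by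
  have hL := hd.hL
  have Dc := hd.contD
  have Wc := hd.cont
  have nxc : Continuous (fun p : E × E => nx D h p) := by
    unfold nx; fun_prop
  have moc : Continuous (fun p : E × E => mo D h p) := by
    unfold mo; fun_prop
  have Lfc : Continuous (fun p : E × E => Lf D h p) := by
    unfold Lf; fun_prop
  have Enc : Continuous (fun p : E × E => En W p) := by
    unfold En; fun_prop
  have gsi : Integrable (fun p : E × E => gs p.1 * gs p.2) := gs_int.mul_prod gs_int
  set F : E × E → ℝ := fun p => (φ (nx D h p) - φ p.1) * Real.exp (-En W p) with hF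
  set G : E × E → ℝ := fun p => ‖nx D h p - p.1‖ * |En W (Lf D h p) - En W p| *
    Real.exp (-En W p) with hG
  have Fc : Continuous F := by simp only [hF]; fun_prop
  have Gc : Continuous G := by simp only [hG]; fun_prop
  have B0 : 0 ≤ B := (abs_nonneg _).trans (hB 0)
  have Fi : Integrable F := by
    refine (gsi.const_mul (2 * B)).mono' Fc.aestronglyMeasurable
      (Filter.Eventually.of_forall (fun p => ?_))
    simp only [hF, norm_mul, Real.norm_eq_abs, Real.abs_exp]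
    have e1 : |φ (nx D h p) - φ p.1| ≤ 2 * B := by
      calc |φ (nx D h p) - φ p.1| ≤ |φ (nx D h p)| + |φ p.1| := abs_sub _ _
        _ ≤ _ := by linarith [hB (nx D h p), hB p.1]
    exact mul_le_mul e1 (hd.En_le p) (Real.exp_pos _).le (by positivity)
  have Gle : ∀ p, G p ≤ CK L * h ^ 3 * ((‖p.1‖ + ‖p.2‖) ^ 3 * (gs p.1 * gs p.2)) := by
    intro p
    have e1 := hd.nx_le h0 h1 p
    have e2 := hd.dEn h0 h1 p
    have e3 := hd.En_le p
    calc G p ≤ ((1 + L) * h * (‖p.1‖ + ‖p.2‖)) *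
          (((L / 2) * (1 + L) ^ 2 + (1 / 8) * (L ^ 2 * (3 + L) * (1 + L))) * h ^ 2 *
        (‖p.1‖ + ‖p.2‖) ^ 2) * (gs p.1 * gs p.2) := by
          simp only [hG]
          gcongr
      _ = _ := by rw [CK]; ring
  have G0 : ∀ p, 0 ≤ G p := fun p => by simp only [hG]; positivity
  have Gi : Integrable G := by
    refine (cub_int.const_mul (CK L * h ^ 3)).mono' Gc.aestronglyMeasurable
      (Filter.Eventually.of_forall (fun p => ?_))
    rw [Real.norm_eq_abs, abs_of_nonneg (G0 p)]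
    exact Gle p
  have i1 : ∫ p, F (Lf D h p) = ∫ p, F p := Lf_int Dc h F
  have i2 : ∫ p, G (Lf D h p) = ∫ p, G p := Lf_int Dc h G
  have FLi : Integrable (fun p => F (Lf D h p)) := (Lf_mp Dc h).integrable_comp_of_integrable Fi
  have GLi : Integrable (fun p => G (Lf D h p)) := (Lf_mp Dc h).integrable_comp_of_integrable Gi
  have F' : ∀ p, F (Lf D h p) = -(φ (nx D h p) - φ p.1) * Real.exp (-En W (Lf D h p)) := by
    intro p
    simp only [hF, nx_Lf]
    have : (Lf D h p).1 = nx D h p := rfl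
    rw [this]
    ring
  have G' : ∀ p, G (Lf D h p) = ‖nx D h p - p.1‖ * |En W (Lf D h p) - En W p| *
      Real.exp (-En W (Lf D h p)) := by
    intro p
    simp only [hG, nx_Lf, Lf_Lf]
    have : (Lf D h p).1 = nx D h p := rfl
    rw [this, norm_sub_rev, abs_sub_comm]
  have key : ∀ p, |F p + F (Lf D h p)| ≤ K * (G p + G (Lf D h p)) := by
    intro p
    rw [F', G']
    simp only [hF, hG]
    set s := En W p
    set t := En W (Lf D h p)
    have e1 : |Real.exp (-s) - Real.exp (-t)| ≤ |t - s| * (Real.exp (-s) + Real.exp (-t)) := by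
      rcases le_total s t with hst | hst
      · rw [abs_of_nonneg (by
          rw [sub_nonneg]; exact Real.exp_le_exp.mpr (by linarith)), abs_of_nonneg (by linarith)]
        have : 1 - Real.exp (-(t - s)) ≤ t - s := by
          have := Real.add_one_le_exp (-(t - s)); linarith
        have e2 : Real.exp (-t) = Real.exp (-s) * Real.exp (-(t - s)) := by
          rw [← Real.exp_add]; congr 1; ring
        have e3 := Real.exp_pos (-s)
        have e4 := Real.exp_pos (-t)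
        have e5 : Real.exp (-s) - Real.exp (-t) = Real.exp (-s) * (1 - Real.exp (-(t - s))) := by
          rw [e2]; ring
        rw [e5]
        have e6 : 0 ≤ (t - s) * Real.exp (-t) := mul_nonneg (by linarith) e4.le
        nlinarith
      · rw [abs_of_nonpos (by
          rw [sub_nonpos]; exact Real.exp_le_exp.mpr (by linarith)), abs_of_nonpos (by linarith)]
        have : 1 - Real.exp (-(s - t)) ≤ s - t := by
          have := Real.add_one_le_exp (-(s - t)); linarith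
        have e2 : Real.exp (-s) = Real.exp (-t) * Real.exp (-(s - t)) := by
          rw [← Real.exp_add]; congr 1; ring
        have e3 := Real.exp_pos (-s)
        have e4 := Real.exp_pos (-t)
        have e5 : -(Real.exp (-s) - Real.exp (-t)) =
            Real.exp (-t) * (1 - Real.exp (-(s - t))) := by
          rw [e2]; ring
        rw [e5]
        have e6 : 0 ≤ (s - t) * Real.exp (-s) := mul_nonneg (by linarith) e3.le
        nlinarith
    calc |(φ (nx D h p) - φ p.1) * Real.exp (-s) + -(φ (nx D h p) - φ p.1) * Real.exp (-t)|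
        = |φ (nx D h p) - φ p.1| * |Real.exp (-s) - Real.exp (-t)| := by
          rw [← abs_mul]; congr 1; ring
      _ ≤ (K * ‖nx D h p - p.1‖) * (|t - s| * (Real.exp (-s) + Real.exp (-t))) := by
          have := hφ (nx D h p) p.1
          gcongr
      _ = _ := by ring
  have fin : |∫ p, (F p + F (Lf D h p))| ≤ ∫ p, K * (G p + G (Lf D h p)) := by
    rw [← Real.norm_eq_abs]
    apply norm_integral_le_of_norm_le ((Gi.add GLi).const_mul K)
    exact Filter.Eventually.of_forall key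
  rw [integral_add Fi FLi, i1, integral_const_mul, integral_add Gi GLi, i2] at fin
  have f2 : ∫ p, G p ≤ CK L * h ^ 3 * BQ E := by
    rw [BQ, ← integral_const_mul]
    exact integral_mono Gi (cub_int.const_mul _) Gle
  have f3 : |(∫ p, F p) + ∫ p, F p| = 2 * |∫ p, F p| := by
    rw [← two_mul, abs_mul]; norm_num
  rw [f3] at fin
  have f4 : K * ∫ p, G p ≤ K * (CK L * h ^ 3 * BQ E) := by gcongr
  calc |∫ p, F p| ≤ K * ∫ p, G p := by linarith
    _ ≤ K * (CK L * h ^ 3 * BQ E) := f4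
    _ = _ := by ring

end Measure

end Pool.Agent.H12.San
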