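import Pool.Agent.H12.San.Rep

/-! Santalo inequality for the Gaussian measure restricted to a symmetric closed convex set. -/

open MeasureTheory Set
open scoped ENNReal RealInnerProductSpace

namespace Pool.Agent.H12.San

universe u

variable {E : Type u} [NormedAddCommGroup E] [InnerProductSpace ℝ E] [FiniteDimensional ℝ E]
  [MeasurableSpace E] [BorelSpace E]

/-- the penalised potentials -/
noncomputable def Wj (P : E → E) (j : ℕ) (x : E) : ℝ :=
  (1 + 1 / ((j:ℝ) + 1)) / 2 * ‖x‖ ^ 2 + (j:ℝ) * (‖x - P x‖ ^ 2 / 2)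

lemma Wj_drift {T : Set E} {P : E → E} (h : IsProj T P) (hs : ∀ x ∈ T, -x ∈ T) (j : ℕ) :
    Drift (Wj P j) (fun x => (1 + 1 / ((j:ℝ) + 1)) • x + (j:ℝ) • (x - P x))
      (1 + 1 / ((j:ℝ) + 1)) ((1 + 1 / ((j:ℝ) + 1)) + 2 * j) := by
  have h1 : (0:ℝ) < 1 / ((j:ℝ) + 1) := by positivity
  exact drift_proj h hs (by linarith) (Nat.cast_nonneg j)

lemma Wj_lim {T : Set E} (hT : IsClosed T) {P : E → E} (h : IsProj T P) (hs : ∀ x ∈ T, -x ∈ T)
    {φ : E → ℝ} {K B : ℝ} (hφ : LB φ K B) :
    Filter.Tendsto (fun j : ℕ => ∫ x, φ x * Real.exp (-Wj P j x)) Filter.atTop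
      (nhds (∫ x in T, φ x * gs x)) := by
  rw [← integral_indicator hT.measurableSet]
  have l1 : Filter.Tendsto (fun j : ℕ => (1 + 1 / ((j:ℝ) + 1)) / 2) Filter.atTop
      (nhds (1 / 2)) := by
    have := (tendsto_one_div_add_atTop_nhds_zero_nat (𝕜 := ℝ)).const_add 1 |>.div_const 2
    simpa using this
  apply tendsto_integral_of_dominated_convergence (fun x => B * gs x)
  · intro j
    have := (Wj_drift h hs j).cont
    have := hφ.cont
    exact Continuous.aestronglyMeasurable (by fun_prop)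
  · exact gs_int.const_mul B
  · intro j
    refine Filter.Eventually.of_forall (fun x => ?_)
    rw [norm_mul, Real.norm_eq_abs, Real.norm_eq_abs, Real.abs_exp]
    apply mul_le_mul (hφ.bd x) _ (Real.exp_pos _).le hφ.B0
    rw [gs]
    apply Real.exp_le_exp.mpr
    have := (Wj_drift h hs j).big x
    linarith
  · refine Filter.Eventually.of_forall (fun x => ?_)
    by_cases hx : x ∈ T
    · rw [indicator_of_mem hx]
      apply Filter.Tendsto.const_mul
      have e : ∀ j : ℕ, Real.exp (-Wj P j x) =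
          Real.exp (-((1 + 1 / ((j:ℝ) + 1)) / 2 * ‖x‖ ^ 2)) := by
        intro j
        rw [Wj, h.eq_self hx]
        simp
      simp only [e]
      have e2 : gs x = Real.exp (-(1 / 2 * ‖x‖ ^ 2)) := by rw [gs]; congr 1; ring
      rw [e2]
      exact (Real.continuous_exp.tendsto _).comp (l1.mul_const _).neg
    · rw [indicator_of_notMem hx]
      have hq : 0 < ‖x - P x‖ ^ 2 / 2 := by
        have : x - P x ≠ 0 := by
          intro h0
          exact hx (by rw [sub_eq_zero.mp h0]; exact h.mem x)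
        have := norm_pos_iff.mpr this
        positivity
      have l2 : Filter.Tendsto (fun j : ℕ => Real.exp (-((j:ℝ) * (‖x - P x‖ ^ 2 / 2))))
          Filter.atTop (nhds 0) := by
        apply Real.tendsto_exp_neg_atTop_nhds_zero.comp
        exact tendsto_natCast_atTop_atTop.atTop_mul_const hq
      have l3 : Filter.Tendsto (fun j : ℕ => Real.exp (-Wj P j x)) Filter.atTop (nhds 0) := by
        apply squeeze_zero (fun j => (Real.exp_pos _).le) _ l2
        intro j
        apply Real.exp_le_exp.mpr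
        rw [Wj]
        have : (0:ℝ) ≤ (1 + 1 / ((j:ℝ) + 1)) / 2 * ‖x‖ ^ 2 := by positivity
        linarith
      simpa using l3.const_mul (φ x)

/-- **Santalo inequality with the weight `1_T e^{-|x|^2/2}`** -/
theorem san_T {T : Set E} (hT : IsClosed T) (hc : Convex ℝ T) (hne : T.Nonempty)
    (hs : ∀ x ∈ T, -x ∈ T) {f g : E → ℝ} {K B : ℝ} (hf : LB f K B) (hg : LB g K B)
    (f0 : ∀ x, 0 ≤ f x) (g0 : ∀ x, 0 ≤ g x) (ev : ∀ x, f (-x) = f x)
    (H : ∀ x y, f x * g y ≤ Real.exp (‖x - y‖ ^ 2 / 2)) :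
    (∫ x in T, f x * gs x) * (∫ x in T, g x * gs x) ≤ (∫ x in T, gs x) ^ 2 := by
  obtain ⟨P, hP⟩ := exists_proj hT hc hne
  have h1 := Wj_lim hT hP hs hf
  have h2 := Wj_lim hT hP hs hg
  have o : LB (fun _ : E => (1:ℝ)) 0 1 := ⟨by simp, by simp, le_refl _⟩
  have h3 := Wj_lim hT hP hs o
  simp only [one_mul] at h3
  exact le_of_tendsto_of_tendsto (h1.mul h2) (h3.pow 2)
    (Filter.Eventually.of_forall (fun j => san_W (Wj_drift hP hs j) hf hg f0 g0 ev H))

end Pool.Agent.H12.San
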