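import Pool.Agent.H12.San.Core

/-! Functional Santalo inequality, normal form and end of the induction. -/

open MeasureTheory Set
open scoped ENNReal

namespace Pool.Agent.H12.San

variable {m : ℕ}

lemma exists_half_line {f : ℝ → ℝ} (hf : Integrable f) (hM : 0 < ∫ s, f s) :
    ∃ c : ℝ, ∫ s in Ioi c, f s = (∫ s, f s) / 2 := by
  have hcont : Continuous (fun c : ℝ => ∫ s in Ioi c, f s) := by
    have e : (fun c : ℝ => ∫ s in Ioi c, f s) =
        fun c => (∫ s in Ioi (0:ℝ), f s) - ∫ s in (0:ℝ)..c, f s := by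
      ext c
      rw [← intervalIntegral.integral_Ioi_sub_Ioi' hf.integrableOn hf.integrableOn]
      ring
    rw [e]
    exact continuous_const.sub (hf.continuous_primitive 0)
  have l1 : Filter.Tendsto (fun c : ℝ => ∫ s in Ioi c, f s) Filter.atBot (nhds (∫ s, f s)) :=
    (aecover_Ioi Filter.tendsto_id).integral_tendsto_of_countably_generated hf
  have l2 : Filter.Tendsto (fun c : ℝ => ∫ s in Ioi c, f s) Filter.atTop (nhds 0) := by
    have h := (aecover_Iic (μ := (volume : Measure ℝ)) (l := Filter.atTop) (b := fun c : ℝ => c)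
      Filter.tendsto_id).integral_tendsto_of_countably_generated hf
    have e : (fun c : ℝ => ∫ s in Ioi c, f s) = fun c => (∫ s, f s) - ∫ s in Iic c, f s := by
      ext c
      rw [← integral_add_compl (measurableSet_Iic (a := c)) hf, compl_Iic]
      ring
    rw [e]
    have := h.const_sub (∫ s, f s)
    simpa using this
  have e1 : ∃ c, (∫ s in Ioi c, f s) ≤ (∫ s, f s) / 2 := by
    have := l2.eventually (ge_mem_nhds (show (0:ℝ) < (∫ s, f s) / 2 by linarith))
    exact this.exists
  have e2 : ∃ c, (∫ s, f s) / 2 ≤ (∫ s in Ioi c, f s) := by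
    have := l1.eventually (le_mem_nhds (show (∫ s, f s) / 2 < (∫ s, f s) by linarith))
    exact this.exists
  obtain ⟨c, hc⟩ := mem_range_of_exists_le_of_exists_ge hcont e1 e2
  exact ⟨c, hc⟩

lemma exists_half_space {f : ℝ × V m → ℝ} (hf : Integrable f) (hM : 0 < ∫ s, f s) :
    ∃ c : ℝ, ∫ p in {p : ℝ × V m | c < p.1}, f p = (∫ p, f p) / 2 := by
  have h1 : Integrable (fun s => ∫ x, f (s, x)) := hf.integral_prod_left
  have h2 : ∫ s, ∫ x, f (s, x) = ∫ p, f p := (integral_prod f hf).symm
  obtain ⟨c, hc⟩ := exists_half_line h1 (by rw [h2]; exact hM)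
  refine ⟨c, ?_⟩
  rw [h2] at hc
  rw [← hc]
  have e : {p : ℝ × V m | c < p.1} = Ioi c ×ˢ univ := by ext p; simp
  rw [e]
  have := setIntegral_prod (μ := (volume : Measure ℝ)) (ν := (volume : Measure (V m))) f
    (s := Ioi c) (t := univ) hf.integrableOn
  rw [Measure.volume_eq_prod, this]
  simp

lemma split_int_c {g : ℝ × V m → ℝ} (c : ℝ) (gi : Integrable g) :
    ∫ p, g p = (∫ p in {p : ℝ × V m | c < p.1}, g p) + ∫ p in {p : ℝ × V m | p.1 < c}, g p := by
  have h := split_int ((Phi_mp c (0 : V m) 0).integrable_comp_of_integrable gi)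
  have e1 : ∫ p, (g ∘ Phi c 0 0) p = ∫ p, g p :=
    (Phi_mp c (0 : V m) 0).integral_comp (Phi c 0 0).measurableEmbedding g
  have e2 := (Phi_mp c (0 : V m) 0).setIntegral_preimage_emb (Phi c 0 0).measurableEmbedding g
    {p | c < p.1}
  have e3 := (Phi_mp c (0 : V m) 0).setIntegral_preimage_emb (Phi c 0 0).measurableEmbedding g
    {p | p.1 < c}
  have s1 : (Phi c (0 : V m) 0) ⁻¹' {p | c < p.1} = {p | 0 < p.1} := by
    ext p; simp [Phi_apply]
  have s2 : (Phi c (0 : V m) 0) ⁻¹' {p | p.1 < c} = {p | p.1 < 0} := by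
    ext p; simp [Phi_apply]
  rw [s1] at e2
  rw [s2] at e3
  rw [← e1, h, ← e2, ← e3]
  rfl

/-- Functional Santalo inequality on `R x R^m` after a suitable translation. -/
theorem P_prod (hC : Cst m) {f : ℝ × V m → ℝ} (hf : Measurable f) (hf0 : ∀ p, 0 ≤ f p)
    (fi : Integrable f) (f1 : Integrable (fun p : ℝ × V m => p.1 * f p))
    (fm : ∀ i, Integrable (fun p : ℝ × V m => p.2 i * f p)) :
    ∃ z : ℝ × V m, ∀ g : ℝ × V m → ℝ, Measurable g → (∀ p, 0 ≤ g p) → Integrable g →
      (∀ i, Integrable (fun p : ℝ × V m => p.2 i * g p)) →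
      (∀ p q : ℝ × V m, f (z + p) * g q ≤ Real.exp (-(p.1 * q.1 + p.2 ⬝ᵥ q.2))) →
      (∫ p, f p) * ∫ q, g q ≤ (2 * Real.pi) ^ (m + 1) := by
  by_cases hM : ∫ p, f p = 0
  · refine ⟨0, ?_⟩
    intro g _ _ _ _ _
    rw [hM, zero_mul]
    positivity
  have hMp : 0 < ∫ p, f p := lt_of_le_of_ne (integral_nonneg hf0) (Ne.symm hM)
  set M := ∫ p, f p with hMdef
  obtain ⟨c, hc⟩ := exists_half_space fi hMp
  set Sp : Set (ℝ × V m) := {p | c < p.1} with hSp
  set Sn : Set (ℝ × V m) := {p | p.1 < c} with hSn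
  have mSp : MeasurableSet Sp := measurableSet_lt measurable_const measurable_fst
  have mSn : MeasurableSet Sn := measurableSet_lt measurable_fst measurable_const
  have hcn : ∫ p in Sn, f p = M / 2 := by
    have := split_int_c c fi
    rw [← hMdef, ← hSp, ← hSn, hc] at this
    linarith
  -- first moments of the halves
  set bp : V m := fun i => ∫ p in Sp, p.2 i * f p with hbp
  set bn : V m := fun i => ∫ p in Sn, p.2 i * f p with hbn
  set βp := ∫ p in Sp, (p.1 - c) * f p with hβp
  set βn := ∫ p in Sn, (p.1 - c) * f p with hβn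
  have i1 : Integrable (fun p : ℝ × V m => (p.1 - c) * f p) := by
    have := f1.sub (fi.const_mul c)
    refine this.congr (Filter.Eventually.of_forall ?_)
    intro p; simp only [Pi.sub_apply]; ring
  have hβp0 : 0 < βp := by
    rw [hβp, setIntegral_pos_iff_support_of_nonneg_ae _ i1.integrableOn]
    · have h1 : 0 < ∫ p in Sp, f p := by rw [hc]; linarith
      rw [setIntegral_pos_iff_support_of_nonneg_ae (Filter.Eventually.of_forall hf0)
        fi.integrableOn] at h1
      refine lt_of_lt_of_le h1 (measure_mono ?_)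
      rintro p ⟨hp1, hp2⟩
      refine ⟨?_, hp2⟩
      have : (0:ℝ) < p.1 - c := sub_pos.mpr hp2
      exact mul_ne_zero this.ne' hp1
    · filter_upwards [ae_restrict_mem mSp] with p hp
      have : (0:ℝ) < p.1 - c := sub_pos.mpr hp
      exact mul_nonneg this.le (hf0 p)
  have hβn0 : βn ≤ 0 := by
    rw [hβn]
    apply setIntegral_nonpos mSn
    intro p hp
    have : p.1 - c ≤ 0 := (sub_neg.mpr hp).le
    exact mul_nonpos_of_nonpos_of_nonneg this (hf0 p)
  set v : V m := fun i => (bp i - bn i) / (βp - βn) with hv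
  set z : V m := fun i => (2 / M) * (bp i - v i * βp) with hz
  have hD : 0 < βp - βn := by linarith
  have hDv : ∀ i, v i * (βp - βn) = bp i - bn i := by
    intro i; simp only [hv]; field_simp
  have hMz : ∀ i, z i * (M / 2) = bp i - v i * βp := by
    intro i; simp only [hz]; field_simp
  -- the transformed function
  have comp : ∀ i (S : Set (ℝ × V m)), ∫ p in (Phi c z v) ⁻¹' S, p.2 i * f (Phi c z v p) =
      (∫ p in S, p.2 i * f p) - z i * (∫ p in S, f p) - v i * ∫ p in S, (p.1 - c) * f p := by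
    intro i S
    have h := (Phi_mp c z v).setIntegral_preimage_emb (Phi c z v).measurableEmbedding
      (fun q : ℝ × V m => q.2 i * f q - z i * f q - v i * ((q.1 - c) * f q)) S
    have hR : ∫ q in S, (q.2 i * f q - z i * f q - v i * ((q.1 - c) * f q)) =
        (∫ p in S, p.2 i * f p) - z i * (∫ p in S, f p) - v i * ∫ p in S, (p.1 - c) * f p := by
      rw [integral_sub, integral_sub, integral_const_mul, integral_const_mul]
      · exact (fm i).integrableOn
      · exact (fi.const_mul _).integrableOn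
      · exact (((fm i).sub (fi.const_mul (z i)))).integrableOn
      · exact (i1.const_mul _).integrableOn
    rw [← hR, ← h]
    congr 1
    ext p
    simp only [Phi_apply, Pi.add_apply, Pi.smul_apply, smul_eq_mul]
    ring
  have s1 : (Phi c z v) ⁻¹' Sp = {p | 0 < p.1} := by
    ext p; simp [Phi_apply, hSp]
  have s2 : (Phi c z v) ⁻¹' Sn = {p | p.1 < 0} := by
    ext p; simp [Phi_apply, hSn]
  refine ⟨(c, z), ?_⟩
  intro g hg hg0 gi gm H
  have key := core hC (M := M) (f := fun p => f (Phi c z v p)) (g := fun p => g (Psi v p))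
    (hf.comp (Phi c z v).measurable) (hg.comp (Psi v).measurable) (fun p => hf0 _)
    (fun p => hg0 _) ((Phi_mp c z v).integrable_comp_of_integrable fi)
    ((Psi_mp v).integrable_comp_of_integrable gi) ?_ ?_ ?_ ?_ ?_ ?_ ?_
  · have e : ∫ q, g (Psi v q) = ∫ q, g q :=
      (Psi_mp v).integral_comp (Psi v).measurableEmbedding g
    rw [e] at key
    exact key
  · intro i
    have := (Phi_mp c z v).integrable_comp_of_integrable
      ((((fm i).sub (fi.const_mul (z i)))).sub (i1.const_mul (v i)))
    refine this.congr (Filter.Eventually.of_forall ?_)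
    intro p
    simp only [Function.comp, Pi.sub_apply, Phi_apply, Pi.add_apply, Pi.smul_apply, smul_eq_mul]
    ring
  · intro i
    exact (Psi_mp v).integrable_comp_of_integrable (gm i)
  · intro i
    rw [← s1, comp i Sp, hc, ← hβp]
    have := hMz i
    simp only [hbp] at this
    linarith
  · intro i
    rw [← s2, comp i Sn, hcn, ← hβn]
    have h1 := hMz i
    have h2 := hDv i
    simp only [hbp, hbn] at h1 h2
    nlinarith
  · rw [← s1]
    rw [(Phi_mp c z v).setIntegral_preimage_emb (Phi c z v).measurableEmbedding f Sp]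
    exact hc
  · rw [← s2]
    rw [(Phi_mp c z v).setIntegral_preimage_emb (Phi c z v).measurableEmbedding f Sn]
    exact hcn
  · intro p q
    have h1 := H (p.1, p.2 + p.1 • v) (Psi v q)
    have e1 : ((c, z) : ℝ × V m) + (p.1, p.2 + p.1 • v) = Phi c z v p := rfl
    rw [e1] at h1
    refine h1.trans (le_of_eq ?_)
    congr 2
    simp only [Psi_apply, add_dotProduct, smul_dotProduct, smul_eq_mul]
    ring

end Pool.Agent.H12.San
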