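import Mathlib

/-! One-dimensional Brunn-Minkowski and Prekopa-Leindler inequalities. -/

open MeasureTheory Set
open scoped ENNReal

namespace Pool.Agent.H12.San

/-- one-dimensional Brunn-Minkowski for compact sets -/
lemma bm_compact {A B S : Set ℝ} (hA : IsCompact A) (hB : IsCompact B) (hA' : A.Nonempty)
    (hB' : B.Nonempty) (h : ∀ x ∈ A, ∀ y ∈ B, x + y ∈ S) :
    volume A + volume B ≤ volume S := by
  have ha : sSup A ∈ A := hA.sSup_mem hA'
  have hb : sInf B ∈ B := hB.sInf_mem hB'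
  set P : Set ℝ := (fun x => x + sInf B) '' A
  set Q : Set ℝ := (fun x => sSup A + x) '' B
  have hQ : IsCompact Q := hB.image (by fun_prop)
  have e1 : volume P = volume A := by
    have : P = (fun x => x + (-sInf B)) ⁻¹' A := by
      ext x
      constructor
      · rintro ⟨y, hy, rfl⟩
        simpa using hy
      · intro hx
        exact ⟨_, hx, by simp⟩
    rw [this, measure_preimage_add_right]
  have e2 : volume Q = volume B := by
    have : Q = (fun x => (-sSup A) + x) ⁻¹' B := by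
      ext x
      constructor
      · rintro ⟨y, hy, rfl⟩
        simpa using hy
      · intro hx
        exact ⟨_, hx, by simp⟩
    rw [this, measure_preimage_add]
  have e3 : volume (P ∩ Q) = 0 := by
    apply measure_mono_null (t := {sSup A + sInf B})
    · rintro z ⟨⟨x, hx, rfl⟩, ⟨y, hy, hxy⟩⟩
      simp only at hxy
      have h1 : x ≤ sSup A := le_csSup hA.bddAbove hx
      have h2 : sInf B ≤ y := csInf_le hB.bddBelow hy
      simp only [mem_singleton_iff]
      linarith
    · simp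
  have e4 := measure_union_add_inter (μ := volume) P hQ.measurableSet
  rw [e3, add_zero, e1, e2] at e4
  rw [← e4]
  apply measure_mono
  rintro z (⟨x, hx, rfl⟩ | ⟨y, hy, rfl⟩)
  · exact h _ hx _ hb
  · exact h _ ha _ hy

/-- one-dimensional Brunn-Minkowski with weights, measurable sets -/
lemma bm {A B S : Set ℝ} {a b : ℝ} (ha : 0 < a) (hb : 0 < b) (hA : MeasurableSet A)
    (hB : MeasurableSet B) (hA' : A.Nonempty)
    (hB' : B.Nonempty) (h : ∀ x ∈ A, ∀ y ∈ B, a * x + b * y ∈ S) :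
    ENNReal.ofReal a * volume A + ENNReal.ofReal b * volume B ≤ volume S := by
  obtain ⟨x0, hx0⟩ := hA'
  obtain ⟨y0, hy0⟩ := hB'
  have key : ∀ (U : Set ℝ) (_ : MeasurableSet U) (u0 : ℝ) (_ : u0 ∈ U),
      volume U = ⨆ K : {K : Set ℝ // IsCompact K ∧ K ⊆ U ∧ K.Nonempty}, volume K.1 := by
    intro U hU u0 hu0
    apply le_antisymm
    · rw [hU.measure_eq_iSup_isCompact]
      apply iSup_le
      intro K
      apply iSup_le
      intro hK
      apply iSup_le
      intro hK'
      refine le_trans ?_ (le_iSup _ (⟨K ∪ {u0}, hK'.union isCompact_singleton,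
        union_subset hK (by simpa using hu0), ⟨u0, by simp⟩⟩ :
        {K : Set ℝ // IsCompact K ∧ K ⊆ U ∧ K.Nonempty}))
      exact measure_mono subset_union_left
    · apply iSup_le
      intro K
      exact measure_mono K.2.2.1
  have : Nonempty {K : Set ℝ // IsCompact K ∧ K ⊆ A ∧ K.Nonempty} :=
    ⟨⟨{x0}, isCompact_singleton, by simpa using hx0, by simp⟩⟩
  have : Nonempty {K : Set ℝ // IsCompact K ∧ K ⊆ B ∧ K.Nonempty} :=
    ⟨⟨{y0}, isCompact_singleton, by simpa using hy0, by simp⟩⟩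
  rw [key A hA x0 hx0, key B hB y0 hy0, ENNReal.mul_iSup, ENNReal.mul_iSup]
  apply ENNReal.iSup_add_iSup_le
  rintro ⟨K, hK, hKA, hK'⟩ ⟨L, hL, hLB, hL'⟩
  have e1 : ENNReal.ofReal a * volume K = volume ((fun x => a * x) '' K) := by
    have := Measure.addHaar_smul (volume : Measure ℝ) a K
    rw [← image_smul] at this
    simp only [smul_eq_mul, Module.finrank_self, pow_one, abs_of_pos ha] at this
    rw [this]
  have e2 : ENNReal.ofReal b * volume L = volume ((fun x => b * x) '' L) := by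
    have := Measure.addHaar_smul (volume : Measure ℝ) b L
    rw [← image_smul] at this
    simp only [smul_eq_mul, Module.finrank_self, pow_one, abs_of_pos hb] at this
    rw [this]
  rw [e1, e2]
  apply bm_compact (hK.image (by fun_prop)) (hL.image (by fun_prop)) (hK'.image _) (hL'.image _)
  rintro _ ⟨x, hx, rfl⟩ _ ⟨y, hy, rfl⟩
  exact h x (hKA hx) y (hLB hy)

/-- the core of Prekopa-Leindler: functions with supremum 1 -/
lemma pl_core {f g h : ℝ → ℝ} {a b : ℝ} (ha : 0 < a) (hb : 0 < b) (hab : a + b = 1)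
    (hf : Measurable f) (hg : Measurable g) (hh : Measurable h)
    (hf0 : ∀ x, 0 ≤ f x) (hg0 : ∀ x, 0 ≤ g x) (hh0 : ∀ x, 0 ≤ h x)
    (hf1 : ∀ x, f x ≤ 1) (hg1 : ∀ x, g x ≤ 1)
    (hf2 : ∀ t < 1, ∃ x, t < f x) (hg2 : ∀ t < 1, ∃ x, t < g x)
    (H : ∀ x y, f x ^ a * g y ^ b ≤ h (a * x + b * y)) :
    ENNReal.ofReal a * (∫⁻ x, ENNReal.ofReal (f x)) +
      ENNReal.ofReal b * (∫⁻ x, ENNReal.ofReal (g x)) ≤ ∫⁻ x, ENNReal.ofReal (h x) := by
  rw [lintegral_eq_lintegral_meas_lt volume (Filter.Eventually.of_forall hf0) hf.aemeasurable,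
    lintegral_eq_lintegral_meas_lt volume (Filter.Eventually.of_forall hg0) hg.aemeasurable,
    lintegral_eq_lintegral_meas_lt volume (Filter.Eventually.of_forall hh0) hh.aemeasurable]
  have aux : ∀ u : ℝ → ℝ, (∀ x, u x ≤ 1) →
      ∫⁻ t in Ioi (0:ℝ), volume {x | t < u x} = ∫⁻ t in Ioo (0:ℝ) 1, volume {x | t < u x} := by
    intro u hu
    have hs : Ioi (0:ℝ) = Ioo 0 1 ∪ Ici 1 := by
      ext t; simp only [mem_Ioi, mem_union, mem_Ioo, mem_Ici]
      constructor
      · intro ht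
        by_cases h1 : t < 1
        · exact Or.inl ⟨ht, h1⟩
        · exact Or.inr (not_lt.mp h1)
      · rintro (h1 | h1)
        · exact h1.1
        · linarith
    rw [hs, lintegral_union measurableSet_Ici]
    · have : ∫⁻ t in Ici (1:ℝ), volume {x | t < u x} = 0 := by
        rw [setLIntegral_congr_fun measurableSet_Ici (g := fun _ => 0)]
        · simp
        · intro t ht
          have : {x | t < u x} = ∅ := by
            ext x
            simp only [mem_ofPred_eq, mem_empty_iff_false, iff_false, not_lt]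
            exact (hu x).trans ht
          simp [this]
      rw [this, add_zero]
    · rw [Set.disjoint_left]
      intro t h1 h2
      exact absurd h1.2 (not_lt.mpr h2)
  rw [aux f hf1, aux g hg1]
  have mf : Measurable (fun t : ℝ => volume {x | t < f x}) := by
    apply Antitone.measurable
    intro s t hst
    exact measure_mono (fun x hx => lt_of_le_of_lt hst hx)
  have mg : Measurable (fun t : ℝ => volume {x | t < g x}) := by
    apply Antitone.measurable
    intro s t hst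
    exact measure_mono (fun x hx => lt_of_le_of_lt hst hx)
  rw [← lintegral_const_mul _ mf, ← lintegral_const_mul _ mg, ← lintegral_add_left
    (mf.const_mul _)]
  calc ∫⁻ t in Ioo (0:ℝ) 1, (ENNReal.ofReal a * volume {x | t < f x} +
        ENNReal.ofReal b * volume {x | t < g x})
      ≤ ∫⁻ t in Ioo (0:ℝ) 1, volume {x | t < h x} := by
        apply setLIntegral_mono' measurableSet_Ioo
        intro t ht
        apply bm ha hb (hf measurableSet_Ioi) (hg measurableSet_Ioi) (hf2 t ht.2) (hg2 t ht.2)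
        intro x hx y hy
        simp only [mem_ofPred_eq, mem_preimage, mem_Ioi] at hx hy ⊢
        refine lt_of_lt_of_le ?_ (H x y)
        have e : t = t ^ a * t ^ b := by
          rw [← Real.rpow_add ht.1, hab, Real.rpow_one]
        calc t = t ^ a * t ^ b := e
          _ < f x ^ a * g y ^ b := by
            apply mul_lt_mul'' (Real.rpow_lt_rpow ht.1.le hx ha) (Real.rpow_lt_rpow ht.1.le hy hb)
            · exact Real.rpow_nonneg ht.1.le _
            · exact Real.rpow_nonneg ht.1.le _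
    _ ≤ ∫⁻ t in Ioi (0:ℝ), volume {x | t < h x} :=
        lintegral_mono_set (fun t ht => ht.1)

lemma amgm {x y : ℝ≥0∞} {a b : ℝ} (ha : 0 < a) (hb : 0 < b) (hab : a + b = 1) :
    x ^ a * y ^ b ≤ ENNReal.ofReal a * x + ENNReal.ofReal b * y := by
  by_cases hx : x = ∞
  · rw [hx, ENNReal.mul_top (by simpa using ha)]
    simp
  by_cases hy : y = ∞
  · rw [hy, ENNReal.mul_top (by simpa using hb)]
    simp
  lift x to NNReal using hx
  lift y to NNReal using hy
  have := Real.geom_mean_le_arith_mean2_weighted ha.le hb.le x.2 y.2 hab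
  rw [← ENNReal.coe_rpow_of_nonneg _ ha.le, ← ENNReal.coe_rpow_of_nonneg _ hb.le]
  rw [← ENNReal.ofReal_coe_nnreal (p := x), ← ENNReal.ofReal_coe_nnreal (p := y),
    ← ENNReal.ofReal_mul ha.le, ← ENNReal.ofReal_mul hb.le, ← ENNReal.ofReal_add (by positivity)
    (by positivity), ← ENNReal.coe_mul, ← ENNReal.ofReal_coe_nnreal]
  apply ENNReal.ofReal_le_ofReal
  push_cast
  exact this

/-- Prekopa-Leindler for bounded functions -/
lemma pl_bdd {f g h : ℝ → ℝ≥0∞} {a b : ℝ} (ha : 0 < a) (hb : 0 < b) (hab : a + b = 1)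
    (hf : Measurable f) (hg : Measurable g) (hh : Measurable h) {M : ℝ≥0∞} (hM : M ≠ ∞)
    (hfM : ∀ x, f x ≤ M) (hgM : ∀ x, g x ≤ M)
    (H : ∀ x y, f x ^ a * g y ^ b ≤ h (a * x + b * y)) :
    (∫⁻ x, f x) ^ a * (∫⁻ x, g x) ^ b ≤ ∫⁻ x, h x := by
  set A := ⨆ x, f x with hA
  set B := ⨆ x, g x with hB
  have hAM : A ≤ M := iSup_le hfM
  have hBM : B ≤ M := iSup_le hgM
  have hAt : A ≠ ∞ := ne_top_of_le_ne_top hM hAM
  have hBt : B ≠ ∞ := ne_top_of_le_ne_top hM hBM
  by_cases hA0 : A = 0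
  · have : ∀ x, f x = 0 := fun x => le_antisymm (hA0 ▸ le_iSup f x) zero_le
    simp [this, ENNReal.zero_rpow_of_pos ha]
  by_cases hB0 : B = 0
  · have : ∀ x, g x = 0 := fun x => le_antisymm (hB0 ▸ le_iSup g x) zero_le
    simp [this, ENNReal.zero_rpow_of_pos hb]
  have hC0 : A ^ a * B ^ b ≠ 0 := mul_ne_zero
    (by simp [ENNReal.rpow_eq_zero_iff, hA0, hAt]) (by simp [ENNReal.rpow_eq_zero_iff, hB0, hBt])
  have hCt : A ^ a * B ^ b ≠ ∞ := ENNReal.mul_ne_top (ENNReal.rpow_ne_top_of_nonneg ha.le hAt)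
    (ENNReal.rpow_ne_top_of_nonneg hb.le hBt)
  have hf1 : ∀ x, f x / A ≤ 1 := fun x => ENNReal.div_le_of_le_mul (by simpa using le_iSup f x)
  have hg1 : ∀ x, g x / B ≤ 1 := fun x => ENNReal.div_le_of_le_mul (by simpa using le_iSup g x)
  have key := pl_core (f := fun x => (f x / A).toReal) (g := fun x => (g x / B).toReal)
    (h := fun x => (min (h x / (A ^ a * B ^ b)) 1).toReal) ha hb hab
    (by fun_prop) (by fun_prop) (by fun_prop)
    (fun x => ENNReal.toReal_nonneg) (fun x => ENNReal.toReal_nonneg)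
    (fun x => ENNReal.toReal_nonneg)
    (fun x => ENNReal.toReal_le_of_le_ofReal zero_le_one (by simpa using hf1 x))
    (fun x => ENNReal.toReal_le_of_le_ofReal zero_le_one (by simpa using hg1 x))
    ?_ ?_ ?_
  · have e1 : ∀ x, ENNReal.ofReal (f x / A).toReal = f x / A := fun x =>
      ENNReal.ofReal_toReal (ne_top_of_le_ne_top ENNReal.one_ne_top (hf1 x))
    have e2 : ∀ x, ENNReal.ofReal (g x / B).toReal = g x / B := fun x =>
      ENNReal.ofReal_toReal (ne_top_of_le_ne_top ENNReal.one_ne_top (hg1 x))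
    have e3 : ∀ x, ENNReal.ofReal (min (h x / (A ^ a * B ^ b)) 1).toReal =
        min (h x / (A ^ a * B ^ b)) 1 := fun x =>
      ENNReal.ofReal_toReal (ne_top_of_le_ne_top ENNReal.one_ne_top (min_le_right _ _))
    simp only [e1, e2, e3] at key
    have k2 : (∫⁻ x, f x / A) ^ a * (∫⁻ x, g x / B) ^ b ≤ ∫⁻ x, h x / (A ^ a * B ^ b) :=
      ((amgm ha hb hab).trans key).trans (lintegral_mono (fun x => min_le_left _ _))
    simp only [div_eq_mul_inv] at k2
    rw [lintegral_mul_const _ hf, lintegral_mul_const _ hg, lintegral_mul_const _ hh,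
      ENNReal.mul_rpow_of_nonneg _ _ ha.le, ENNReal.mul_rpow_of_nonneg _ _ hb.le] at k2
    calc (∫⁻ x, f x) ^ a * (∫⁻ x, g x) ^ b
        = (∫⁻ x, f x) ^ a * A⁻¹ ^ a * ((∫⁻ x, g x) ^ b * B⁻¹ ^ b) * (A ^ a * B ^ b) := by
          rw [ENNReal.inv_rpow, ENNReal.inv_rpow]
          have h1 : (A ^ a)⁻¹ * (A ^ a) = 1 := ENNReal.inv_mul_cancel
            (by simp [ENNReal.rpow_eq_zero_iff, hA0, hAt]) (ENNReal.rpow_ne_top_of_nonneg ha.le hAt)
          have h2 : (B ^ b)⁻¹ * (B ^ b) = 1 := ENNReal.inv_mul_cancel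
            (by simp [ENNReal.rpow_eq_zero_iff, hB0, hBt]) (ENNReal.rpow_ne_top_of_nonneg hb.le hBt)
          calc _ = (∫⁻ x, f x) ^ a * (∫⁻ x, g x) ^ b * 1 * 1 := by simp
            _ = (∫⁻ x, f x) ^ a * (∫⁻ x, g x) ^ b * ((A ^ a)⁻¹ * (A ^ a)) *
              ((B ^ b)⁻¹ * (B ^ b)) := by rw [h1, h2]
            _ = _ := by ring
      _ ≤ (∫⁻ x, h x) * (A ^ a * B ^ b)⁻¹ * (A ^ a * B ^ b) := by gcongr
      _ = ∫⁻ x, h x := by rw [mul_assoc, ENNReal.inv_mul_cancel hC0 hCt, mul_one]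
  · intro t ht
    by_cases ht0 : t < 0
    · exact ⟨0, lt_of_lt_of_le ht0 ENNReal.toReal_nonneg⟩
    push Not at ht0
    have h1 : ENNReal.ofReal t * A < A := by
      have : ENNReal.ofReal t < 1 := by simpa using ht
      calc ENNReal.ofReal t * A < 1 * A := ENNReal.mul_lt_mul_left hA0 hAt this
        _ = A := one_mul A
    obtain ⟨x, hx⟩ := lt_iSup_iff.mp (h1.trans_eq hA)
    refine ⟨x, ?_⟩
    rw [← ENNReal.ofReal_lt_iff_lt_toReal ht0 (ne_top_of_le_ne_top ENNReal.one_ne_top (hf1 x))]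
    exact (ENNReal.lt_div_iff_mul_lt (Or.inl hA0) (Or.inl hAt)).mpr hx
  · intro t ht
    by_cases ht0 : t < 0
    · exact ⟨0, lt_of_lt_of_le ht0 ENNReal.toReal_nonneg⟩
    push Not at ht0
    have h1 : ENNReal.ofReal t * B < B := by
      have : ENNReal.ofReal t < 1 := by simpa using ht
      calc ENNReal.ofReal t * B < 1 * B := ENNReal.mul_lt_mul_left hB0 hBt this
        _ = B := one_mul B
    obtain ⟨x, hx⟩ := lt_iSup_iff.mp (h1.trans_eq hB)
    refine ⟨x, ?_⟩
    rw [← ENNReal.ofReal_lt_iff_lt_toReal ht0 (ne_top_of_le_ne_top ENNReal.one_ne_top (hg1 x))]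
    exact (ENNReal.lt_div_iff_mul_lt (Or.inl hB0) (Or.inl hBt)).mpr hx
  · intro x y
    rw [ENNReal.toReal_rpow, ENNReal.toReal_rpow, ← ENNReal.toReal_mul]
    apply ENNReal.toReal_mono (ne_top_of_le_ne_top ENNReal.one_ne_top (min_le_right _ _))
    apply le_min
    · rw [ENNReal.div_rpow_of_nonneg _ _ ha.le, ENNReal.div_rpow_of_nonneg _ _ hb.le]
      rw [ENNReal.le_div_iff_mul_le (Or.inl hC0) (Or.inl hCt)]
      refine le_trans (le_of_eq ?_) (H x y)
      rw [div_eq_mul_inv, div_eq_mul_inv]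
      have h1 : (A ^ a)⁻¹ * (A ^ a) = 1 := ENNReal.inv_mul_cancel
        (by simp [ENNReal.rpow_eq_zero_iff, hA0, hAt]) (ENNReal.rpow_ne_top_of_nonneg ha.le hAt)
      have h2 : (B ^ b)⁻¹ * (B ^ b) = 1 := ENNReal.inv_mul_cancel
        (by simp [ENNReal.rpow_eq_zero_iff, hB0, hBt]) (ENNReal.rpow_ne_top_of_nonneg hb.le hBt)
      calc _ = f x ^ a * g y ^ b * ((A ^ a)⁻¹ * (A ^ a)) * ((B ^ b)⁻¹ * (B ^ b)) := by ring
        _ = _ := by rw [h1, h2]; simp
    · calc (f x / A) ^ a * (g y / B) ^ b ≤ 1 ^ a * 1 ^ b := by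
            gcongr
            · exact hf1 x
            · exact hg1 y
        _ = 1 := by simp

/-- **Prekopa-Leindler inequality** on the line -/
theorem pl1 {f g h : ℝ → ℝ≥0∞} {a b : ℝ} (ha : 0 < a) (hb : 0 < b) (hab : a + b = 1)
    (hf : Measurable f) (hg : Measurable g) (hh : Measurable h)
    (H : ∀ x y, f x ^ a * g y ^ b ≤ h (a * x + b * y)) :
    (∫⁻ x, f x) ^ a * (∫⁻ x, g x) ^ b ≤ ∫⁻ x, h x := by
  have key : ∀ n : ℕ, (∫⁻ x, min (f x) n) ^ a * (∫⁻ x, min (g x) n) ^ b ≤ ∫⁻ x, h x := by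
    intro n
    apply pl_bdd ha hb hab (by fun_prop) (by fun_prop) hh (M := (n : ℝ≥0∞)) (by simp)
      (fun x => min_le_right _ _) (fun x => min_le_right _ _)
    intro x y
    refine le_trans ?_ (H x y)
    gcongr
    · exact min_le_left _ _
    · exact min_le_left _ _
  have lim : ∀ u : ℝ → ℝ≥0∞, Measurable u →
      Filter.Tendsto (fun n : ℕ => ∫⁻ x, min (u x) n) Filter.atTop (nhds (∫⁻ x, u x)) := by
    intro u hu
    apply lintegral_tendsto_of_tendsto_of_monotone
    · intro n; fun_prop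
    · filter_upwards with x
      intro m n hmn
      simp only
      gcongr
    · filter_upwards with x
      have : Filter.Tendsto (fun n : ℕ => min (u x) (n : ℝ≥0∞)) Filter.atTop
          (nhds (min (u x) ∞)) :=
        tendsto_const_nhds.min ENNReal.tendsto_nat_nhds_top
      simpa using this
  by_cases h1 : ∫⁻ x, f x = 0
  · simp [h1, ENNReal.zero_rpow_of_pos ha]
  by_cases h2 : ∫⁻ x, g x = 0
  · simp [h2, ENNReal.zero_rpow_of_pos hb]
  have t1 := (ENNReal.continuous_rpow_const (y := a)).continuousAt.tendsto.comp (lim f hf)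
  have t2 := (ENNReal.continuous_rpow_const (y := b)).continuousAt.tendsto.comp (lim g hg)
  have t3 := ENNReal.Tendsto.mul t1 (Or.inl (by simp [ENNReal.rpow_eq_zero_iff, h1]; intro; linarith)) t2
    (Or.inl (by simp [ENNReal.rpow_eq_zero_iff, h2]; intro; linarith))
  exact le_of_tendsto t3 (Filter.Eventually.of_forall key)

lemma lintegral_exp (φ : ℝ → ℝ≥0∞) :
    ∫⁻ u, φ (Real.exp u) * ENNReal.ofReal (Real.exp u) = ∫⁻ s in Ioi 0, φ s := by
  have := lintegral_image_eq_lintegral_abs_deriv_mul (s := univ) (f := Real.exp) (f' := Real.exp)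
    MeasurableSet.univ (fun x _ => (Real.hasDerivAt_exp x).hasDerivWithinAt)
    Real.exp_injective.injOn φ
  rw [image_univ, Real.range_exp] at this
  rw [this, Measure.restrict_univ]
  congr 1
  ext u
  rw [abs_of_pos (Real.exp_pos u), mul_comm]

/-- multiplicative Prekopa-Leindler inequality on the half line -/
theorem mulPL {φ ψ h : ℝ → ℝ≥0∞} (hφ : Measurable φ) (hψ : Measurable ψ) (hh : Measurable h)
    (H : ∀ s > 0, ∀ t > 0, φ s * ψ t ≤ h (Real.sqrt (s * t)) ^ 2) :
    (∫⁻ s in Ioi 0, φ s) * (∫⁻ t in Ioi 0, ψ t) ≤ (∫⁻ r in Ioi 0, h r) ^ 2 := by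
  have key := pl1 (f := fun u => φ (Real.exp u) * ENNReal.ofReal (Real.exp u))
    (g := fun u => ψ (Real.exp u) * ENNReal.ofReal (Real.exp u))
    (h := fun u => h (Real.exp u) * ENNReal.ofReal (Real.exp u)) (a := 1 / 2) (b := 1 / 2)
    (by norm_num) (by norm_num) (by norm_num) (by fun_prop) (by fun_prop) (by fun_prop) ?_
  · rw [lintegral_exp, lintegral_exp, lintegral_exp] at key
    calc (∫⁻ s in Ioi 0, φ s) * (∫⁻ t in Ioi 0, ψ t)
        = ((∫⁻ s in Ioi 0, φ s) ^ (1 / 2 : ℝ) * (∫⁻ t in Ioi 0, ψ t) ^ (1 / 2 : ℝ)) ^ 2 := by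
          rw [mul_pow, ← ENNReal.rpow_natCast, ← ENNReal.rpow_natCast, ← ENNReal.rpow_mul,
            ← ENNReal.rpow_mul]
          norm_num
      _ ≤ _ := by gcongr
  · intro x y
    have e0 : Real.exp (1 / 2 * x + 1 / 2 * y) = Real.sqrt (Real.exp x * Real.exp y) := by
      rw [← Real.exp_add, Real.sqrt_eq_rpow, ← Real.exp_mul]
      congr 1; ring
    have h1 := H (Real.exp x) (Real.exp_pos x) (Real.exp y) (Real.exp_pos y)
    calc (φ (Real.exp x) * ENNReal.ofReal (Real.exp x)) ^ (1 / 2 : ℝ) *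
          (ψ (Real.exp y) * ENNReal.ofReal (Real.exp y)) ^ (1 / 2 : ℝ)
        = ((φ (Real.exp x) * ψ (Real.exp y)) *
            ENNReal.ofReal (Real.exp x * Real.exp y)) ^ (1 / 2 : ℝ) := by
          rw [← ENNReal.mul_rpow_of_nonneg _ _ (by norm_num),
            ENNReal.ofReal_mul (Real.exp_pos x).le]
          congr 1; ring
      _ ≤ (h (Real.sqrt (Real.exp x * Real.exp y)) ^ 2 *
            ENNReal.ofReal (Real.sqrt (Real.exp x * Real.exp y)) ^ 2) ^ (1 / 2 : ℝ) := by
          rw [← ENNReal.ofReal_pow (Real.sqrt_nonneg _),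
            Real.sq_sqrt (by positivity)]
          gcongr
      _ = h (Real.exp (1 / 2 * x + 1 / 2 * y)) *
            ENNReal.ofReal (Real.exp (1 / 2 * x + 1 / 2 * y)) := by
          rw [← mul_pow, ← ENNReal.rpow_natCast, ← ENNReal.rpow_mul, e0]
          norm_num

end Pool.Agent.H12.San
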