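import Pool.Agent.H12.San.PL1

/-! Prekopa-Leindler inequality in `R^n`. -/

open MeasureTheory Set
open scoped ENNReal

namespace Pool.Agent.H12.San

/-- **Prekopa-Leindler inequality** in `R^n` -/
theorem pln (n : ℕ) {a b : ℝ} (ha : 0 < a) (hb : 0 < b) (hab : a + b = 1) :
    ∀ {f g h : (Fin n → ℝ) → ℝ≥0∞}, Measurable f → Measurable g → Measurable h →
    (∀ x y, f x ^ a * g y ^ b ≤ h (a • x + b • y)) →
    (∫⁻ x, f x) ^ a * (∫⁻ x, g x) ^ b ≤ ∫⁻ x, h x := by
  induction n with
  | zero =>
    intro f g h hf hg hh H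
    have e : ∀ u : (Fin 0 → ℝ) → ℝ≥0∞, ∫⁻ x, u x = u 0 := by
      intro u
      have h1 : (volume : Measure (Fin 0 → ℝ)) univ = 1 := by
        rw [volume_pi, Measure.pi_univ]; simp
      have h2 : ∀ x : Fin 0 → ℝ, u x = u 0 := fun x => by rw [Subsingleton.elim x 0]
      simp only [h2, lintegral_const, h1, mul_one]
    rw [e, e, e]
    have := H 0 0
    simpa using this
  | succ n ih =>
    intro f g h hf hg hh H
    set e := MeasurableEquiv.piFinSuccAbove (fun _ : Fin (n + 1) => ℝ) 0 with he
    have mp : MeasurePreserving e volume volume :=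
      volume_preserving_piFinSuccAbove (fun _ : Fin (n + 1) => ℝ) 0
    have mps : MeasurePreserving e.symm volume volume := mp.symm e
    have es0 : ∀ p : ℝ × (Fin n → ℝ), e.symm p 0 = p.1 := fun p => rfl
    have es1 : ∀ (p : ℝ × (Fin n → ℝ)) (i : Fin n), e.symm p i.succ = p.2 i := fun p i => by
      simp [he, MeasurableEquiv.piFinSuccAbove, Fin.insertNthEquiv]
    have ecomb : ∀ (s t : ℝ) (x y : Fin n → ℝ), a • e.symm (s, x) + b • e.symm (t, y) =
        e.symm (a * s + b * t, a • x + b • y) := by
      intro s t x y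
      ext i
      refine Fin.cases ?_ (fun j => ?_) i
      · simp [es0]
      · simp [es1]
    have i1 : ∀ u : (Fin (n + 1) → ℝ) → ℝ≥0∞, Measurable u →
        ∫⁻ x, u x = ∫⁻ s, ∫⁻ x, u (e.symm (s, x)) := by
      intro u hu
      rw [← mps.lintegral_comp hu, Measure.volume_eq_prod]
      exact lintegral_prod _ (hu.comp e.symm.measurable).aemeasurable
    have sm : ∀ u : (Fin (n + 1) → ℝ) → ℝ≥0∞, Measurable u →
        Measurable (fun s : ℝ => ∫⁻ x, u (e.symm (s, x))) := by
      intro u hu
      exact (hu.comp e.symm.measurable).lintegral_prod_right'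
    rw [i1 f hf, i1 g hg, i1 h hh]
    apply pl1 ha hb hab (sm f hf) (sm g hg) (sm h hh)
    intro s t
    apply ih
    · exact hf.comp (e.symm.measurable.comp measurable_prodMk_left)
    · exact hg.comp (e.symm.measurable.comp measurable_prodMk_left)
    · exact hh.comp (e.symm.measurable.comp measurable_prodMk_left)
    · intro x y
      rw [← ecomb]
      exact H _ _

/-- Brunn-Minkowski inequality (multiplicative form) in Euclidean space -/
theorem bm_euc {n : ℕ} {a b : ℝ} (ha : 0 < a) (hb : 0 < b) (hab : a + b = 1)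
    {A B C : Set (EuclideanSpace ℝ (Fin n))} (hA : MeasurableSet A) (hB : MeasurableSet B)
    (hC : MeasurableSet C) (H : ∀ x ∈ A, ∀ y ∈ B, a • x + b • y ∈ C) :
    (volume A) ^ a * (volume B) ^ b ≤ volume C := by
  have mp := PiLp.volume_preserving_toLp (Fin n)
  have e : ∀ S : Set (EuclideanSpace ℝ (Fin n)), MeasurableSet S → volume S =
      ∫⁻ x : Fin n → ℝ, (WithLp.toLp 2 ⁻¹' S).indicator (fun _ => 1) x := by
    intro S hS
    rw [lintegral_indicator (mp.measurable hS)]
    simp only [lintegral_const, one_mul, Measure.restrict_apply_univ]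
    exact (mp.measure_preimage hS.nullMeasurableSet).symm
  rw [e A hA, e B hB, e C hC]
  apply pln n ha hb hab
  · exact measurable_const.indicator (mp.measurable hA)
  · exact measurable_const.indicator (mp.measurable hB)
  · exact measurable_const.indicator (mp.measurable hC)
  · intro x y
    by_cases hx : x ∈ (WithLp.toLp 2 ⁻¹' A)
    · by_cases hy : y ∈ (WithLp.toLp 2 ⁻¹' B)
      · have hz : a • x + b • y ∈ (WithLp.toLp 2 ⁻¹' C) := H _ hx _ hy
        rw [indicator_of_mem hx, indicator_of_mem hy, indicator_of_mem hz]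
        simp
      · rw [indicator_of_notMem hy, ENNReal.zero_rpow_of_pos hb, mul_zero]
        exact zero_le
    · rw [indicator_of_notMem hx, ENNReal.zero_rpow_of_pos ha, zero_mul]
      exact zero_le

end Pool.Agent.H12.San
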