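import Pool.Agent.H12.San.Chain

/-! The chain is an odd 1-Lipschitz image of a Gaussian vector; Santalo inequality for `e^{-W}`. -/

open MeasureTheory Set
open scoped ENNReal RealInnerProductSpace

namespace Pool.Agent.H12.San

universe u

variable {E : Type u} [NormedAddCommGroup E] [InnerProductSpace ℝ E] [FiniteDimensional ℝ E]
  [MeasurableSpace E] [BorelSpace E]

variable {W : E → ℝ} {D : E → E} {a L : ℝ}

omit [FiniteDimensional ℝ E] [MeasurableSpace E] [BorelSpace E] in
lemma nx_neg (hd : Drift W D a L) (h : ℝ) (p : E × E) : nx D h (-p) = -nx D h p := by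
  simp only [nx, Prod.fst_neg, Prod.snd_neg, hd.odd]
  module

theorem exists_rep (hd : Drift W D a L) {h : ℝ} (h0 : 0 ≤ h) (hL : h ^ 2 / 2 * L ≤ 1)
    (hr : h ^ 2 / 2 * a ≤ 1) (hc : (1 - h ^ 2 / 2 * a) ^ 2 + h ^ 2 ≤ 1) (N : ℕ) :
    ∃ (F : Type u) (_ : NormedAddCommGroup F) (_ : InnerProductSpace ℝ F)
      (_ : FiniteDimensional ℝ F) (_ : MeasurableSpace F) (_ : BorelSpace F) (Ξ : F → E),
      (∀ u, Ξ (-u) = -Ξ u) ∧ (∀ u w, ‖Ξ u - Ξ w‖ ≤ ‖u - w‖) ∧
      ∀ (φ : E → ℝ) (K B : ℝ), LB φ K B →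
        ∫ u, φ (Ξ u) * gs u = (∫ u : F, gs u) * ((Pk D h)^[N] φ 0) := by
  induction N with
  | zero =>
    refine ⟨E, inferInstance, inferInstance, inferInstance, inferInstance, inferInstance,
      fun _ => 0, by simp, by simp, ?_⟩
    intro φ K B _
    simp only [Function.iterate_zero, id]
    rw [integral_const_mul, mul_comm]
  | succ N ih =>
    obtain ⟨F, i1, i2, i3, i4, i5, Ξ, hodd, hlip, hint⟩ := ih
    have Ξc : Continuous Ξ := by
      have : LipschitzWith 1 Ξ := LipschitzWith.of_dist_le_mul (fun x y => by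
        rw [dist_eq_norm, dist_eq_norm]
        simpa using hlip x y)
      exact this.continuous
    have nc := nx_cont hd.contD h
    refine ⟨WithLp 2 (F × E), inferInstance, inferInstance, inferInstance, inferInstance,
      inferInstance, fun w => nx D h (Ξ w.fst, w.snd), ?_, ?_, ?_⟩
    · intro w
      have : (Ξ (-w).fst, (-w).snd) = -(Ξ w.fst, w.snd) := by
        rw [WithLp.neg_fst, WithLp.neg_snd, hodd]; rfl
      simp only [this]
      rw [nx_neg hd]
    · intro w w'
      have e1 : nx D h (Ξ w.fst, w.snd) - nx D h (Ξ w'.fst, w'.snd) =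
          (nx D h (Ξ w.fst, w.snd) - nx D h (Ξ w'.fst, w.snd)) + h • (w.snd - w'.snd) := by
        simp only [nx]; module
      set α := 1 - h ^ 2 / 2 * a with hα
      have α0 : 0 ≤ α := by linarith
      have e2 : ‖nx D h (Ξ w.fst, w.snd) - nx D h (Ξ w'.fst, w'.snd)‖ ≤
          α * ‖(w - w').fst‖ + h * ‖(w - w').snd‖ := by
        rw [e1]
        refine (norm_add_le _ _).trans ?_
        rw [norm_smul, Real.norm_of_nonneg h0]
        apply add_le_add
        · refine (hd.nx_con hL _ _ _).trans ?_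
          exact mul_le_mul_of_nonneg_left (hlip _ _) α0
        · exact le_refl _
      have e3 : ‖w - w'‖ ^ 2 = ‖(w - w').fst‖ ^ 2 + ‖(w - w').snd‖ ^ 2 :=
        WithLp.prod_norm_sq_eq_of_L2 _
      have e4 : (α * ‖(w - w').fst‖ + h * ‖(w - w').snd‖) ^ 2 ≤ ‖w - w'‖ ^ 2 := by
        rw [e3]
        have s1 := sq_nonneg (h * ‖(w - w').fst‖ - α * ‖(w - w').snd‖)
        have s2 : 0 ≤ (1 - (α ^ 2 + h ^ 2)) * (‖(w - w').fst‖ ^ 2 + ‖(w - w').snd‖ ^ 2) := by
          apply mul_nonneg _ (by positivity)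
          linarith
        nlinarith
      refine e2.trans ?_
      exact (abs_le_of_sq_le_sq' e4 (norm_nonneg _)).2
    · intro φ K B hφ
      have mp := WithLp.volume_preserving_ofLp F E
      have hP := Pk_LB hd hL hr hφ
      have φc := hφ.cont
      have gsi := (gs_int (F := F)).mul_prod (gs_int (F := E))
      have gsw : ∀ w : WithLp 2 (F × E), gs w = gs w.fst * gs w.snd := by
        intro w
        rw [gs, gs, gs, ← Real.exp_add, WithLp.prod_norm_sq_eq_of_L2]
        congr 1; ring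
      have emb : MeasurableEmbedding (WithLp.ofLp (p := 2) (V := F × E)) :=
        (MeasurableEquiv.toLp 2 (F × E)).symm.measurableEmbedding
      have t1 : ∫ w : WithLp 2 (F × E), φ (nx D h (Ξ w.fst, w.snd)) * gs w =
          ∫ p : F × E, φ (nx D h (Ξ p.1, p.2)) * (gs p.1 * gs p.2) := by
        rw [← mp.integral_comp emb]
        congr 1
        ext w
        rw [gsw]
        rfl
      have t2 : ∫ w : WithLp 2 (F × E), gs w = (∫ u : F, gs u) * ∫ g : E, gs g := by
        rw [← integral_prod_mul, ← Measure.volume_eq_prod, ← mp.integral_comp emb]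
        congr 1
        ext w
        rw [gsw]
        rfl
      have j : Integrable (fun p : F × E => φ (nx D h (Ξ p.1, p.2)) * (gs p.1 * gs p.2)) := by
        refine (gsi.const_mul B).mono' ?_ (Filter.Eventually.of_forall (fun p => ?_))
        · apply Continuous.aestronglyMeasurable
          unfold gs
          have c1 : Continuous (fun p : F × E => nx D h (Ξ p.1, p.2)) :=
            nc.comp ((Ξc.comp continuous_fst).prodMk continuous_snd)
          fun_prop
        · rw [norm_mul, Real.norm_eq_abs, Real.norm_eq_abs, abs_of_nonneg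
            (mul_nonneg (gs_pos _).le (gs_pos _).le)]
          exact mul_le_mul_of_nonneg_right (hφ.bd _) (mul_nonneg (gs_pos _).le (gs_pos _).le)
      rw [t1, t2, Function.iterate_succ, Function.comp, Measure.volume_eq_prod,
        integral_prod _ (by rw [← Measure.volume_eq_prod]; exact j)]
      have G := G_pos E
      have t3 : ∀ u : F, ∫ g : E, φ (nx D h (Ξ u, g)) * (gs u * gs g) =
          (∫ g : E, gs g) * (Pk D h φ (Ξ u) * gs u) := by
        intro u
        have : ∀ g : E, φ (nx D h (Ξ u, g)) * (gs u * gs g) =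
          gs u * (φ (nx D h (Ξ u, g)) * gs g) := fun g => by ring
        simp only [this]
        rw [integral_const_mul, Pk]
        field_simp
      simp only [t3]
      rw [integral_const_mul, hint _ _ _ hP]
      ring

/-- the law of the chain satisfies the Santalo inequality -/
theorem chain_san (hd : Drift W D a L) {h : ℝ} (h0 : 0 ≤ h) (hL : h ^ 2 / 2 * L ≤ 1)
    (hr : h ^ 2 / 2 * a ≤ 1) (hc : (1 - h ^ 2 / 2 * a) ^ 2 + h ^ 2 ≤ 1) (N : ℕ)
    {f g : E → ℝ} {K B : ℝ} (hf : LB f K B) (hg : LB g K B) (f0 : ∀ x, 0 ≤ f x)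
    (g0 : ∀ x, 0 ≤ g x) (ev : ∀ x, f (-x) = f x)
    (H : ∀ x y, f x * g y ≤ Real.exp (‖x - y‖ ^ 2 / 2)) :
    (Pk D h)^[N] f 0 * (Pk D h)^[N] g 0 ≤ 1 := by
  obtain ⟨F, i1, i2, i3, i4, i5, Ξ, hodd, hlip, hint⟩ := exists_rep hd h0 hL hr hc N
  have Ξc : Continuous Ξ := by
    have : LipschitzWith 1 Ξ := LipschitzWith.of_dist_le_mul (fun x y => by
      rw [dist_eq_norm, dist_eq_norm]
      simpa using hlip x y)
    exact this.continuous
  have key := sanF (F := F) (f := fun u => f (Ξ u)) (g := fun u => g (Ξ u)) (C := B)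
    (hf.cont.comp Ξc).measurable (hg.cont.comp Ξc).measurable (fun u => f0 _) (fun u => g0 _)
    (fun u => (le_abs_self _).trans (hf.bd _)) (fun u => (le_abs_self _).trans (hg.bd _))
    (fun u => by rw [hodd, ev]) (fun u w => by
      refine (H _ _).trans ?_
      apply Real.exp_le_exp.mpr
      have := hlip u w
      gcongr)
  rw [hint f K B hf, hint g K B hg] at key
  have G := G_pos F
  have G2 : 0 < (∫ u : F, gs u) ^ 2 := by positivity
  have e : (∫ u : F, gs u) * (Pk D h)^[N] f 0 * ((∫ u : F, gs u) * (Pk D h)^[N] g 0) =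
      ((Pk D h)^[N] f 0 * (Pk D h)^[N] g 0) * (∫ u : F, gs u) ^ 2 := by ring
  rw [e] at key
  exact le_of_mul_le_mul_right (by linarith) G2

/-- **Santalo inequality with the weight `e^{-W}`** -/
theorem san_W (hd : Drift W D a L) {f g : E → ℝ} {K B : ℝ} (hf : LB f K B) (hg : LB g K B)
    (f0 : ∀ x, 0 ≤ f x) (g0 : ∀ x, 0 ≤ g x) (ev : ∀ x, f (-x) = f x)
    (H : ∀ x y, f x * g y ≤ Real.exp (‖x - y‖ ^ 2 / 2)) :
    (∫ x, f x * Real.exp (-W x)) * (∫ x, g x * Real.exp (-W x)) ≤
      (∫ x, Real.exp (-W x)) ^ 2 := by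
  have ha := hd.ha
  have hL := hd.hL
  set Z := ∫ x, Real.exp (-W x) with hZ
  set m1 := ∫ x : E, ‖x‖ * gs x
  set G := ∫ g : E, gs g with hG
  have G0 : 0 < G := G_pos E
  -- admissible step sizes
  have adm : ∀ᶠ h : ℝ in nhdsWithin 0 (Ioi 0), h ≤ 1 ∧ h ^ 2 / 2 * L ≤ 1 ∧ h ^ 2 / 2 * a < 1 ∧
      (1 - h ^ 2 / 2 * a) ^ 2 + h ^ 2 ≤ 1 := by
    have c1 : Filter.Tendsto (fun h : ℝ => h) (nhdsWithin 0 (Ioi 0)) (nhds 0) :=
      tendsto_nhdsWithin_of_tendsto_nhds Filter.tendsto_id
    have c2 : Filter.Tendsto (fun h : ℝ => h ^ 2 / 2 * L) (nhdsWithin 0 (Ioi 0)) (nhds 0) := by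
      have := ((c1.pow 2).div_const 2).mul_const L
      simpa using this
    have c3 : Filter.Tendsto (fun h : ℝ => h ^ 2 / 2 * a) (nhdsWithin 0 (Ioi 0)) (nhds 0) := by
      have := ((c1.pow 2).div_const 2).mul_const a
      simpa using this
    have c4 : Filter.Tendsto (fun h : ℝ => h ^ 2 * a ^ 2 / 4) (nhdsWithin 0 (Ioi 0)) (nhds 0) := by
      have := ((c1.pow 2).mul_const (a ^ 2)).div_const 4
      simpa using this
    filter_upwards [c1.eventually (ge_mem_nhds (show (0:ℝ) < 1 by norm_num)),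
      c2.eventually (ge_mem_nhds (show (0:ℝ) < 1 by norm_num)),
      c3.eventually (gt_mem_nhds (show (0:ℝ) < 1 by norm_num)),
      c4.eventually (ge_mem_nhds (show (0:ℝ) < a - 1 by linarith)),
      self_mem_nhdsWithin] with h g1 g2 g3 g4 g5
    refine ⟨g1, g2, g3, ?_⟩
    have hp : (0:ℝ) < h := g5
    have : 0 ≤ h ^ 2 * (a - 1 - h ^ 2 * a ^ 2 / 4) := mul_nonneg (by positivity) (by linarith)
    nlinarith
  -- approximation
  have approx : ∀ ε > 0, ∃ A A' : ℝ, |A - ∫ x, f x * Real.exp (-W x)| ≤ ε ∧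
      |A' - ∫ x, g x * Real.exp (-W x)| ≤ ε ∧ A * A' ≤ Z ^ 2 := by
    intro ε hε
    have lim : Filter.Tendsto (fun h : ℝ => K * ((CK L * h * BQ E / G) * (2 / a)))
        (nhdsWithin 0 (Ioi 0)) (nhds 0) := by
      have c1 : Filter.Tendsto (fun h : ℝ => h) (nhdsWithin 0 (Ioi 0)) (nhds 0) :=
        tendsto_nhdsWithin_of_tendsto_nhds Filter.tendsto_id
      have := ((((c1.const_mul (CK L)).mul_const (BQ E)).div_const G).mul_const (2 / a)).const_mul K
      simpa using this
    obtain ⟨h, ⟨g1, g2, g3, g4⟩, g5, g6⟩ := (adm.and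
      ((lim.eventually (ge_mem_nhds (show (0:ℝ) < ε / 2 by linarith))).and
      self_mem_nhdsWithin)).exists
    have hp : (0:ℝ) < h := g6
    have r0 : 0 ≤ 1 - h ^ 2 / 2 * a := by linarith
    have r1 : 1 - h ^ 2 / 2 * a < 1 := by
      have : 0 < h ^ 2 / 2 * a := by positivity
      linarith
    have lim2 : Filter.Tendsto (fun N : ℕ => K * (1 - h ^ 2 / 2 * a) ^ N * m1) Filter.atTop
        (nhds 0) := by
      have := ((tendsto_pow_atTop_nhds_zero_of_lt_one r0 r1).const_mul K).mul_const m1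
      simpa using this
    obtain ⟨N, hN⟩ := (lim2.eventually (ge_mem_nhds (show (0:ℝ) < ε / 2 by linarith))).exists
    have e1 : K * ((CK L * h ^ 3 * BQ E / G) / (h ^ 2 / 2 * a)) =
        K * ((CK L * h * BQ E / G) * (2 / a)) := by
      have : h ≠ 0 := hp.ne'
      have : a ≠ 0 := by linarith
      field_simp
    have b1 := chain_lim hd hp g1 g2 g3.le N hf
    have b2 := chain_lim hd hp g1 g2 g3.le N hg
    rw [← hG, e1] at b1 b2
    refine ⟨_, _, b1.trans (by linarith), b2.trans (by linarith), ?_⟩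
    have s := chain_san hd hp.le g2 g3.le g4 N hf hg f0 g0 ev H
    have Z0 : 0 ≤ Z ^ 2 := sq_nonneg _
    calc (Pk D h)^[N] f 0 * Z * ((Pk D h)^[N] g 0 * Z)
        = ((Pk D h)^[N] f 0 * (Pk D h)^[N] g 0) * Z ^ 2 := by ring
      _ ≤ 1 * Z ^ 2 := by gcongr
      _ = Z ^ 2 := one_mul _
  have hk : ∀ k : ℕ, ∃ A A' : ℝ, |A - ∫ x, f x * Real.exp (-W x)| ≤ 1 / ((k:ℝ) + 1) ∧
      |A' - ∫ x, g x * Real.exp (-W x)| ≤ 1 / ((k:ℝ) + 1) ∧ A * A' ≤ Z ^ 2 :=
    fun k => approx _ (by positivity)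
  choose A A' h1 h2 h3 using hk
  have l0 : Filter.Tendsto (fun k : ℕ => 1 / ((k:ℝ) + 1)) Filter.atTop (nhds 0) :=
    tendsto_one_div_add_atTop_nhds_zero_nat
  have l1 : Filter.Tendsto A Filter.atTop (nhds (∫ x, f x * Real.exp (-W x))) := by
    rw [tendsto_iff_dist_tendsto_zero]
    exact squeeze_zero (fun k => dist_nonneg) (fun k => by
      rw [Real.dist_eq]; exact h1 k) l0
  have l2 : Filter.Tendsto A' Filter.atTop (nhds (∫ x, g x * Real.exp (-W x))) := by
    rw [tendsto_iff_dist_tendsto_zero]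
    exact squeeze_zero (fun k => dist_nonneg) (fun k => by
      rw [Real.dist_eq]; exact h2 k) l0
  exact le_of_tendsto (l1.mul l2) (Filter.Eventually.of_forall h3)

end Pool.Agent.H12.San
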