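import Pool.Agent.H12.San.Norm

/-! Functional Santalo inequality in every dimension. -/

open MeasureTheory Set
open scoped ENNReal

namespace Pool.Agent.H12.San

variable {m : ℕ}

/-- functional Santalo inequality after a suitable translation -/
def Pst (m : ℕ) : Prop := ∀ f : V m → ℝ, Good f → ∃ z : V m, ∀ g : V m → ℝ, Good g →
  (∀ x y, f (z + x) * g y ≤ Real.exp (-(x ⬝ᵥ y))) → (∫ x, f x) * (∫ y, g y) ≤ (2 * Real.pi) ^ m

lemma Cst_of_Pst (hP : Pst m) : Cst m := by
  intro f g hf hg f0 H
  obtain ⟨z, hz⟩ := hP g hg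
  -- truncated, tilted f
  set F : ℕ → V m → ℝ := fun R => indicator (Metric.closedBall 0 (R : ℝ))
    (fun x => f x * Real.exp (z ⬝ᵥ x)) with hF
  have dbd : ∀ (R : ℝ) (x : V m), x ∈ Metric.closedBall (0 : V m) R →
      z ⬝ᵥ x ≤ ∑ i, |z i| * R := by
    intro R x hx
    apply Finset.sum_le_sum
    intro i _
    have h1 : |x i| ≤ R := by
      have := norm_le_pi_norm x i
      rw [Real.norm_eq_abs] at this
      exact this.trans (by simpa using hx)
    calc z i * x i ≤ |z i * x i| := le_abs_self _
      _ = |z i| * |x i| := abs_mul _ _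
      _ ≤ _ := by gcongr
  have mexp : Measurable (fun x : V m => Real.exp (z ⬝ᵥ x)) := by
    change Measurable (fun x : V m => Real.exp (∑ i, z i * x i))
    fun_prop
  have mb : ∀ R : ℝ, MeasurableSet (Metric.closedBall (0 : V m) R) :=
    fun R => measurableSet_closedBall
  have Fg : ∀ R : ℕ, Good (F R) := by
    intro R
    have h1 : ∀ x, F R x ≤ Real.exp (∑ i, |z i| * R) * f x := by
      intro x
      simp only [hF]
      by_cases hx : x ∈ Metric.closedBall (0 : V m) (R : ℝ)
      · rw [indicator_of_mem hx, mul_comm]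
        exact mul_le_mul_of_nonneg_right (Real.exp_le_exp.mpr (dbd R x hx)) (hf.nn x)
      · rw [indicator_of_notMem hx]
        exact mul_nonneg (Real.exp_pos _).le (hf.nn x)
    have h0 : ∀ x, 0 ≤ F R x := by
      intro x
      exact indicator_nonneg (fun y _ => mul_nonneg (hf.nn y) (Real.exp_pos _).le) x
    have hm : Measurable (F R) := (hf.meas.mul mexp).indicator (mb R)
    refine ⟨hm, h0, ?_, ?_⟩
    · refine (hf.int.const_mul (Real.exp (∑ i, |z i| * R))).mono' hm.aestronglyMeasurable
        (Filter.Eventually.of_forall (fun x => ?_))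
      rw [Real.norm_eq_abs, abs_of_nonneg (h0 x)]
      exact h1 x
    · intro i
      refine ((hf.mom i).norm.const_mul (Real.exp (∑ i, |z i| * R))).mono'
        ((measurable_pi_apply i).mul hm).aestronglyMeasurable
        (Filter.Eventually.of_forall (fun x => ?_))
      rw [Real.norm_eq_abs, Real.norm_eq_abs, abs_mul, abs_mul, abs_of_nonneg (h0 x),
        abs_of_nonneg (hf.nn x)]
      calc |x i| * F R x ≤ |x i| * (Real.exp (∑ i, |z i| * R) * f x) :=
            mul_le_mul_of_nonneg_left (h1 x) (abs_nonneg _)
        _ = _ := by ring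
  have key : ∀ R : ℕ, (∫ y, g y) * (∫ x in Metric.closedBall (0 : V m) (R : ℝ),
      (f x + ∑ i, z i * (x i * f x))) ≤ (2 * Real.pi) ^ m := by
    intro R
    have h1 := hz (F R) (Fg R) ?_
    · refine le_trans (mul_le_mul_of_nonneg_left ?_ (integral_nonneg hg.nn)) h1
      simp only [hF]
      rw [integral_indicator (mb R)]
      apply setIntegral_mono_on
      · exact (hf.int.add (integrable_finsetSum _ (fun i _ => (hf.mom i).const_mul (z i)))).integrableOn
      · have := (Fg R).int
        simp only [hF] at this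
        exact (integrable_indicator_iff (mb R)).mp this
      · exact mb R
      · intro x _
        have h2 : z ⬝ᵥ x + 1 ≤ Real.exp (z ⬝ᵥ x) := Real.add_one_le_exp _
        have h3 : f x + ∑ i, z i * (x i * f x) = f x * (z ⬝ᵥ x + 1) := by
          simp only [dotProduct, mul_add, Finset.mul_sum, mul_one]
          rw [add_comm]
          congr 1
          apply Finset.sum_congr rfl
          intro i _
          ring
        rw [h3]
        exact mul_le_mul_of_nonneg_left h2 (hf.nn x)
    · intro x y
      simp only [hF]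
      by_cases hy : y ∈ Metric.closedBall (0 : V m) (R : ℝ)
      · rw [indicator_of_mem hy]
        have h2 := H y (z + x)
        calc g (z + x) * (f y * Real.exp (z ⬝ᵥ y)) = f y * g (z + x) * Real.exp (z ⬝ᵥ y) := by ring
          _ ≤ Real.exp (-(y ⬝ᵥ (z + x))) * Real.exp (z ⬝ᵥ y) := by gcongr
          _ = _ := by
            rw [← Real.exp_add, dotProduct_add, dotProduct_comm y z, dotProduct_comm y x]
            congr 1; ring
      · rw [indicator_of_notMem hy, mul_zero]
        exact (Real.exp_pos _).le
  have iall : Integrable (fun x : V m => f x + ∑ i, z i * (x i * f x)) :=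
    hf.int.add (integrable_finsetSum _ (fun i _ => (hf.mom i).const_mul (z i)))
  have lim : Filter.Tendsto (fun R : ℕ => ∫ x in Metric.closedBall (0 : V m) (R : ℝ),
      (f x + ∑ i, z i * (x i * f x))) Filter.atTop
      (nhds (∫ x, (f x + ∑ i, z i * (x i * f x)))) :=
    (aecover_closedBall tendsto_natCast_atTop_atTop).integral_tendsto_of_countably_generated iall
  have e : ∫ x, (f x + ∑ i, z i * (x i * f x)) = ∫ x, f x := by
    rw [integral_add hf.int (integrable_finsetSum _ (fun i _ => (hf.mom i).const_mul (z i))),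
      integral_finsetSum _ (fun i _ => (hf.mom i).const_mul (z i))]
    simp only [integral_const_mul, f0, mul_zero, Finset.sum_const_zero, add_zero]
  rw [e] at lim
  have := le_of_tendsto (lim.const_mul (∫ y, g y)) (Filter.Eventually.of_forall key)
  rw [mul_comm]
  exact this

lemma Pst_zero : Pst 0 := by
  intro f hf
  refine ⟨0, fun g hg H => ?_⟩
  have h := H 0 default
  have e : ∀ u : V 0 → ℝ, ∫ x, u x = u default := by
    intro u
    have h1 : (volume : Measure (V 0)) univ = 1 := by
      rw [volume_pi, Measure.pi_univ]; simp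
    rw [integral_unique, measureReal_def, h1]
    simp only [ENNReal.toReal_one, smul_eq_mul, one_mul]
    exact congrArg u (Subsingleton.elim _ _)
  rw [e f, e g]
  have e2 : (0 : V 0) + 0 = default := Subsingleton.elim _ _
  rw [e2] at h
  simpa using h

lemma Pst_succ (hC : Cst m) : Pst (m + 1) := by
  intro f hf
  set e := MeasurableEquiv.piFinSuccAbove (fun _ : Fin (m + 1) => ℝ) 0 with he
  have mp : MeasurePreserving e volume volume :=
    volume_preserving_piFinSuccAbove (fun _ : Fin (m + 1) => ℝ) 0
  have mps : MeasurePreserving e.symm volume volume := mp.symm e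
  have es0 : ∀ p : ℝ × V m, e.symm p 0 = p.1 := fun p => rfl
  have es1 : ∀ (p : ℝ × V m) (i : Fin m), e.symm p i.succ = p.2 i := fun p i => by
    simp [he, MeasurableEquiv.piFinSuccAbove, Fin.insertNthEquiv]
  have eadd : ∀ p q : ℝ × V m, e.symm (p + q) = e.symm p + e.symm q := by
    intro p q
    ext i
    refine Fin.cases ?_ (fun j => ?_) i
    · simp [es0]
    · simp [es1]
  have edot : ∀ p q : ℝ × V m, e.symm p ⬝ᵥ e.symm q = p.1 * q.1 + p.2 ⬝ᵥ q.2 := by
    intro p q
    simp only [dotProduct, Fin.sum_univ_succ, es0, es1]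
  have aux : ∀ u : V (m + 1) → ℝ, Good u → Measurable (fun p => u (e.symm p)) ∧
      (∀ p, 0 ≤ u (e.symm p)) ∧ Integrable (fun p => u (e.symm p)) ∧
      Integrable (fun p : ℝ × V m => p.1 * u (e.symm p)) ∧
      ∀ i, Integrable (fun p : ℝ × V m => p.2 i * u (e.symm p)) := by
    intro u hu
    refine ⟨hu.meas.comp e.symm.measurable, fun p => hu.nn _, mps.integrable_comp_of_integrable
      hu.int, ?_, fun i => ?_⟩
    · exact mps.integrable_comp_of_integrable (hu.mom 0)
    · have := mps.integrable_comp_of_integrable (hu.mom i.succ)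
      refine this.congr (Filter.Eventually.of_forall (fun p => ?_))
      simp only [Function.comp, es1]
  obtain ⟨a1, a2, a3, a4, a5⟩ := aux f hf
  obtain ⟨z, hz⟩ := P_prod hC a1 a2 a3 a4 a5
  refine ⟨e.symm z, fun g hg H => ?_⟩
  obtain ⟨b1, b2, b3, b4, b5⟩ := aux g hg
  have h := hz _ b1 b2 b3 b5 (fun p q => by
    rw [eadd, ← edot]
    exact H _ _)
  have i1 : ∀ u : V (m + 1) → ℝ, ∫ p, u (e.symm p) = ∫ x, u x := fun u =>
    mps.integral_comp e.symm.measurableEmbedding u
  rw [i1 f, i1 g] at h
  exact h

/-- **Functional Santalo inequality** -/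
theorem santalo (m : ℕ) : Cst m := by
  induction m with
  | zero => exact Cst_of_Pst Pst_zero
  | succ m ih => exact Cst_of_Pst (Pst_succ ih)

end Pool.Agent.H12.San
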