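import Pool.Agent.H12.San.Lim

/-! Volume inequality with a Gaussian right hand side. -/

open MeasureTheory Set
open scoped ENNReal RealInnerProductSpace

namespace Pool.Agent.H12.San

universe u

section aux

variable {E : Type u} [NormedAddCommGroup E]

/-- inner bump function of `A` -/
noncomputable def chi (A : Set E) (j : ℕ) (x : E) : ℝ := min 1 ((j:ℝ) * Metric.infDist x Aᶜ)

lemma chi_nn (A : Set E) (j : ℕ) (x : E) : 0 ≤ chi A j x :=
  le_min zero_le_one (mul_nonneg (Nat.cast_nonneg j) Metric.infDist_nonneg)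

lemma chi_le (A : Set E) (j : ℕ) (x : E) : chi A j x ≤ 1 := min_le_left _ _

lemma chi_zero {A : Set E} (j : ℕ) {x : E} (hx : x ∉ A) : chi A j x = 0 := by
  rw [chi, Metric.infDist_zero_of_mem (show x ∈ Aᶜ from hx)]
  simp

lemma chi_lip (A : Set E) (j : ℕ) (x y : E) : |chi A j x - chi A j y| ≤ j * ‖x - y‖ := by
  have h1 : |Metric.infDist x Aᶜ - Metric.infDist y Aᶜ| ≤ ‖x - y‖ := by
    have := (Metric.lipschitz_infDist_pt (Aᶜ : Set E)).dist_le_mul x y
    rw [Real.dist_eq, dist_eq_norm] at this
    simpa using this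
  calc |chi A j x - chi A j y| ≤ max |(1:ℝ) - 1| |(j:ℝ) * Metric.infDist x Aᶜ -
        (j:ℝ) * Metric.infDist y Aᶜ| := abs_min_sub_min_le_max _ _ _ _
    _ = (j:ℝ) * |Metric.infDist x Aᶜ - Metric.infDist y Aᶜ| := by
        rw [← mul_sub, abs_mul, sub_self, abs_zero, Nat.abs_cast]
        exact max_eq_right (by positivity)
    _ ≤ _ := by gcongr

lemma chi_even {A : Set E} (hs : ∀ x ∈ A, -x ∈ A) (j : ℕ) (x : E) : chi A j (-x) = chi A j x := by
  have e : Metric.infDist (-x) Aᶜ = Metric.infDist x Aᶜ := by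
    have h1 := Metric.infDist_image (Φ := fun y : E => -y) (t := Aᶜ) (x := x)
      (IsometryEquiv.neg E).isometry
    have h2 : (fun y : E => -y) '' Aᶜ = Aᶜ := by
      ext y
      simp only [image_neg_eq_neg, mem_neg, mem_compl_iff]
      constructor
      · intro h h'; exact h (hs y h')
      · intro h h'; exact h (by simpa using hs _ h')
    rw [h2] at h1
    exact h1
  rw [chi, chi, e]

/-- truncated inverse Gaussian density -/
noncomputable def psi (R : ℝ) (x : E) : ℝ := Real.exp ((min ‖x‖ R) ^ 2 / 2)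

lemma exp_lip {u v M : ℝ} (hu : u ≤ M) (hv : v ≤ M) :
    |Real.exp u - Real.exp v| ≤ Real.exp M * |u - v| := by
  wlog h : v ≤ u generalizing u v
  · rw [abs_sub_comm, abs_sub_comm u v]
    exact this hv hu (not_le.mp h).le
  rw [abs_of_nonneg (sub_nonneg.mpr (Real.exp_le_exp.mpr h)), abs_of_nonneg (sub_nonneg.mpr h)]
  have h1 := Real.add_one_le_exp (v - u)
  have h2 : Real.exp v = Real.exp u * Real.exp (v - u) := by rw [← Real.exp_add]; congr 1; ring
  have h3 := Real.exp_pos u
  calc Real.exp u - Real.exp v = Real.exp u * (1 - Real.exp (v - u)) := by rw [h2]; ring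
    _ ≤ Real.exp u * (u - v) := by
        apply mul_le_mul_of_nonneg_left _ h3.le
        linarith
    _ ≤ Real.exp M * (u - v) := by
        apply mul_le_mul_of_nonneg_right (Real.exp_le_exp.mpr hu)
        linarith

lemma psi_pos (R : ℝ) (x : E) : 0 < psi R x := Real.exp_pos _

lemma psi_le {R : ℝ} (hR : 0 ≤ R) (x : E) : psi R x ≤ Real.exp (R ^ 2 / 2) := by
  apply Real.exp_le_exp.mpr
  have h1 : 0 ≤ min ‖x‖ R := le_min (norm_nonneg _) hR
  have h2 : min ‖x‖ R ≤ R := min_le_right _ _
  nlinarith

lemma psi_lip {R : ℝ} (hR : 0 ≤ R) (x y : E) :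
    |psi R x - psi R y| ≤ (R * Real.exp (R ^ 2 / 2)) * ‖x - y‖ := by
  have h1 : ∀ z : E, 0 ≤ min ‖z‖ R := fun z => le_min (norm_nonneg _) hR
  have h2 : ∀ z : E, min ‖z‖ R ≤ R := fun z => min_le_right _ _
  have h3 : |min ‖x‖ R - min ‖y‖ R| ≤ ‖x - y‖ := by
    refine (abs_min_sub_min_le_max _ _ _ _).trans ?_
    rw [sub_self, abs_zero]
    apply max_le (abs_norm_sub_norm_le _ _) (norm_nonneg _)
  have h4 : |(min ‖x‖ R) ^ 2 / 2 - (min ‖y‖ R) ^ 2 / 2| ≤ R * ‖x - y‖ := by
    have e : (min ‖x‖ R) ^ 2 / 2 - (min ‖y‖ R) ^ 2 / 2 =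
        ((min ‖x‖ R + min ‖y‖ R) / 2) * (min ‖x‖ R - min ‖y‖ R) := by ring
    rw [e, abs_mul, abs_of_nonneg (by have := h1 x; have := h1 y; positivity)]
    apply mul_le_mul _ h3 (abs_nonneg _) hR
    have := h2 x; have := h2 y; linarith
  calc |psi R x - psi R y| ≤ Real.exp (R ^ 2 / 2) *
        |(min ‖x‖ R) ^ 2 / 2 - (min ‖y‖ R) ^ 2 / 2| := by
        apply exp_lip
        · have := h1 x; have := h2 x; nlinarith
        · have := h1 y; have := h2 y; nlinarith
    _ ≤ Real.exp (R ^ 2 / 2) * (R * ‖x - y‖) := by gcongr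
    _ = _ := by ring

/-- the test functions -/
lemma test_LB (A : Set E) (j : ℕ) {R c : ℝ} (hR : 0 ≤ R) (hc : 0 ≤ c) :
    LB (fun x => c * (chi A j x * psi R x))
      (c * (Real.exp (R ^ 2 / 2) * j + R * Real.exp (R ^ 2 / 2))) (c * Real.exp (R ^ 2 / 2)) := by
  refine ⟨?_, ?_, by positivity⟩
  · intro x y
    have e : c * (chi A j x * psi R x) - c * (chi A j y * psi R y) =
        c * (psi R x * (chi A j x - chi A j y) + chi A j y * (psi R x - psi R y)) := by ring
    rw [e, abs_mul, abs_of_nonneg hc]
    have h1 : |psi R x * (chi A j x - chi A j y)| ≤ Real.exp (R ^ 2 / 2) * (j * ‖x - y‖) := by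
      rw [abs_mul, abs_of_pos (psi_pos R x)]
      exact mul_le_mul (psi_le hR x) (chi_lip A j x y) (abs_nonneg _) (Real.exp_pos _).le
    have h2 : |chi A j y * (psi R x - psi R y)| ≤ 1 * ((R * Real.exp (R ^ 2 / 2)) * ‖x - y‖) := by
      rw [abs_mul, abs_of_nonneg (chi_nn A j y)]
      exact mul_le_mul (chi_le A j y) (psi_lip hR x y) (abs_nonneg _) zero_le_one
    calc c * |psi R x * (chi A j x - chi A j y) + chi A j y * (psi R x - psi R y)|
        ≤ c * (Real.exp (R ^ 2 / 2) * (j * ‖x - y‖) +
          1 * ((R * Real.exp (R ^ 2 / 2)) * ‖x - y‖)) := by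
          apply mul_le_mul_of_nonneg_left _ hc
          exact (abs_add_le _ _).trans (add_le_add h1 h2)
      _ = _ := by ring
  · intro x
    rw [abs_of_nonneg (mul_nonneg hc (mul_nonneg (chi_nn A j x) (psi_pos R x).le))]
    apply mul_le_mul_of_nonneg_left _ hc
    calc chi A j x * psi R x ≤ 1 * Real.exp (R ^ 2 / 2) :=
          mul_le_mul (chi_le A j x) (psi_le hR x) (psi_pos R x).le zero_le_one
      _ = _ := one_mul _

end aux

variable {E : Type u} [NormedAddCommGroup E] [InnerProductSpace ℝ E] [FiniteDimensional ℝ E]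
  [MeasurableSpace E] [BorelSpace E]

omit [InnerProductSpace ℝ E] [FiniteDimensional ℝ E] [MeasurableSpace E] [BorelSpace E] in
lemma chi_cont (A : Set E) (j : ℕ) : Continuous (chi A j) := by
  have := Metric.continuous_infDist_pt (Aᶜ : Set E)
  unfold chi
  fun_prop

lemma chi_lim [Nontrivial E] {T A : Set E} (hA : IsCompact A) (hAc : Convex ℝ A) :
    Filter.Tendsto (fun j : ℕ => ∫ x in T, chi A j x) Filter.atTop
      (nhds (volume.real (A ∩ T))) := by
  have hne : (Aᶜ : Set E).Nonempty := by
    rw [nonempty_compl]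
    intro h
    exact (noncompact_univ E) (h ▸ hA)
  have e0 : volume.real (A ∩ T) = ∫ x in T, (interior A).indicator (fun _ => (1:ℝ)) x := by
    rw [integral_indicator isOpen_interior.measurableSet, setIntegral_const, smul_eq_mul, mul_one,
      measureReal_restrict_apply isOpen_interior.measurableSet]
    have h1 : (interior A ∩ T : Set E) =ᵐ[volume] (A ∩ T : Set E) := by
      apply Filter.EventuallyEq.inter _ Filter.EventuallyEq.rfl
      have h2 : volume (frontier A) = 0 := hAc.addHaar_frontier volume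
      have h3 : ∀ᵐ x : E, x ∉ frontier A := measure_eq_zero_iff_ae_notMem.mp h2
      filter_upwards [h3] with x hx
      apply propext
      change x ∈ interior A ↔ x ∈ A
      constructor
      · intro h; exact interior_subset h
      · intro h
        by_contra h'
        exact hx ⟨subset_closure h, h'⟩
    rw [measureReal_congr h1]
  rw [e0]
  apply tendsto_integral_of_dominated_convergence (A.indicator (fun _ => (1:ℝ)))
  · intro j
    exact (chi_cont A j).aestronglyMeasurable
  · apply IntegrableOn.integrable_indicator _ hA.measurableSet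
    have : IntegrableOn (fun _ : E => (1:ℝ)) A volume := by
      simpa using hA.measure_lt_top
    exact this.mono_measure Measure.restrict_le_self
  · intro j
    refine Filter.Eventually.of_forall (fun x => ?_)
    rw [Real.norm_eq_abs, abs_of_nonneg (chi_nn A j x)]
    by_cases hx : x ∈ A
    · rw [indicator_of_mem hx]; exact chi_le A j x
    · rw [indicator_of_notMem hx, chi_zero j hx]
  · refine Filter.Eventually.of_forall (fun x => ?_)
    by_cases hx : x ∈ interior A
    · rw [indicator_of_mem hx]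
      have hd : 0 < Metric.infDist x Aᶜ := by
        rw [← Metric.infDist_pos_iff_notMem_closure hne, closure_compl] at *
        simpa using hx
      have l1 : Filter.Tendsto (fun j : ℕ => (j:ℝ) * Metric.infDist x Aᶜ) Filter.atTop
          Filter.atTop := tendsto_natCast_atTop_atTop.atTop_mul_const hd
      apply tendsto_const_nhds.congr'
      filter_upwards [l1.eventually_ge_atTop 1] with j hj
      rw [chi, min_eq_left hj]
    · rw [indicator_of_notMem hx]
      have : Metric.infDist x Aᶜ = 0 := by
        rw [← Metric.mem_closure_iff_infDist_zero hne, closure_compl]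
        exact hx
      simp [chi, this]

/-- Volume inequality with a Gaussian right hand side -/
theorem set_ineq [Nontrivial E] {T A B : Set E} (hT : IsClosed T) (hc : Convex ℝ T)
    (hne : T.Nonempty) (hs : ∀ x ∈ T, -x ∈ T) (hA : IsCompact A) (hAc : Convex ℝ A)
    (hAs : ∀ x ∈ A, -x ∈ A) (hB : IsCompact B) (hBc : Convex ℝ B) {τ : ℝ}
    (hAB : ∀ x ∈ A, ∀ y ∈ B, ⟪x, y⟫ ≤ τ) :
    volume.real (A ∩ T) * volume.real (B ∩ T) ≤ Real.exp τ * (∫ x in T, gs x) ^ 2 := by
  obtain ⟨R1, hR1⟩ := hA.isBounded.exists_norm_le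
  obtain ⟨R2, hR2⟩ := hB.isBounded.exists_norm_le
  set R := max 0 (max R1 R2) with hR
  have R0 : 0 ≤ R := le_max_left _ _
  have rA : ∀ x ∈ A, ‖x‖ ≤ R := fun x hx =>
    (hR1 x hx).trans ((le_max_left _ _).trans (le_max_right _ _))
  have rB : ∀ x ∈ B, ‖x‖ ≤ R := fun x hx =>
    (hR2 x hx).trans ((le_max_right _ _).trans (le_max_right _ _))
  set c := Real.exp (-(τ / 2)) with hcdef
  have c0 : 0 < c := Real.exp_pos _
  have ident : ∀ (S : Set E), (∀ x ∈ S, ‖x‖ ≤ R) → ∀ (j : ℕ) (x : E),
      c * (chi S j x * psi R x) * gs x = c * chi S j x := by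
    intro S hS j x
    by_cases hx : x ∈ S
    · have : psi R x * gs x = 1 := by
        rw [psi, gs, min_eq_left (hS x hx), ← Real.exp_add]
        have : ‖x‖ ^ 2 / 2 + -(‖x‖ ^ 2) / 2 = 0 := by ring
        rw [this, Real.exp_zero]
      calc c * (chi S j x * psi R x) * gs x = c * chi S j x * (psi R x * gs x) := by ring
        _ = _ := by rw [this, mul_one]
    · rw [chi_zero j hx]; ring
  have key : ∀ j : ℕ, (c * ∫ x in T, chi A j x) * (c * ∫ x in T, chi B j x) ≤
      (∫ x in T, gs x) ^ 2 := by
    intro j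
    have h := san_T hT hc hne hs (test_LB A j R0 c0.le) (test_LB B j R0 c0.le)
      (fun x => mul_nonneg c0.le (mul_nonneg (chi_nn A j x) (psi_pos R x).le))
      (fun x => mul_nonneg c0.le (mul_nonneg (chi_nn B j x) (psi_pos R x).le))
      (fun x => by rw [chi_even hAs]; simp [psi]) ?_
    · simp only [ident A rA j, ident B rB j] at h
      rw [integral_const_mul, integral_const_mul] at h
      exact h
    · intro x y
      by_cases hx : x ∈ A
      · by_cases hy : y ∈ B
        · have e1 : psi R x = Real.exp (‖x‖ ^ 2 / 2) := by rw [psi, min_eq_left (rA x hx)]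
          have e2 : psi R y = Real.exp (‖y‖ ^ 2 / 2) := by rw [psi, min_eq_left (rB y hy)]
          have h1 := chi_le A j x
          have h2 := chi_le B j y
          have h3 := chi_nn A j x
          have h4 := chi_nn B j y
          calc c * (chi A j x * psi R x) * (c * (chi B j y * psi R y))
              = (chi A j x * chi B j y) * (c * c * (psi R x * psi R y)) := by ring
            _ ≤ (1 * 1) * (c * c * (psi R x * psi R y)) := by
                have := psi_pos R x
                have := psi_pos R y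
                gcongr
            _ = Real.exp (-τ + ‖x‖ ^ 2 / 2 + ‖y‖ ^ 2 / 2) := by
                rw [e1, e2, hcdef, ← Real.exp_add, ← Real.exp_add, ← Real.exp_add]
                ring_nf
            _ ≤ Real.exp (‖x - y‖ ^ 2 / 2) := by
                apply Real.exp_le_exp.mpr
                rw [norm_sub_sq_real]
                have := hAB x hx y hy
                linarith
        · rw [chi_zero j hy]
          simpa using (Real.exp_pos _).le
      · rw [chi_zero j hx]
        simpa using (Real.exp_pos _).le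
  have l := ((chi_lim (T := T) hA hAc).const_mul c).mul ((chi_lim (T := T) hB hBc).const_mul c)
  have fin := le_of_tendsto l (Filter.Eventually.of_forall key)
  have ec : Real.exp τ * (c * c) = 1 := by
    rw [hcdef, ← Real.exp_add, ← Real.exp_add]
    have : τ + (-(τ / 2) + -(τ / 2)) = 0 := by ring
    rw [this, Real.exp_zero]
  calc volume.real (A ∩ T) * volume.real (B ∩ T)
      = (Real.exp τ * (c * c)) * (volume.real (A ∩ T) * volume.real (B ∩ T)) := by
        rw [ec, one_mul]
    _ = Real.exp τ * (c * volume.real (A ∩ T) * (c * volume.real (B ∩ T))) := by ring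
    _ ≤ _ := by gcongr

end Pool.Agent.H12.San
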