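import Pool.Agent.H12.San.PLn
import Pool.Agent.H12.San.SetI

/-! The volume of `rB ∩ T` and the Gaussian integral over `T`. -/

open MeasureTheory Set
open scoped ENNReal RealInnerProductSpace Pointwise

namespace Pool.Agent.H12.San

variable {n : ℕ}


/-- volume of `rB ∩ T` -/
noncomputable def HH (T : Set (EuclideanSpace ℝ (Fin n))) (r : ℝ) : ℝ :=
  volume.real (Metric.closedBall (0 : EuclideanSpace ℝ (Fin n)) r ∩ T)

lemma HH_nn (T : Set (EuclideanSpace ℝ (Fin n))) (r : ℝ) : 0 ≤ HH T r := measureReal_nonneg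

lemma fin_vol (T : Set (EuclideanSpace ℝ (Fin n))) (r : ℝ) : volume (Metric.closedBall (0 : EuclideanSpace ℝ (Fin n)) r ∩ T) ≠ ∞ :=
  ne_top_of_le_ne_top (isCompact_closedBall (0 : EuclideanSpace ℝ (Fin n)) r).measure_lt_top.ne
    (measure_mono inter_subset_left)

lemma HH_mono (T : Set (EuclideanSpace ℝ (Fin n))) {r s : ℝ} (h : r ≤ s) : HH T r ≤ HH T s :=
  measureReal_mono (inter_subset_inter_left _ (Metric.closedBall_subset_closedBall h))
    (fin_vol T s)

lemma HH_pos {T : Set (EuclideanSpace ℝ (Fin n))} (h0 : (0 : EuclideanSpace ℝ (Fin n)) ∈ interior T) {r : ℝ} (hr : 0 < r) : 0 < HH T r := by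
  apply ENNReal.toReal_pos _ (fin_vol T r)
  apply ne_of_gt
  apply Measure.measure_pos_of_mem_nhds (μ := volume) (x := (0 : EuclideanSpace ℝ (Fin n)))
  exact Filter.inter_mem (Metric.closedBall_mem_nhds 0 hr) (mem_interior_iff_mem_nhds.mp h0)

lemma HH_logconc {T : Set (EuclideanSpace ℝ (Fin n))} (hT : IsClosed T) (hc : Convex ℝ T) {r s a b : ℝ}
    (ha : 0 < a) (hb : 0 < b) (hab : a + b = 1) :
    HH T r ^ a * HH T s ^ b ≤ HH T (a * r + b * s) := by
  have key := bm_euc (n := n) ha hb hab
    (A := Metric.closedBall 0 r ∩ T) (B := Metric.closedBall 0 s ∩ T)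
    (C := Metric.closedBall 0 (a * r + b * s) ∩ T)
    (Metric.isClosed_closedBall.measurableSet.inter hT.measurableSet)
    (Metric.isClosed_closedBall.measurableSet.inter hT.measurableSet)
    (Metric.isClosed_closedBall.measurableSet.inter hT.measurableSet) ?_
  · have := ENNReal.toReal_mono (fin_vol T _) key
    rw [ENNReal.toReal_mul, ← ENNReal.toReal_rpow, ← ENNReal.toReal_rpow] at this
    exact this
  · rintro x ⟨hx1, hx2⟩ y ⟨hy1, hy2⟩
    refine ⟨?_, hc hx2 hy2 ha.le hb.le hab⟩
    rw [mem_closedBall_zero_iff] at *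
    calc ‖a • x + b • y‖ ≤ ‖a • x‖ + ‖b • y‖ := norm_add_le _ _
      _ = a * ‖x‖ + b * ‖y‖ := by
          rw [norm_smul, norm_smul, Real.norm_of_nonneg ha.le, Real.norm_of_nonneg hb.le]
      _ ≤ _ := by gcongr

lemma HH_growth {T : Set (EuclideanSpace ℝ (Fin n))} (hc : Convex ℝ T) (h0 : (0 : EuclideanSpace ℝ (Fin n)) ∈ T) {s : ℝ} (hs : 1 ≤ s) :
    HH T s ≤ s ^ n * HH T 1 := by
  have s0 : 0 < s := by linarith
  have sub : Metric.closedBall (0 : EuclideanSpace ℝ (Fin n)) s ∩ T ⊆ s • (Metric.closedBall (0 : EuclideanSpace ℝ (Fin n)) 1 ∩ T) := by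
    rintro x ⟨hx1, hx2⟩
    rw [mem_smul_set_iff_inv_smul_mem₀ s0.ne']
    have hi : s⁻¹ ≤ 1 := inv_le_one_of_one_le₀ hs
    have hi0 : 0 ≤ s⁻¹ := by positivity
    refine ⟨?_, ?_⟩
    · rw [mem_closedBall_zero_iff] at *
      rw [norm_smul, Real.norm_of_nonneg hi0]
      calc s⁻¹ * ‖x‖ ≤ s⁻¹ * s := by gcongr
        _ = 1 := inv_mul_cancel₀ s0.ne'
    · have := hc hx2 h0 hi0 (sub_nonneg.mpr hi) (by ring)
      simpa using this
  have h1 : volume (s • (Metric.closedBall (0 : EuclideanSpace ℝ (Fin n)) 1 ∩ T)) =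
      ENNReal.ofReal (s ^ n) * volume (Metric.closedBall (0 : EuclideanSpace ℝ (Fin n)) 1 ∩ T) := by
    rw [Measure.addHaar_smul, finrank_euclideanSpace_fin, abs_of_pos (by positivity)]
  have h2 := measure_mono (μ := volume) sub
  rw [h1] at h2
  have h3 := ENNReal.toReal_mono (ENNReal.mul_ne_top ENNReal.ofReal_ne_top (fin_vol T 1)) h2
  rw [ENNReal.toReal_mul, ENNReal.toReal_ofReal (by positivity)] at h3
  exact h3

/-- a supergradient of `log HH` at `1` -/
lemma exists_slope {T : Set (EuclideanSpace ℝ (Fin n))} (hT : IsClosed T) (hc : Convex ℝ T)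
    (h0 : (0 : EuclideanSpace ℝ (Fin n)) ∈ interior T) :
    ∃ p : ℝ, 0 ≤ p ∧ p ≤ n ∧ ∀ r > 0, HH T r ≤ HH T 1 * Real.exp (p * (r - 1)) := by
  have h0' : (0 : EuclideanSpace ℝ (Fin n)) ∈ T := interior_subset h0
  set Lg : ℝ → ℝ := fun r => Real.log (HH T r) with hLg
  -- concavity
  have conc : ∀ r s, 0 < r → r < 1 → 1 < s →
      (Lg s - Lg 1) / (s - 1) ≤ (Lg 1 - Lg r) / (1 - r) := by
    intro r s hr hr1 hs
    have p1 := HH_pos h0 hr
    have p2 := HH_pos h0 (show (0:ℝ) < s by linarith)
    set a := (s - 1) / (s - r) with ha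
    set b := (1 - r) / (s - r) with hb
    have hsr : 0 < s - r := by linarith
    have a0 : 0 < a := div_pos (by linarith) hsr
    have b0 : 0 < b := div_pos (by linarith) hsr
    have hab : a + b = 1 := by rw [ha, hb]; field_simp; ring
    have e1 : a * r + b * s = 1 := by rw [ha, hb]; field_simp; ring
    have k := HH_logconc hT hc (r := r) (s := s) a0 b0 hab
    rw [e1] at k
    have k2 := Real.log_le_log (by positivity) k
    rw [Real.log_mul (by positivity) (by positivity), Real.log_rpow p1, Real.log_rpow p2] at k2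
    have k3 : (s - 1) * Lg r + (1 - r) * Lg s ≤ (s - r) * Lg 1 := by
      have e2 : (s - r) * (a * Lg r + b * Lg s) = (s - 1) * Lg r + (1 - r) * Lg s := by
        rw [ha, hb]; field_simp
      rw [← e2]
      exact mul_le_mul_of_nonneg_left k2 hsr.le
    rw [div_le_div_iff₀ (by linarith) (by linarith)]
    nlinarith
  have grow : ∀ s, 1 < s → (Lg s - Lg 1) / (s - 1) ≤ n := by
    intro s hs
    have p1 := HH_pos h0 (show (0:ℝ) < 1 by norm_num)
    have p2 := HH_pos h0 (show (0:ℝ) < s by linarith)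
    have k := Real.log_le_log p2 (HH_growth hc h0' hs.le)
    rw [Real.log_mul (by positivity) p1.ne', Real.log_pow] at k
    rw [div_le_iff₀ (by linarith)]
    have := Real.log_le_sub_one_of_pos (show (0:ℝ) < s by linarith)
    have h3 : (n:ℝ) * Real.log s ≤ n * (s - 1) := by gcongr
    simp only [hLg]
    linarith
  set S : Set ℝ := (fun s => (Lg s - Lg 1) / (s - 1)) '' Ioi 1 with hS
  have Sb : BddAbove S := ⟨n, by rintro _ ⟨s, hs, rfl⟩; exact grow s hs⟩
  have Sne : S.Nonempty := ⟨_, 2, by norm_num, rfl⟩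
  have mono : ∀ s, 1 < s → 0 ≤ (Lg s - Lg 1) / (s - 1) := by
    intro s hs
    have p1 := HH_pos h0 (show (0:ℝ) < 1 by norm_num)
    have k := Real.log_le_log p1 (HH_mono T hs.le)
    apply div_nonneg _ (by linarith)
    simp only [hLg]; linarith
  refine ⟨sSup S, ?_, ?_, ?_⟩
  · exact (mono 2 (by norm_num)).trans (le_csSup Sb ⟨2, by norm_num, rfl⟩)
  · apply csSup_le Sne
    rintro _ ⟨s, hs, rfl⟩
    exact grow s hs
  · intro r hr
    have p0 := HH_pos h0 hr
    have p1 := HH_pos h0 (show (0:ℝ) < 1 by norm_num)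
    have key : Lg r ≤ Lg 1 + sSup S * (r - 1) := by
      rcases lt_trichotomy r 1 with h | h | h
      · have k : sSup S ≤ (Lg 1 - Lg r) / (1 - r) := by
          apply csSup_le Sne
          rintro _ ⟨s, hs, rfl⟩
          exact conc r s hr h hs
        rw [le_div_iff₀ (by linarith)] at k
        linarith
      · rw [h]; simp
      · have k : (Lg r - Lg 1) / (r - 1) ≤ sSup S := le_csSup Sb ⟨r, h, rfl⟩
        rw [div_le_iff₀ (by linarith)] at k
        linarith
    calc HH T r = Real.exp (Lg r) := (Real.exp_log p0).symm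
      _ ≤ Real.exp (Lg 1 + sSup S * (r - 1)) := Real.exp_le_exp.mpr key
      _ = _ := by rw [Real.exp_add, Real.exp_log p1]

/-- the one dimensional integral -/
lemma one_dim {p : ℝ} (hp : 0 < p) :
    IntegrableOn (fun r : ℝ => p * r * Real.exp (-(p * (r - 1) ^ 2 / 2))) (Ioi 0) ∧
    ∫ r in Ioi (0:ℝ), p * r * Real.exp (-(p * (r - 1) ^ 2 / 2)) ≤
      Real.sqrt (2 * Real.pi * p) + 1 := by
  have e0 : ∀ r : ℝ, Real.exp (-(p * (r - 1) ^ 2 / 2)) = Real.exp (-(p / 2) * (r - 1) ^ 2) := by
    intro r; congr 1; ring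
  have g1 : Integrable (fun r : ℝ => Real.exp (-(p / 2) * (r - 1) ^ 2)) :=
    (integrable_exp_neg_mul_sq (b := p / 2) (by positivity)).comp_sub_right 1
  have g2 : Integrable (fun r : ℝ => (r - 1) * Real.exp (-(p / 2) * (r - 1) ^ 2)) :=
    (integrable_mul_exp_neg_mul_sq (b := p / 2) (by positivity)).comp_sub_right 1
  simp only [e0]
  have e1 : ∀ r : ℝ, p * r * Real.exp (-(p / 2) * (r - 1) ^ 2) =
      p * ((r - 1) * Real.exp (-(p / 2) * (r - 1) ^ 2)) +
        p * Real.exp (-(p / 2) * (r - 1) ^ 2) := fun r => by ring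
  simp only [e1]
  refine ⟨((g2.const_mul p).add (g1.const_mul p)).integrableOn, ?_⟩
  rw [integral_add (g2.const_mul p).integrableOn (g1.const_mul p).integrableOn]
  have i1 : ∫ r in Ioi (0:ℝ), p * ((r - 1) * Real.exp (-(p / 2) * (r - 1) ^ 2)) =
      Real.exp (-(p / 2)) := by
    have d : ∀ r ∈ Ici (0:ℝ), HasDerivAt (fun r : ℝ => -Real.exp (-(p / 2) * (r - 1) ^ 2))
        (p * ((r - 1) * Real.exp (-(p / 2) * (r - 1) ^ 2))) r := by
      intro r _
      have h1 : HasDerivAt (fun r : ℝ => -(p / 2) * (r - 1) ^ 2) (-(p / 2) * (2 * (r - 1))) r := by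
        have := (((hasDerivAt_id r).sub_const 1).pow 2).const_mul (-(p / 2))
        simpa using this
      have h2 := h1.exp.neg
      have e : p * ((r - 1) * Real.exp (-(p / 2) * (r - 1) ^ 2)) =
          -(Real.exp (-(p / 2) * (r - 1) ^ 2) * (-(p / 2) * (2 * (r - 1)))) := by ring
      rw [e]
      exact h2
    have l : Filter.Tendsto (fun r : ℝ => -Real.exp (-(p / 2) * (r - 1) ^ 2)) Filter.atTop
        (nhds 0) := by
      rw [← neg_zero]
      apply Filter.Tendsto.neg
      have h1 : Filter.Tendsto (fun r : ℝ => (p / 2) * (r - 1) ^ 2) Filter.atTop Filter.atTop := by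
        apply Filter.Tendsto.const_mul_atTop (by positivity)
        have := Filter.tendsto_pow_atTop (α := ℝ) (n := 2) (by norm_num)
        exact this.comp (Filter.tendsto_atTop_add_const_right _ (-1) Filter.tendsto_id)
      have h2 := Real.tendsto_exp_neg_atTop_nhds_zero.comp h1
      refine h2.congr (fun r => ?_)
      simp only [Function.comp]
      congr 1; ring
    rw [integral_Ioi_of_hasDerivAt_of_tendsto' d (g2.const_mul p).integrableOn l]
    simp
  have i2 : ∫ r in Ioi (0:ℝ), p * Real.exp (-(p / 2) * (r - 1) ^ 2) ≤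
      Real.sqrt (2 * Real.pi * p) := by
    calc ∫ r in Ioi (0:ℝ), p * Real.exp (-(p / 2) * (r - 1) ^ 2)
        ≤ ∫ r : ℝ, p * Real.exp (-(p / 2) * (r - 1) ^ 2) := by
          apply setIntegral_le_integral (g1.const_mul p)
          exact Filter.Eventually.of_forall (fun r => by positivity)
      _ = p * Real.sqrt (Real.pi / (p / 2)) := by
          rw [integral_const_mul, integral_sub_right_eq_self
            (fun r => Real.exp (-(p / 2) * r ^ 2)) 1, integral_gaussian]
      _ = Real.sqrt (2 * Real.pi * p) := by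
          nth_rewrite 1 [← Real.sqrt_sq hp.le]
          rw [← Real.sqrt_mul (by positivity)]
          congr 1
          field_simp
  have i3 : Real.exp (-(p / 2)) ≤ 1 := Real.exp_le_one_iff.mpr (by linarith)
  rw [i1]
  linarith

/-- Gaussian integral over `T` -/
lemma gauss_bound {T : Set (EuclideanSpace ℝ (Fin n))} {p : ℝ} (hp : 0 < p)
    (hH : ∀ r > 0, HH T r ≤ HH T 1 * Real.exp (p * (r - 1))) :
    ∫ x in T, Real.exp (-(p * ‖x‖ ^ 2 / 2)) ≤
      HH T 1 * Real.exp (-(p / 2)) * (Real.sqrt (2 * Real.pi * p) + 1) := by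
  obtain ⟨od1, od2⟩ := one_dim hp
  have H0 := HH_nn T 1
  have rhs0 : 0 ≤ HH T 1 * Real.exp (-(p / 2)) * (Real.sqrt (2 * Real.pi * p) + 1) := by
    positivity
  -- layer cake
  have wint : ∀ t : ℝ, 0 ≤ t → ENNReal.ofReal (Real.exp (-(p * t ^ 2 / 2))) =
      ∫⁻ r in Ioi t, ENNReal.ofReal (p * r * Real.exp (-(p * r ^ 2 / 2))) := by
    intro t ht
    have d : ∀ r ∈ Ici t, HasDerivAt (fun r : ℝ => -Real.exp (-(p * r ^ 2 / 2)))
        (p * r * Real.exp (-(p * r ^ 2 / 2))) r := by
      intro r _
      have h1 : HasDerivAt (fun r : ℝ => -(p * r ^ 2 / 2)) (-(p * r)) r := by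
        have := ((((hasDerivAt_id r).pow 2).const_mul p).div_const 2).neg
        have e : -(p * r) = -(p * (↑(2:ℕ) * id r ^ (2 - 1) * 1) / 2) := by
          simp; ring
        rw [e]
        exact this
      have h2 := h1.exp.neg
      have e : p * r * Real.exp (-(p * r ^ 2 / 2)) =
          -(Real.exp (-(p * r ^ 2 / 2)) * (-(p * r))) := by ring
      rw [e]
      exact h2
    have l : Filter.Tendsto (fun r : ℝ => -Real.exp (-(p * r ^ 2 / 2))) Filter.atTop
        (nhds 0) := by
      rw [← neg_zero]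
      apply Filter.Tendsto.neg
      have h1 : Filter.Tendsto (fun r : ℝ => p * r ^ 2 / 2) Filter.atTop Filter.atTop := by
        apply Filter.Tendsto.atTop_div_const (by norm_num)
        apply Filter.Tendsto.const_mul_atTop hp
        exact Filter.tendsto_pow_atTop (α := ℝ) (n := 2) (by norm_num)
      exact Real.tendsto_exp_neg_atTop_nhds_zero.comp h1
    have gi : IntegrableOn (fun r : ℝ => p * r * Real.exp (-(p * r ^ 2 / 2))) (Ioi t) := by
      have := ((integrable_mul_exp_neg_mul_sq (b := p / 2) (by positivity)).const_mul p).integrableOn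
        (s := Ioi t)
      refine this.congr_fun ?_ measurableSet_Ioi
      intro r _
      simp only
      have : -(p / 2) * r ^ 2 = -(p * r ^ 2 / 2) := by ring
      rw [this]; ring
    rw [← ofReal_integral_eq_lintegral_ofReal gi]
    · rw [integral_Ioi_of_hasDerivAt_of_tendsto' d gi l]
      simp
    · filter_upwards [ae_restrict_mem measurableSet_Ioi] with r hr
      have : 0 < r := lt_of_le_of_lt ht hr
      positivity
  have step : ∫⁻ x in T, ENNReal.ofReal (Real.exp (-(p * ‖x‖ ^ 2 / 2))) ≤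
      ∫⁻ r in Ioi (0:ℝ), ENNReal.ofReal (p * r * Real.exp (-(p * r ^ 2 / 2))) *
        ENNReal.ofReal (HH T r) := by
    have e1 : ∀ x : EuclideanSpace ℝ (Fin n), ENNReal.ofReal (Real.exp (-(p * ‖x‖ ^ 2 / 2))) =
        ∫⁻ r in Ioi (0:ℝ), (Ioi ‖x‖).indicator
          (fun r => ENNReal.ofReal (p * r * Real.exp (-(p * r ^ 2 / 2)))) r := by
      intro x
      rw [wint _ (norm_nonneg x), lintegral_indicator measurableSet_Ioi,
        Measure.restrict_restrict measurableSet_Ioi]
      congr 2
      ext r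
      simp only [mem_inter_iff, mem_Ioi]
      constructor
      · intro h; exact ⟨h, lt_of_le_of_lt (norm_nonneg x) h⟩
      · intro h; exact h.1
    simp only [e1]
    rw [lintegral_lintegral_swap]
    · apply setLIntegral_mono' measurableSet_Ioi
      intro r hr
      have e2 : ∀ x : EuclideanSpace ℝ (Fin n), (Ioi ‖x‖).indicator
          (fun r => ENNReal.ofReal (p * r * Real.exp (-(p * r ^ 2 / 2)))) r =
          (Metric.ball (0 : EuclideanSpace ℝ (Fin n)) r).indicator
            (fun _ => ENNReal.ofReal (p * r * Real.exp (-(p * r ^ 2 / 2)))) x := by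
        intro x
        by_cases hx : ‖x‖ < r
        · rw [indicator_of_mem (show r ∈ Ioi ‖x‖ from hx), indicator_of_mem
            (show x ∈ Metric.ball (0 : EuclideanSpace ℝ (Fin n)) r by simpa using hx)]
        · rw [indicator_of_notMem (show r ∉ Ioi ‖x‖ from hx), indicator_of_notMem
            (show x ∉ Metric.ball (0 : EuclideanSpace ℝ (Fin n)) r by simpa using hx)]
      simp only [e2]
      rw [lintegral_indicator Metric.isOpen_ball.measurableSet, setLIntegral_const,
        Measure.restrict_apply Metric.isOpen_ball.measurableSet]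
      gcongr
      rw [HH, measureReal_def, ENNReal.ofReal_toReal (fin_vol T r)]
      exact measure_mono (inter_subset_inter_left _ Metric.ball_subset_closedBall)
    · apply Measurable.aemeasurable
      have e3 : (Function.uncurry fun (x : EuclideanSpace ℝ (Fin n)) (r : ℝ) => (Ioi ‖x‖).indicator
          (fun r => ENNReal.ofReal (p * r * Real.exp (-(p * r ^ 2 / 2)))) r) =
          {q : EuclideanSpace ℝ (Fin n) × ℝ | ‖q.1‖ < q.2}.indicator
            (fun q => ENNReal.ofReal (p * q.2 * Real.exp (-(p * q.2 ^ 2 / 2)))) := by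
        funext q
        rcases q with ⟨x, r⟩
        simp only [Function.uncurry, indicator]
        rfl
      rw [e3]
      apply Measurable.indicator
      · fun_prop
      · exact measurableSet_lt (by fun_prop) (by fun_prop)
  have step2 : ∫⁻ r in Ioi (0:ℝ), ENNReal.ofReal (p * r * Real.exp (-(p * r ^ 2 / 2))) *
        ENNReal.ofReal (HH T r) ≤
      ENNReal.ofReal (HH T 1 * Real.exp (-(p / 2)) * (Real.sqrt (2 * Real.pi * p) + 1)) := by
    calc ∫⁻ r in Ioi (0:ℝ), ENNReal.ofReal (p * r * Real.exp (-(p * r ^ 2 / 2))) *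
        ENNReal.ofReal (HH T r)
        ≤ ∫⁻ r in Ioi (0:ℝ), ENNReal.ofReal (HH T 1 * Real.exp (-(p / 2))) *
          ENNReal.ofReal (p * r * Real.exp (-(p * (r - 1) ^ 2 / 2))) := by
          apply setLIntegral_mono' measurableSet_Ioi
          intro r hr
          have hr' : (0:ℝ) < r := hr
          rw [← ENNReal.ofReal_mul (by positivity), ← ENNReal.ofReal_mul (by positivity)]
          apply ENNReal.ofReal_le_ofReal
          calc p * r * Real.exp (-(p * r ^ 2 / 2)) * HH T r
              ≤ p * r * Real.exp (-(p * r ^ 2 / 2)) * (HH T 1 * Real.exp (p * (r - 1))) := by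
                have := hH r hr'
                gcongr
            _ = HH T 1 * (p * r) * Real.exp (-(p * r ^ 2 / 2) + p * (r - 1)) := by
                rw [Real.exp_add]; ring
            _ = HH T 1 * (p * r) * Real.exp (-(p / 2) + -(p * (r - 1) ^ 2 / 2)) := by
                congr 2; ring
            _ = _ := by rw [Real.exp_add]; ring
      _ = ENNReal.ofReal (HH T 1 * Real.exp (-(p / 2))) *
          ENNReal.ofReal (∫ r in Ioi (0:ℝ), p * r * Real.exp (-(p * (r - 1) ^ 2 / 2))) := by
          rw [lintegral_const_mul _ (by fun_prop), ofReal_integral_eq_lintegral_ofReal od1]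
          filter_upwards [ae_restrict_mem measurableSet_Ioi] with r hr
          have : (0:ℝ) < r := hr
          positivity
      _ ≤ _ := by
          rw [← ENNReal.ofReal_mul (by positivity)]
          apply ENNReal.ofReal_le_ofReal
          gcongr
  rw [integral_eq_lintegral_of_nonneg_ae (Filter.Eventually.of_forall (fun x => by positivity))
    (Continuous.aestronglyMeasurable (by fun_prop))]
  exact ENNReal.toReal_le_of_le_ofReal rhs0 (step.trans step2)

end Pool.Agent.H12.San
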